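import Pool.Agent.AFH.St

/-!
Basic lemmas on positions, moves, enumerations, justification and runs of frame machines.
-/

set_option autoImplicit false

namespace Pool.Agent.AFH

open Pool.Agent.Heads

variable {α : Type} {k : ℕ}

/-! ### the tape -/

lemma tape_zero (w : List α) : tape w 0 = Sym.left := rfl

lemma tape_eq_left {w : List α} {p : ℕ} : tape w p = Sym.left ↔ p = 0 := by
  cases p with
  | zero => simp [tape]
  | succ p =>
    simp only [tape, Nat.add_eq_zero_iff, one_ne_zero, and_false, iff_false]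
    cases w[p]? <;> simp

lemma tape_eq_right {w : List α} {p : ℕ} : tape w p = Sym.right ↔ w.length + 1 ≤ p := by
  cases p with
  | zero => simp [tape]
  | succ p =>
    simp only [tape, Nat.add_le_add_iff_right]
    rcases lt_or_ge p w.length with h | h
    · rw [List.getElem?_eq_getElem h]
      simp only [reduceCtorEq, false_iff, not_le]
      exact h
    · rw [List.getElem?_eq_none h]
      simpa using h

lemma isL_tape {w : List α} {p : ℕ} : isL (tape w p) = true ↔ p = 0 := by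
  rw [← tape_eq_left (w := w)]
  cases tape w p <;> simp [isL]

/-! ### moves -/

lemma move_S (N p : ℕ) : move N p Dir.S = p := rfl

lemma move_L (N p : ℕ) : move N p Dir.L = p - 1 := rfl

lemma move_R {N p : ℕ} (h : p < N) : move N p Dir.R = p + 1 := by
  simp only [move]
  omega

lemma move_le {N p : ℕ} (h : p ≤ N) (d : Dir) : move N p d ≤ N := by
  cases d <;> simp only [move] <;> omega

lemma mvs_le {N : ℕ} {p : Fin k → ℕ} (h : ∀ i, p i ≤ N) (v : Fin k → Dir) (i : Fin k) :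
    mvs N p v i ≤ N := move_le (h i) _

lemma mvs_stay (N : ℕ) (p : Fin k → ℕ) : mvs N p Stay = p := rfl

lemma okx_iff {w : List α} {p : Fin k → ℕ} {v : Fin k → Dir} :
    Okx (fun i => tape w (p i)) v ↔ Ok (w.length + 1) p v := by
  unfold Okx Ok
  refine forall_congr' fun i => ?_
  have h1 : tape w (p i) ≠ Sym.left ↔ 0 < p i := by
    rw [Ne, tape_eq_left]; omega
  have h2 : tape w (p i) ≠ Sym.right ↔ p i < w.length + 1 := by
    rw [Ne, tape_eq_right]; omega
  rw [h1, h2]

lemma opv_opv (v : Fin k → Dir) : opv (opv v) = v := by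
  funext i
  unfold opv
  cases v i <;> rfl

/-- The move and back. -/
lemma mvs_opv {N : ℕ} {p : Fin k → ℕ} {v : Fin k → Dir} (hp : ∀ i, p i ≤ N) (h : Ok N p v) :
    mvs N (mvs N p v) (opv v) = p := by
  funext i
  obtain ⟨h1, h2⟩ := h i
  have h3 := hp i
  unfold mvs opv
  cases hv : v i with
  | L => have := h1 hv; simp only [opd, move]; omega
  | S => rfl
  | R => have := h2 hv; simp only [opd, move]; omega

lemma ok_opv {N : ℕ} {p : Fin k → ℕ} {v : Fin k → Dir} (hp : ∀ i, p i ≤ N) (h : Ok N p v) :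
    Ok N (mvs N p v) (opv v) := by
  intro i
  obtain ⟨h1, h2⟩ := h i
  have h3 := hp i
  unfold mvs opv
  cases hv : v i with
  | L => have := h1 hv; simp only [opd, move]; constructor <;> intro h4 <;> first | omega | cases h4
  | S => simp only [opd, move]; constructor <;> intro h4 <;> cases h4
  | R => have := h2 hv; simp only [opd, move]; constructor <;> intro h4 <;> first | omega | cases h4

lemma mvs_inj {N : ℕ} {p : Fin k → ℕ} {v v' : Fin k → Dir} (h : Ok N p v) (h' : Ok N p v')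
    (he : mvs N p v = mvs N p v') : v = v' := by
  funext i
  obtain ⟨h1, h2⟩ := h i
  obtain ⟨h3, h4⟩ := h' i
  have h5 := congrFun he i
  unfold mvs at h5
  cases hv : v i <;> cases hv' : v' i <;> rw [hv, hv'] at h5 <;> simp only [move] at h5 <;>
    first | rfl | (exfalso; first
      | (have := h1 hv; have := h4 hv'; omega)
      | (have := h2 hv; have := h3 hv'; omega)
      | (have := h1 hv; omega) | (have := h2 hv; omega)
      | (have := h3 hv'; omega) | (have := h4 hv'; omega))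

lemma mvs_inj_left {N : ℕ} {p p' : Fin k → ℕ} {v : Fin k → Dir} (hp : ∀ i, p i ≤ N)
    (hp' : ∀ i, p' i ≤ N) (h : Ok N p v) (h' : Ok N p' v) (he : mvs N p v = mvs N p' v) :
    p = p' := by
  rw [← mvs_opv hp h, ← mvs_opv hp' h', he]

/-- If `y = p + v` then `p = y + opv v`; and conversely. -/
lemma mvs_eq_iff {N : ℕ} {p y : Fin k → ℕ} {v : Fin k → Dir} (hp : ∀ i, p i ≤ N)
    (hy : ∀ i, y i ≤ N) :
    (Ok N p v ∧ y = mvs N p v) ↔ (Ok N y (opv v) ∧ mvs N y (opv v) = p) := by
  constructor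
  · rintro ⟨h1, rfl⟩
    exact ⟨ok_opv hp h1, mvs_opv hp h1⟩
  · rintro ⟨h1, rfl⟩
    have h2 := ok_opv hy h1
    have h3 := mvs_opv hy h1
    rw [opv_opv] at h2 h3
    exact ⟨h2, h3.symm⟩

/-! ### enumerations -/

lemma vec_surj (v : Fin k → Dir) : ∃ n : Fin (VM k), vec k n = v := by
  refine ⟨⟨Finite.equivFin (Fin k → Dir) v, (Finite.equivFin (Fin k → Dir) v).2⟩, ?_⟩
  unfold vec
  rw [dif_pos (Fin.is_lt _)]
  simp

lemma vec_inj {n n' : ℕ} (h : n < VM k) (h' : n' < VM k) (he : vec k n = vec k n') : n = n' := by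
  unfold vec at he
  rw [dif_pos h, dif_pos h'] at he
  have := (Finite.equivFin (Fin k → Dir)).symm.injective he
  simpa using this

namespace LS

variable (S : LS α k)

lemma off_surj (o : S.Q × (Fin k → Dir)) : ∃ m : Fin S.M, S.off m = o := by
  have := S.finQ
  refine ⟨⟨Finite.equivFin (S.Q × (Fin k → Dir)) o,
    (Finite.equivFin (S.Q × (Fin k → Dir)) o).2⟩, ?_⟩
  unfold off
  rw [dif_pos (Fin.is_lt _)]
  simp

lemma off_inj {m m' : ℕ} (h : m < S.M) (h' : m' < S.M) (he : S.off m = S.off m') : m = m' := by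
  have := S.finQ
  unfold off at he
  rw [dif_pos h, dif_pos h'] at he
  have := (Finite.equivFin (S.Q × (Fin k → Dir))).symm.injective he
  simpa using this

lemma num_off {m : ℕ} (h : m < S.M) : S.num (S.off m) = m := by
  have h1 : S.num (S.off m) ∈ {m' | S.off m' = S.off m} := Nat.sInf_mem ⟨m, rfl⟩
  have h2 : S.num (S.off m) ≤ m := Nat.sInf_le rfl
  exact S.off_inj (h2.trans_lt h) h h1

variable {S} {w : List α}

/-! ### justification -/

lemma Just.mono {c : S.Node} {D D' : Set S.Node} (h : S.Just w c D) (hD : D ⊆ D') :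
    S.Just w c D' := by
  rcases h with ⟨h1, h2, h3⟩ | ⟨h1, t, h2, h3⟩
  · exact Or.inl ⟨h1, h2, fun t ht => hD (h3 t ht)⟩
  · exact Or.inr ⟨h1, t, h2, hD h3⟩

lemma Just.nonempty {c : S.Node} {D : Set S.Node} (h : S.Just w c D) :
    ∃ t ∈ S.tr w c, S.tgt w c t ∈ D := by
  rcases h with ⟨h1, ⟨t, ht⟩, h3⟩ | ⟨h1, t, h2, h3⟩
  · exact ⟨t, ht, h3 t ht⟩
  · exact ⟨t, h2, h3⟩

lemma not_just_q0 {c : S.Node} {D : Set S.Node} (hc : c.1 = S.q0) : ¬ S.Just w c D := by
  intro h
  obtain ⟨t, ht, _⟩ := h.nonempty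
  unfold tr at ht
  rw [hc, S.q0_succ] at ht
  exact ht

lemma not_just_empty {c : S.Node} : ¬ S.Just w c ∅ := by
  intro h
  obtain ⟨t, _, h2⟩ := h.nonempty
  exact h2

lemma bd_a0 : S.Bd w S.a0 := fun _ => Nat.zero_le _

lemma bd_tgt {c : S.Node} (hc : S.Bd w c) (t : S.Q × (Fin k → Dir)) : S.Bd w (S.tgt w c t) :=
  fun i => mvs_le hc t.2 i

lemma ok_tr {c : S.Node} {t : S.Q × (Fin k → Dir)} (ht : t ∈ S.tr w c) :
    Ok (w.length + 1) c.2 t.2 := okx_iff.1 (S.okx _ _ t ht)

/-- Different targets are different nodes. -/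
lemma tgt_inj {c : S.Node} {t t' : S.Q × (Fin k → Dir)} (ht : t ∈ S.tr w c)
    (ht' : t' ∈ S.tr w c) (h : S.tgt w c t = S.tgt w c t') : t = t' := by
  obtain ⟨h1, h2⟩ := Prod.mk.injEq _ _ _ _ ▸ h
  exact Prod.ext h1 (mvs_inj (ok_tr ht) (ok_tr ht') h2)

/-! ### candidates -/

lemma Cand.bd {s c : S.Node} {m : ℕ} (hs : S.Bd w s) (h : S.Cand w s m c) : S.Bd w c := by
  obtain ⟨_, _, rfl⟩ := h
  exact fun i => mvs_le hs _ i

lemma cand_unique {s c c' : S.Node} {m : ℕ} (h : S.Cand w s m c) (h' : S.Cand w s m c') :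
    c = c' := h.2.2.trans h'.2.2.symm

/-- The number of a candidate is unique. -/
lemma cand_inj {s c : S.Node} {m m' : ℕ} (h : S.Cand w s m c) (h' : S.Cand w s m' c) :
    m = m' := by
  obtain ⟨h1, h2, h3⟩ := h
  obtain ⟨h1', h2', h3'⟩ := h'
  rw [h3] at h3'
  obtain ⟨h4, h5⟩ := Prod.mk.injEq _ _ _ _ ▸ h3'
  exact S.off_inj h1 h1' (Prod.ext h4 (mvs_inj h2 h2' h5))

/-- `s = c + opv (off m)`. -/
lemma Cand.back {s c : S.Node} {m : ℕ} (hs : S.Bd w s) (h : S.Cand w s m c) :
    Ok (w.length + 1) c.2 (opv (S.off m).2) ∧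
      s.2 = mvs (w.length + 1) c.2 (opv (S.off m).2) ∧ c.1 = (S.off m).1 := by
  obtain ⟨_, h2, rfl⟩ := h
  exact ⟨ok_opv hs h2, (mvs_opv hs h2).symm, rfl⟩

/-- A node is a candidate at each of its successors. -/
lemma cand_of_tgt {c : S.Node} {t : S.Q × (Fin k → Dir)} (hc : S.Bd w c) (ht : t ∈ S.tr w c) :
    ∃ m, S.Cand w (S.tgt w c t) m c ∧ S.off m = (c.1, opv t.2) := by
  obtain ⟨m, hm⟩ := S.off_surj (c.1, opv t.2)
  refine ⟨m, ⟨m.2, ?_, ?_⟩, hm⟩
  · rw [hm]
    exact ok_opv hc (ok_tr ht)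
  · rw [hm]
    exact Prod.ext rfl (mvs_opv hc (ok_tr ht)).symm

end LS

/-! ### runs -/

namespace FM

variable {M : FM α k} {w : List α}

/-- A run which starts with a step. -/
lemma Run.head {c c' c'' : FC M.L M.Γ k} (h : M.Stp w c c') (h' : M.Run w c' c'') :
    M.Run w c c'' := Relation.ReflTransGen.head h h'

lemma Run.trans {c c' c'' : FC M.L M.Γ k} (h : M.Run w c c') (h' : M.Run w c' c'') :
    M.Run w c c'' := Relation.ReflTransGen.trans h h'

lemma Run.refl (c : FC M.L M.Γ k) : M.Run w c c := Relation.ReflTransGen.refl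

end FM

end Pool.Agent.AFH
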