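import Pool.Agent.Lib_helper16.Heads.Defs

/-!
Problem MP_5e85fc_lc: alternating multihead finite automata. (Pushdown automata `PDA` and finite
automata `FA` with several two-way heads are defined in `Lib_helper16/Heads/Defs`.)
-/

set_option autoImplicit false

namespace Pool.Agent.AFH

open Pool.Agent.Heads

/-- A two-way alternating finite automaton with `k` input heads. The states in `univ` are
universal, the other ones are existential. -/
structure AFA (α : Type) (k : ℕ) where
  Q : Type
  finQ : Finite Q
  start : Q
  accept : Set Q
  univ : Set Q
  δ : Q → (Fin k → Sym α) → Set (Q × (Fin k → Dir))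

namespace AFA

variable {α : Type} {k : ℕ} (M : AFA α k)

/-- One step on input `w`, between pairs (state, head positions). -/
def Step (w : List α) (c c' : M.Q × (Fin k → ℕ)) : Prop :=
  ∃ t ∈ M.δ c.1 (fun i => tape w (c.2 i)),
    c' = (t.1, fun i => move (w.length + 1) (c.2 i) (t.2 i))

/-- The accepting configurations: those with an accepting state, the existential configurations
with some accepting successor, and the universal configurations all successors of which are
accepting (the least set with these properties). -/
inductive Wins (w : List α) : M.Q × (Fin k → ℕ) → Prop
  | final (c : M.Q × (Fin k → ℕ)) : c.1 ∈ M.accept → Wins w c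
  | some (c c' : M.Q × (Fin k → ℕ)) : c.1 ∉ M.univ → M.Step w c c' → Wins w c' → Wins w c
  | all (c : M.Q × (Fin k → ℕ)) : c.1 ∈ M.univ → (∀ c', M.Step w c c' → Wins w c') → Wins w c

/-- `M` accepts `w` if the initial configuration (initial state, all heads on the left endmarker)
is accepting. -/
def lang : Set (List α) := {w | M.Wins w (M.start, fun _ => 0)}

end AFA

end Pool.Agent.AFH
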