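import Pool.Agent.Lib_helper16.Heads.Defs

/-!
Frame machines: `k` registers with values on the tape and a stack of frames, each of which holds a
label and `k` numbers. They are compiled to deterministic pushdown automata with `k + 1` heads.
-/

set_option autoImplicit false

namespace Pool.Agent.AFH

open Pool.Agent.Heads

/-- Instructions of a frame machine. -/
inductive Ins (L Γ : Type) (k : ℕ) where
  /-- move the registers -/
  | go (v : Fin k → Dir) (l : L)
  /-- store the registers in a new frame and set them to zero -/
  | push (γ : Γ) (l : L)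
  /-- load the top frame into the registers and remove it -/
  | pop (l : L)
  /-- remove the top frame -/
  | drop (l : L)
  /-- change the label of the top frame -/
  | rel (γ : Γ) (l : L)
  /-- compare the registers with the numbers of the top frame -/
  | test (lt lf : L)
  /-- stop -/
  | halt

/-- A frame machine. -/
structure FM (α : Type) (k : ℕ) where
  L : Type
  Γ : Type
  finL : Finite L
  finΓ : Finite Γ
  start : L
  acc : Set L
  prog : L → (Fin k → Sym α) → Option Γ → Ins L Γ k

/-- Configurations of a frame machine: label, registers, stack. -/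
structure FC (L Γ : Type) (k : ℕ) where
  lab : L
  reg : Fin k → ℕ
  stk : List (Γ × (Fin k → ℕ))

/-- The effect of an instruction. -/
def Ins.exec {L Γ : Type} {k : ℕ} (N : ℕ) : Ins L Γ k → (Fin k → ℕ) → List (Γ × (Fin k → ℕ)) →
    Option (FC L Γ k)
  | Ins.go v l, p, S => some ⟨l, fun i => move N (p i) (v i), S⟩
  | Ins.push γ l, p, S => some ⟨l, fun _ => 0, (γ, p) :: S⟩
  | Ins.pop l, _, f :: S => some ⟨l, f.2, S⟩
  | Ins.drop l, p, _ :: S => some ⟨l, p, S⟩
  | Ins.rel γ l, p, f :: S => some ⟨l, p, (γ, f.2) :: S⟩
  | Ins.test lt lf, p, f :: S => open Classical in some ⟨if p = f.2 then lt else lf, p, f :: S⟩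
  | _, _, _ => none

namespace FM

variable {α : Type} {k : ℕ} (M : FM α k)

/-- The instruction to be executed. -/
def ins (w : List α) (c : FC M.L M.Γ k) : Ins M.L M.Γ k :=
  M.prog c.lab (fun i => tape w (c.reg i)) (c.stk.head?.map Prod.fst)

/-- One step. -/
def Stp (w : List α) (c c' : FC M.L M.Γ k) : Prop :=
  (M.ins w c).exec (w.length + 1) c.reg c.stk = some c'

/-- Runs. -/
def Run (w : List α) : FC M.L M.Γ k → FC M.L M.Γ k → Prop := Relation.ReflTransGen (M.Stp w)

/-- The initial configuration. -/
def init : FC M.L M.Γ k := ⟨M.start, fun _ => 0, []⟩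

end FM

end Pool.Agent.AFH
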