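import Pool.Agent.AFH.Bas

/-!
# Project AFH, second part: nondeterministic pushdown automata with `k` heads as alternating finite
automata with `3 k` heads (statements)

The heads form three groups of `k` heads. The state `A γ q a` (`a` a group) means: from the state
`q`, the head positions of the group `a` and the top symbol `γ` the pushdown automaton can accept
without popping this symbol; `P g q q2 a b`: from the state `q`, the positions of the group `a` and
the top symbol `g` it can pop this symbol and arrive in the state `q2` at the positions of the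
group `b`.
-/

set_option autoImplicit false

namespace Pool.Agent.AFH

open Pool.Agent.Heads

variable {α : Type} {k : ℕ}

section Big

variable (M : PDA α k) (w : List α)

/-- From the state `q`, the positions `x` and the top symbol `g` the automaton can pop this symbol,
arriving in the state `q2` at the positions `x2`. -/
inductive Pp : M.Γ → M.Q → (Fin k → ℕ) → M.Q → (Fin k → ℕ) → Prop
  | pop {g : M.Γ} {q q' : M.Q} {x : Fin k → ℕ} {d : Fin k → Dir} :
      (q', d, Op.pop) ∈ M.δ q (fun i => tape w (x i)) (some g) →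
      Pp g q x q' (mvs (w.length + 1) x d)
  | none {g : M.Γ} {q q' q2 : M.Q} {x x2 : Fin k → ℕ} {d : Fin k → Dir} :
      (q', d, Op.none) ∈ M.δ q (fun i => tape w (x i)) (some g) →
      Pp g q' (mvs (w.length + 1) x d) q2 x2 → Pp g q x q2 x2
  | push {g g' : M.Γ} {q q' q2 q3 : M.Q} {x x2 x3 : Fin k → ℕ} {d : Fin k → Dir} :
      (q', d, Op.push g') ∈ M.δ q (fun i => tape w (x i)) (some g) →
      Pp g' q' (mvs (w.length + 1) x d) q3 x3 → Pp g q3 x3 q2 x2 → Pp g q x q2 x2

/-- From the state `q`, the positions `x` and the top symbol `γ` the automaton can accept without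
popping this symbol. -/
inductive Aa : Option M.Γ → M.Q → (Fin k → ℕ) → Prop
  | acc {γ : Option M.Γ} {q : M.Q} {x : Fin k → ℕ} : q ∈ M.accept → Aa γ q x
  | none {γ : Option M.Γ} {q q' : M.Q} {x : Fin k → ℕ} {d : Fin k → Dir} :
      (q', d, Op.none) ∈ M.δ q (fun i => tape w (x i)) γ →
      Aa γ q' (mvs (w.length + 1) x d) → Aa γ q x
  | pop0 {q q' : M.Q} {x : Fin k → ℕ} {d : Fin k → Dir} :
      (q', d, Op.pop) ∈ M.δ q (fun i => tape w (x i)) .none →
      Aa .none q' (mvs (w.length + 1) x d) → Aa .none q x
  | push {γ : Option M.Γ} {q q' : M.Q} {x : Fin k → ℕ} {d : Fin k → Dir} {g : M.Γ} :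
      (q', d, Op.push g) ∈ M.δ q (fun i => tape w (x i)) γ →
      Aa (some g) q' (mvs (w.length + 1) x d) → Aa γ q x
  | pushpop {γ : Option M.Γ} {q q' q2 : M.Q} {x x2 : Fin k → ℕ} {d : Fin k → Dir} {g : M.Γ} :
      (q', d, Op.push g) ∈ M.δ q (fun i => tape w (x i)) γ →
      Pp M w g q' (mvs (w.length + 1) x d) q2 x2 → Aa γ q2 x2 → Aa γ q x

end Big

/-- Goals. -/
inductive Gl (Q Γ : Type) where
  | A (γ : Option Γ) (q : Q) (a : Fin 3)
  | P (g : Γ) (q q2 : Q) (a b : Fin 3)

/-- States of the alternating automaton. -/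
inductive NS (Q Γ : Type) where
  | goal (s : Gl Q Γ)
  /-- the group `c` moves to a guessed position, then both goals have to be reached -/
  | G (c : Fin 3) (s s' : Gl Q Γ)
  | U (s s' : Gl Q Γ)
  /-- the groups `a` and `b` have the same positions -/
  | E (a b : Fin 3)
  | acc

/-- The positions (or symbols) of the group `a`. -/
def gr {T : Type} (x : Fin (3 * k) → T) (a : Fin 3) : Fin k → T := fun i => x (finProdFinEquiv (a, i))

/-- The group `a` moves. -/
def gmv (a : Fin 3) (v : Fin k → Dir) : Fin (3 * k) → Dir :=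
  fun h => if (finProdFinEquiv.symm h).1 = a then v (finProdFinEquiv.symm h).2 else Dir.S

/-- The groups `a` and `b` move to the left. -/
def gml (a b : Fin 3) : Fin (3 * k) → Dir :=
  fun h => if (finProdFinEquiv.symm h).1 = a ∨ (finProdFinEquiv.symm h).1 = b then Dir.L else Dir.S

/-- The third group. -/
def fr (a b : Fin 3) : Fin 3 := -(a + b)

/-- The transitions. -/
def npδ (M : PDA α k) : NS M.Q M.Γ → (Fin (3 * k) → Sym α) →
    Set (NS M.Q M.Γ × (Fin (3 * k) → Dir))
  | NS.goal (Gl.A γ q a), x => {t |
      (q ∈ M.accept ∧ t = (NS.acc, Stay)) ∨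
      (∃ q' v, (q', v, Op.none) ∈ M.δ q (gr x a) γ ∧ t = (NS.goal (Gl.A γ q' a), gmv a v)) ∨
      (∃ q' v, γ = none ∧ (q', v, Op.pop) ∈ M.δ q (gr x a) γ ∧
        t = (NS.goal (Gl.A γ q' a), gmv a v)) ∨
      (∃ q' v g, (q', v, Op.push g) ∈ M.δ q (gr x a) γ ∧
        t = (NS.goal (Gl.A (some g) q' a), gmv a v)) ∨
      (∃ q' v g q2, (q', v, Op.push g) ∈ M.δ q (gr x a) γ ∧
        t = (NS.G (a + 1) (Gl.P g q' q2 a (a + 1)) (Gl.A γ q2 (a + 1)), gmv a v))}
  | NS.goal (Gl.P g q q2 a b), x => {t |
      (∃ v, (q2, v, Op.pop) ∈ M.δ q (gr x a) (some g) ∧ t = (NS.E a b, gmv a v)) ∨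
      (∃ q' v, (q', v, Op.none) ∈ M.δ q (gr x a) (some g) ∧
        t = (NS.goal (Gl.P g q' q2 a b), gmv a v)) ∨
      (∃ q' v g' q3, (q', v, Op.push g') ∈ M.δ q (gr x a) (some g) ∧
        t = (NS.G (fr a b) (Gl.P g' q' q3 a (fr a b)) (Gl.P g q3 q2 (fr a b) b), gmv a v))}
  | NS.G c s s', _ => {t | (∃ v, t = (NS.G c s s', gmv c v)) ∨ t = (NS.U s s', Stay)}
  | NS.U s s', _ => {t | t = (NS.goal s, Stay) ∨ t = (NS.goal s', Stay)}
  | NS.E a b, x => {t | ((∀ i, gr x a i = Sym.left ∧ gr x b i = Sym.left) ∧ t = (NS.acc, Stay)) ∨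
      ((∀ i, gr x a i = Sym.left ↔ gr x b i = Sym.left) ∧ t = (NS.E a b, gml a b))}
  | NS.acc, _ => ∅

theorem finGl (Q Γ : Type) [Finite Q] [Finite Γ] : Finite (Gl Q Γ) := by
  let f : Gl Q Γ → Fin 2 × Option Γ × Q × Option Q × Fin 3 × Fin 3 := fun l => match l with
    | Gl.A γ q a => (0, γ, q, none, a, 0)
    | Gl.P g q q2 a b => (1, some g, q, some q2, a, b)
  refine Finite.of_injective f ?_
  intro a b h
  cases a <;> cases b <;> simp_all [f]

theorem finNS (Q Γ : Type) [Finite Q] [Finite Γ] : Finite (NS Q Γ) := by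
  have := finGl Q Γ
  let f : NS Q Γ → Fin 5 × Option (Gl Q Γ) × Option (Gl Q Γ) × Fin 3 × Fin 3 := fun l =>
    match l with
    | NS.goal s => (0, some s, none, 0, 0)
    | NS.G c s s' => (1, some s, some s', c, 0)
    | NS.U s s' => (2, some s, some s', 0, 0)
    | NS.E a b => (3, none, none, a, b)
    | NS.acc => (4, none, none, 0, 0)
  refine Finite.of_injective f ?_
  intro a b h
  cases a <;> cases b <;> simp_all [f]

/-- The alternating automaton of a pushdown automaton. -/
def npA (M : PDA α k) : AFA α (3 * k) where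
  Q := NS M.Q M.Γ
  finQ := by have := M.finQ; have := M.finΓ; exact finNS M.Q M.Γ
  start := NS.goal (Gl.A none M.start 0)
  accept := {NS.acc}
  univ := {s | ∃ a b, s = NS.U a b}
  δ := npδ M

/-! ## statements -/

/-- NPB: big steps. The same as `lang_iff_Aa` in `Pool/Agent/Lib_helper16/Heads/Cook.lean` (there for one head on a track; copy the proofs of `Pp.run`, `Aa.run`, `big_of_run`, `lang_iff_Aa` with positions `Fin k → ℕ`, moves `Fin k → Dir` and `PDA.Step`). -/
def S_NPB : Prop := ∀ {α : Type} {k : ℕ} (M : PDA α k) (w : List α),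
  w ∈ M.lang ↔ Aa M w none M.start (fun _ => 0)

/-- NPE: the equality test. Induction on the sum of the `gr p a i + gr p b i`. (`a ≠ b` is not needed for the groups to move: the move of all heads of both groups to the left; at cell `0` nothing moves.) If all heads of both groups are at `0`: the step to `acc`. Otherwise, if `gr p a i = 0 ↔ gr p b i = 0` for
all `i`, the only other step goes to `E a b` with all these numbers decreased by one (where positive), and the groups are equal after the step if and only if they are equal before (a number is `0` exactly if the other one is). For the direction from `Wins`: induction on `Wins`. -/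
def S_NPE : Prop := ∀ {α : Type} {k : ℕ} (M : PDA α k) (w : List α) (a b : Fin 3)
  (p : Fin (3 * k) → ℕ), (∀ h, p h ≤ w.length + 1) →
  ((npA M).Wins w (NS.E a b, p) ↔ gr p a = gr p b)

/-- NPG: the guess. From right to left: the group `c` moves from its positions to `z` (induction on the sum of the distances: all heads of the group which are not at the right place move towards it by one), then `U` (`Wins.all`: both successors). From left to right: induction on `Wins` (for states `G c s s'`
with positions which differ from `p` only in the group `c`). `Function.update`-free formulation: `z` are positions of all heads which agree with `p` outside the group `c`. -/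
def S_NPG : Prop := ∀ {α : Type} {k : ℕ} (M : PDA α k) (w : List α) (c : Fin 3)
  (s s' : Gl M.Q M.Γ) (p : Fin (3 * k) → ℕ), (∀ h, p h ≤ w.length + 1) →
  ((npA M).Wins w (NS.G c s s', p) ↔ ∃ z : Fin (3 * k) → ℕ, (∀ h, z h ≤ w.length + 1) ∧
    (∀ a, a ≠ c → gr z a = gr p a) ∧ (npA M).Wins w (NS.goal s, z) ∧
      (npA M).Wins w (NS.goal s', z))

/-- NPF (from NPE, NPG): from the big steps to the alternating automaton. Induction on `Pp` (for all `p`, `a ≠ b` with `gr p a = x`, `gr p b = x2`) and then on `Aa`. The positions in big steps from bounded positions are bounded (`mvs_le`). For `push` take in NPG the positions `z` with the group `fr a b` at `x3`; `fr a b ≠ a, b`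
if `a ≠ b` (`decide`). `gr (fun h => move N (p h) (gmv a v h)) a = mvs N (gr p a) v`, the other groups are unchanged. -/
def S_NPF : Prop := ∀ {α : Type} {k : ℕ} (M : PDA α k) (w : List α) (p : Fin (3 * k) → ℕ),
  (∀ h, p h ≤ w.length + 1) →
  (∀ (g : M.Γ) (q q2 : M.Q) (a b : Fin 3), a ≠ b → Pp M w g q (gr p a) q2 (gr p b) →
    (npA M).Wins w (NS.goal (Gl.P g q q2 a b), p)) ∧
  (∀ (γ : Option M.Γ) (q : M.Q) (a : Fin 3), Aa M w γ q (gr p a) →
    (npA M).Wins w (NS.goal (Gl.A γ q a), p))

/-- NPR (from NPE, NPG): the converse. Induction on `Wins` for all states at once: the statement for a configuration `(s, p)` with `p ≤ N` is: for `goal (P g q q2 a b)` with `a ≠ b`: `Pp …`; for `goal (A γ q a)`: `Aa …`; for `E a b`: `gr p a = gr p b`; for `G c s s'` and `U s s'`: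
there is a `z` (for `U`: `z = p`), equal to `p` outside the group `c`, for which the statements of both goals hold. Then NPE, NPG are not needed (you may drop these hypotheses and say so). -/
def S_NPR : Prop := ∀ {α : Type} {k : ℕ} (M : PDA α k) (w : List α) (p : Fin (3 * k) → ℕ),
  (∀ h, p h ≤ w.length + 1) →
  (∀ (g : M.Γ) (q q2 : M.Q) (a b : Fin 3), a ≠ b →
    (npA M).Wins w (NS.goal (Gl.P g q q2 a b), p) → Pp M w g q (gr p a) q2 (gr p b)) ∧
  (∀ (γ : Option M.Γ) (q : M.Q) (a : Fin 3), (npA M).Wins w (NS.goal (Gl.A γ q a), p) →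
    Aa M w γ q (gr p a))

/-- The theorem. -/
theorem np_main (hM : S_MAIN) (hB : S_NPB) (hF : S_NPF) (hR : S_NPR) (M : PDA α k) :
    ∃ P : PDA α (3 * k + 1), P.Det ∧ P.lang = M.lang := by
  obtain ⟨P, h1, h2⟩ := hM (npA M)
  refine ⟨P, h1, h2.trans ?_⟩
  ext w
  rw [hB M w]
  constructor
  · intro h
    exact (hR M w (fun _ => 0) (fun _ => Nat.zero_le _)).2 none M.start 0 h
  · intro h
    exact (hF M w (fun _ => 0) (fun _ => Nat.zero_le _)).2 none M.start 0 h

end Pool.Agent.AFH
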