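import Pool.Agent.AFH.St

/-!
# CMP: the pushdown automaton of a frame machine
-/

set_option autoImplicit false

namespace Pool.Agent.AFH

open Pool.Agent.Heads

namespace CMP

variable {α : Type} {k : ℕ}

/-- The pushdown automaton of a frame machine. -/
noncomputable def pda (M : FM α k) : PDA α (k + 1) where
  Q := Mic M.L M.Γ k
  Γ := Sy M.Γ
  finQ := by have := M.finL; have := M.finΓ; exact finMic M.L M.Γ k
  finΓ := by have := M.finΓ; exact finSy M.Γ
  start := Mic.run M.start
  accept := {m | ∃ l ∈ M.acc, m = Mic.run l}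
  δ := fun q x g => {t | M.mic q x g = some t}

variable (M : FM α k) (w : List α)

theorem rightUnique : Relator.RightUnique (M.MS w) := by
  rintro a b c ⟨t, ht, rfl⟩ ⟨t', ht', rfl⟩
  rw [ht] at ht'
  rw [Option.some.inj ht']

theorem step_iff (c c' : Cfg (Mic M.L M.Γ k) (Fin (k + 1) → ℕ) (Sy M.Γ)) :
    (pda M).Step w c c' ↔ M.MS w c c' := Iff.rfl

theorem init_eq : (pda M).init = mc (Mic.run M.start) 0 (fun _ => 0) [] := by
  unfold PDA.init mc
  have e : (fun _ : Fin (k + 1) => 0) = Fin.cons (α := fun _ => ℕ) 0 (fun _ : Fin k => 0) := by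
    funext i
    refine Fin.cases ?_ (fun j => ?_) i <;> rfl
  rw [e]
  rfl

theorem reach_of_run {c : Cfg (Mic M.L M.Γ k) (Fin (k + 1) → ℕ) (Sy M.Γ)}
    (h : M.MR w (mc (Mic.run M.start) 0 (fun _ => 0) []) c) : ∃ t, (pda M).Reach w t c := by
  induction h with
  | refl => exact ⟨0, (init_eq M) ▸ PDA.Reach.zero⟩
  | tail _ h ih =>
    obtain ⟨t, ht⟩ := ih
    exact ⟨t + 1, PDA.Reach.succ ht ((step_iff M w _ _).2 h)⟩

theorem run_of_reach {t : ℕ} {c : Cfg (pda M).Q (Fin (k + 1) → ℕ) (pda M).Γ}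
    (h : (pda M).Reach w t c) : M.MR w (mc (Mic.run M.start) 0 (fun _ => 0) []) c := by
  induction h with
  | zero =>
    rw [init_eq M]
    exact Relation.ReflTransGen.refl
  | succ _ h ih => exact ih.tail ((step_iff M w _ _).1 h)

theorem sim (hSIM : S_SIM) {c : FC M.L M.Γ k} (h : M.Run w M.init c) :
    (∀ i, c.reg i ≤ w.length + 1) ∧ BdS (w.length + 1) c.stk ∧
      M.MR w (mc (Mic.run M.start) 0 (fun _ => 0) []) (mc (Mic.run c.lab) 0 c.reg (enc c.stk)) := by
  induction h with
  | refl =>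
    refine ⟨fun i => Nat.zero_le _, ?_, Relation.ReflTransGen.refl⟩
    intro f hf
    exact absurd hf (by simp [FM.init])
  | tail _ h ih =>
    obtain ⟨h1, h2, h3⟩ := hSIM M w _ _ ih.1 ih.2.1 h
    exact ⟨h1, h2, ih.2.2.trans h3⟩

theorem get_enc (S : List (M.Γ × (Fin k → ℕ))) :
    Sy.get (enc S).head? = S.head?.map Prod.fst := by
  cases S <;> rfl

theorem mic_run_halt {l : M.L} {x : Fin (k + 1) → Sym α} {g : Option (Sy M.Γ)}
    (h : M.prog l (fun j => x j.succ) (Sy.get g) = Ins.halt) : M.mic (Mic.run l) x g = none := by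
  simp only [FM.mic, h]

theorem eq_of_stuck {β : Type*} {r : β → β → Prop} {a b : β} (h : Relation.ReflTransGen r a b)
    (ha : ∀ c, ¬ r a c) : a = b := by
  rcases Relation.ReflTransGen.cases_head h with h | ⟨c, hc, -⟩
  · exact h
  · exact absurd hc (ha c)

end CMP

open CMP

theorem t_CMP (hSIM : S_SIM) : S_CMP := by
  intro α k M hacc
  refine ⟨pda M, ?_, ?_, ?_⟩
  · intro q x g t ht t' ht'
    have h1 : M.mic q x g = some t := ht
    have h2 : M.mic q x g = some t' := ht'
    rw [h1] at h2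
    exact Option.some.inj h2
  · intro w c hc hl
    obtain ⟨-, -, h⟩ := sim M w hSIM hc
    obtain ⟨t, ht⟩ := reach_of_run M w h
    exact ⟨t, _, ht, c.lab, hl, rfl⟩
  · rintro w c hc hl hh ⟨t, c', ht, l, hl', he⟩
    obtain ⟨-, -, h⟩ := sim M w hSIM hc
    have h' := run_of_reach M w ht
    have s1 : ∀ d, ¬ M.MS w (mc (Mic.run c.lab) 0 c.reg (enc c.stk)) d := by
      rintro d ⟨t, ht, -⟩
      have h3 : M.mic (Mic.run c.lab)
          (fun i => tape w (Fin.cons (α := fun _ => ℕ) 0 c.reg i)) (enc c.stk).head? = none := by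
        refine mic_run_halt M ?_
        rw [get_enc]
        exact hh
      have h4 : M.mic (Mic.run c.lab)
          (fun i => tape w (Fin.cons (α := fun _ => ℕ) 0 c.reg i)) (enc c.stk).head? = some t := ht
      rw [h3] at h4
      cases h4
    have s2 : ∀ d, ¬ M.MS w c' d := by
      rintro d ⟨t, ht, -⟩
      rw [he, mic_run_halt M (hacc l hl' _ _)] at ht
      cases ht
    have h5 : mc (Mic.run c.lab) 0 c.reg (enc c.stk) = c' := by
      rcases Relation.ReflTransGen.total_of_right_unique (rightUnique M w) h h' with h6 | h6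
      · exact eq_of_stuck h6 s1
      · exact (eq_of_stuck h6 s2).symm
    rw [← h5] at he
    have h7 : c.lab = l := by
      have : (Mic.run c.lab : Mic M.L M.Γ k) = Mic.run l := he
      injection this
    rw [h7] at hl
    exact hl hl'

end Pool.Agent.AFH
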