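import Pool.Agent.AFH.MicLib

set_option autoImplicit false

namespace Pool.Agent.AFH

open Pool.Agent.Heads

namespace DR

open ML

variable {α : Type} {k : ℕ} (M : FM α k) (w : List α)

lemma loop (l : M.L) (j : Fin k) (t : List (Sy M.Γ)) (a : ℕ) (p : Fin k → ℕ) :
    M.MR w (mc (Mic.dr l j.succ) 0 p (List.replicate a Sy.one ++ Sy.hash :: t))
      (mc (Mic.dr l j.castSucc) 0 p t) := by
  induction a with
  | zero =>
    refine one_sty M w (op := Op.pop) (s := Sy.hash :: t) ?_
    simp [FM.mic, Fin.succ_ne_zero]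
  | succ a ih =>
    refine Relation.ReflTransGen.trans (one_sty M w (m' := Mic.dr l j.succ) (op := Op.pop) ?_) ih
    simp [FM.mic, Fin.succ_ne_zero, List.replicate_succ]

lemma main (l : M.L) (p q : Fin k → ℕ) (s : List (Sy M.Γ)) (n : ℕ) (hn : n < k + 1) :
    M.MR w (mc (Mic.dr l ⟨n, hn⟩) 0 p (dig q n ++ s)) (mc (Mic.run l) 0 p s) := by
  induction n with
  | zero =>
    refine one_sty M w (op := Op.none) ?_
    rfl
  | succ n ih =>
    have hk : n < k := by omega
    rw [dig_succ q n hk]
    exact (loop M w l ⟨n, hk⟩ (dig q n ++ s) (q ⟨n, hk⟩) p).trans (ih (by omega))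

end DR

theorem t_DR : S_DR := by
  intro α k M w l p q s _
  exact DR.main M w l p q s k (by omega)

end Pool.Agent.AFH
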