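import Pool.Agent.AFH.St

/-!
# Finite automata as alternating automata without universal states
-/

set_option autoImplicit false

namespace Pool.Agent.AFH

open Pool.Agent.Heads

namespace FAA

variable {α : Type} {k : ℕ}

/-- The alternating automaton without universal states. -/
def toAFA (M : FA α k) : AFA α k where
  Q := M.Q
  finQ := M.finQ
  start := M.start
  accept := M.accept
  univ := ∅
  δ := M.δ

theorem of_wins (M : FA α k) (w : List α) (c : (toAFA M).Q × (Fin k → ℕ))
    (h : (toAFA M).Wins w c) :
    ∃ c' : M.Q × (Fin k → ℕ), Relation.ReflTransGen (M.Step w) c c' ∧ c'.1 ∈ M.accept := by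
  induction h with
  | final c hc => exact ⟨c, Relation.ReflTransGen.refl, hc⟩
  | some c c' _ hs _ ih =>
    obtain ⟨c'', h1, h2⟩ := ih
    exact ⟨c'', Relation.ReflTransGen.head hs h1, h2⟩
  | all c hc _ _ => exact absurd hc (Set.notMem_empty _)

theorem wins_of (M : FA α k) (w : List α) (c c' : M.Q × (Fin k → ℕ))
    (h : Relation.ReflTransGen (M.Step w) c c') (hc : c'.1 ∈ M.accept) :
    (toAFA M).Wins w c := by
  induction h using Relation.ReflTransGen.head_induction_on with
  | refl => exact AFA.Wins.final _ hc
  | head hs _ ih => exact AFA.Wins.some _ _ (Set.notMem_empty _) hs ih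

end FAA

theorem t_FAA : S_FAA := by
  intro α k M
  refine ⟨FAA.toAFA M, ?_⟩
  ext w
  constructor
  · intro h
    exact FAA.of_wins M w _ h
  · rintro ⟨c, h1, h2⟩
    exact FAA.wins_of M w _ c h1 h2

end Pool.Agent.AFH
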