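import Pool.Agent.AFH.P_FDC

/-!
Module FDA: the node where the node `v i` was justified is found.
-/

set_option autoImplicit false

namespace Pool.Agent.AFH

open Pool.Agent.Heads

namespace FDA

variable {α : Type} {k : ℕ} {S : LS α k} {w : List α} (l : S.Listing w)

open FDC

/-! ### steps -/

theorem step_full {c : S.Node} {q : S.Q} {n : Fin (VM k)} {y p : Fin k → ℕ}
    {T : Set (S.Q × (Fin k → Dir))} {m : Fin S.M} {stk : List (Frm S.Q k S.M × (Fin k → ℕ))}
    (h1 : S.full c.1 T (q, vec k n)) (h2 : S.num (c.1, opv (vec k n)) = m) :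
    S.fm.Stp w ⟨Lab.pro q n, y, (Frm.A c.1 T, p) :: stk⟩
      ⟨Lab.scan q m.succ, y, (Frm.B c.1, p) :: stk⟩ := by
  have h3 : S.fm.ins w ⟨Lab.pro q n, y, (Frm.A c.1 T, p) :: stk⟩ =
      Ins.rel (Frm.B c.1) (Lab.scan q m.succ) := by
    show S.prog (Lab.pro q n) (fun i => tape w (y i)) (some (Frm.A c.1 T)) = _
    unfold LS.prog
    simp only
    have h4 : S.num (c.1, opv (vec k n)) < S.M := by rw [h2]; exact m.2
    rw [if_pos h1, dif_pos h4]
    have h5 : (⟨S.num (c.1, opv (vec k n)) + 1, Nat.succ_lt_succ h4⟩ : Fin (S.M + 1)) = m.succ := by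
      apply Fin.ext
      simp [h2]
    rw [h5]
  unfold FM.Stp
  rw [h3]
  rfl

theorem step_not {c : S.Node} {q : S.Q} {n : Fin (VM k)} {y p : Fin k → ℕ}
    {T : Set (S.Q × (Fin k → Dir))} {stk : List (Frm S.Q k S.M × (Fin k → ℕ))}
    (h1 : ¬ S.full c.1 T (q, vec k n)) :
    S.fm.Stp w ⟨Lab.pro q n, y, (Frm.A c.1 T, p) :: stk⟩
      ⟨Lab.next q, y, (Frm.A c.1 (S.cut c.1 T (q, vec k n)), p) :: stk⟩ := by
  have h3 : S.fm.ins w ⟨Lab.pro q n, y, (Frm.A c.1 T, p) :: stk⟩ =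
      Ins.rel (Frm.A c.1 (S.cut c.1 T (q, vec k n))) (Lab.next q) := by
    show S.prog (Lab.pro q n) (fun i => tape w (y i)) (some (Frm.A c.1 T)) = _
    unfold LS.prog
    simp only
    rw [if_neg h1]
  unfold FM.Stp
  rw [h3]
  rfl

theorem step_ret {c : S.Node} {q : S.Q} {y p : Fin k → ℕ}
    {T : Set (S.Q × (Fin k → Dir))} {stk : List (Frm S.Q k S.M × (Fin k → ℕ))} :
    S.fm.Stp w ⟨Lab.ret q, y, (Frm.A c.1 T, p) :: stk⟩
      ⟨Lab.fnd q 0, y, (Frm.A c.1 T, p) :: stk⟩ := by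
  have h3 : S.fm.ins w ⟨Lab.ret q, y, (Frm.A c.1 T, p) :: stk⟩ = Ins.go Stay (Lab.fnd q 0) := by
    show S.prog (Lab.ret q) (fun i => tape w (y i)) (some (Frm.A c.1 T)) = _
    unfold LS.prog
    rfl
  unfold FM.Stp
  rw [h3]
  rfl

/-! ### the loop -/

theorem loop (hREL : S_REL) {i j : ℕ} {m : Fin S.M} (stk : List (Frm S.Q k S.M × (Fin k → ℕ)))
    (hi : i < l.R) (hji : j < i) (hc : S.Cand w (l.v j) m (l.v i))
    (hnew : S.New w (Bef l j) (l.v j) (l.v i)) (hN : ∀ a < i, NextOK S w l a) :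
    ∀ d a : ℕ, a + d = j →
      S.fm.Run w ⟨Lab.fnd (l.v a).1 0, (l.v a).2,
        (Frm.A (l.v i).1 (Rest l (l.v i) a), (l.v i).2) :: stk⟩
        ⟨Lab.scan (l.v j).1 m.succ, (l.v j).2, (Frm.B (l.v i).1, (l.v i).2) :: stk⟩ := by
  have hbc := l.bd i hi
  intro d
  induction d with
  | zero =>
    intro a ha
    obtain rfl : a = j := by omega
    have hbv := l.bd a (hji.trans hi)
    obtain ⟨hb1, hb2, hb3⟩ := hc.back hbv
    obtain ⟨n, hn1⟩ := vec_surj (opv (S.off m).2)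
    have hOk : Ok (w.length + 1) (l.v i).2 (vec k n) := by rw [hn1]; exact hb1
    have hy : (l.v a).2 = mvs (w.length + 1) (l.v i).2 (vec k n) := by rw [hn1]; exact hb2
    have hrun := (hREL S w (l.v a).1 (l.v a).2 (l.v i).2 (Frm.A (l.v i).1 (Rest l (l.v i) a)) stk
      hbv hbc).1 n hOk hy
    have hfull := full_iff l hOk hy hnew.2
    have h1 : S.Just w (l.v i) (Bef l (a + 1)) := by
      rw [bef_succ]
      exact hnew.1
    have h2 : S.num ((l.v i).1, opv (vec k n)) = m := by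
      rw [hn1, opv_opv, hb3]
      exact S.num_off m.2
    exact hrun.trans (FM.Run.head (step_full (hfull.2 h1) h2) (FM.Run.refl _))
  | succ d ih =>
    intro a ha
    have haj : a < j := by omega
    have haR : a < l.R := by omega
    have hba := l.bd a haR
    have hn : ¬ S.Just w (l.v i) (Bef l a) := fun h => hnew.2 (h.mono (bef_mono l haj.le))
    have hJ : ¬ S.Just w (l.v i) (Bef l (a + 1)) := fun h => hnew.2 (h.mono (bef_mono l haj))
    have key : 
        S.fm.Run w ⟨Lab.fnd (l.v a).1 0, (l.v a).2,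
          (Frm.A (l.v i).1 (Rest l (l.v i) a), (l.v i).2) :: stk⟩
          ⟨Lab.next (l.v a).1, (l.v a).2,
            (Frm.A (l.v i).1 (Rest l (l.v i) (a + 1)), (l.v i).2) :: stk⟩ →
        S.fm.Run w ⟨Lab.fnd (l.v a).1 0, (l.v a).2,
          (Frm.A (l.v i).1 (Rest l (l.v i) a), (l.v i).2) :: stk⟩
          ⟨Lab.scan (l.v j).1 m.succ, (l.v j).2, (Frm.B (l.v i).1, (l.v i).2) :: stk⟩ := by
      intro h2
      have h3 := (hN a (haj.trans hji)
        ((Frm.A (l.v i).1 (Rest l (l.v i) (a + 1)), (l.v i).2) :: stk)).1 (by omega)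
      have h4 := (h2.trans h3).trans (FM.Run.head step_ret (FM.Run.refl _))
      exact h4.trans (ih (a + 1) (by omega))
    by_cases hnear : ∃ v : Fin k → Dir, Ok (w.length + 1) (l.v i).2 v ∧
        (l.v a).2 = mvs (w.length + 1) (l.v i).2 v
    · obtain ⟨v, hv1, hv2⟩ := hnear
      obtain ⟨n, rfl⟩ := vec_surj v
      have hrun := (hREL S w (l.v a).1 (l.v a).2 (l.v i).2
        (Frm.A (l.v i).1 (Rest l (l.v i) a)) stk hba hbc).1 n hv1 hv2
      have hfull := full_iff l hv1 hv2 hn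
      refine key (hrun.trans ?_)
      have h1 := step_not (w := w) (y := (l.v a).2) (p := (l.v i).2) (stk := stk)
        (fun h' => hJ (hfull.1 h'))
      rw [rest_succ l hv1 hv2] at h1
      exact FM.Run.head h1 (FM.Run.refl _)
    · push Not at hnear
      have hrun := (hREL S w (l.v a).1 (l.v a).2 (l.v i).2
        (Frm.A (l.v i).1 (Rest l (l.v i) a)) stk hba hbc).2 hnear
      refine key ?_
      rw [← rest_far l hnear]
      exact hrun

end FDA

theorem t_FDA (hREL : S_REL) : S_FDA := by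
  intro α k S w l i j m stk _ hi hji hc hnew hN
  have h1 := FDA.loop l hREL stk hi hji hc hnew hN j 0 (by omega)
  rw [FDC.rest_zero, l.v_zero] at h1
  exact h1

end Pool.Agent.AFH
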