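import Pool.Agent.AFH.St
import Pool.Agent.AFH.Bas

/-!
Module FDC: the candidate number `m` at the node `v j` is examined.
-/

set_option autoImplicit false

namespace Pool.Agent.AFH

open Pool.Agent.Heads

namespace FDC

variable {α : Type} {k : ℕ} {S : LS α k} {w : List α} (l : S.Listing w)

/-- The nodes before `v a`. -/
def Bef (a : ℕ) : Set S.Node := {d | ∃ b < a, l.v b = d}

/-- The targets which have not been met before `v a`. -/
def Rest (c : S.Node) (a : ℕ) : Set (S.Q × (Fin k → Dir)) :=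
  {t | t ∈ S.tr w c ∧ (c.1 ∈ S.uni → S.tgt w c t ∉ Bef l a)}

theorem bef_zero : Bef l 0 = ∅ := by
  ext d
  simp [Bef]

theorem bef_succ (a : ℕ) : Bef l (a + 1) = insert (l.v a) (Bef l a) := by
  ext d
  simp only [Bef, Set.mem_ofPred_eq, Set.mem_insert_iff]
  constructor
  · rintro ⟨b, hb, rfl⟩
    rcases Nat.lt_succ_iff_lt_or_eq.1 hb with h | h
    · exact Or.inr ⟨b, h, rfl⟩
    · exact Or.inl (by rw [h])
  · rintro (rfl | ⟨b, hb, rfl⟩)
    · exact ⟨a, Nat.lt_succ_self a, rfl⟩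
    · exact ⟨b, Nat.lt_succ_of_lt hb, rfl⟩

theorem bef_mono {a b : ℕ} (h : a ≤ b) : Bef l a ⊆ Bef l b := by
  rintro d ⟨e, he, rfl⟩
  exact ⟨e, he.trans_le h, rfl⟩

theorem rest_zero (c : S.Node) : Rest l c 0 = S.tr w c := by
  ext t
  simp [Rest, bef_zero]

/-- The target number `n` is `v a`. -/
theorem tgt_eq {c : S.Node} {a : ℕ} {v : Fin k → Dir} (hOk : Ok (w.length + 1) c.2 v)
    (hy : (l.v a).2 = mvs (w.length + 1) c.2 v) {t : S.Q × (Fin k → Dir)} (ht : t ∈ S.tr w c) :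
    S.tgt w c t = l.v a ↔ t = ((l.v a).1, v) := by
  constructor
  · intro h
    have h1 : t.1 = (l.v a).1 := congrArg Prod.fst h
    have h2 : mvs (w.length + 1) c.2 t.2 = mvs (w.length + 1) c.2 v :=
      (congrArg Prod.snd h).trans hy
    exact Prod.ext h1 (mvs_inj (LS.ok_tr ht) hOk h2)
  · rintro rfl
    exact Prod.ext rfl hy.symm

theorem rest_succ {c : S.Node} {a : ℕ} {v : Fin k → Dir} (hOk : Ok (w.length + 1) c.2 v)
    (hy : (l.v a).2 = mvs (w.length + 1) c.2 v) :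
    S.cut c.1 (Rest l c a) ((l.v a).1, v) = Rest l c (a + 1) := by
  unfold LS.cut
  ext t
  by_cases hu : c.1 ∈ S.uni
  · rw [if_pos hu]
    simp only [Rest, Set.mem_sdiff, Set.mem_ofPred_eq, Set.mem_singleton_iff, bef_succ,
      Set.mem_insert_iff, not_or]
    constructor
    · rintro ⟨⟨h1, h2⟩, h3⟩
      exact ⟨h1, fun _ => ⟨fun h => h3 ((tgt_eq l hOk hy h1).1 h), h2 hu⟩⟩
    · rintro ⟨h1, h2⟩
      exact ⟨⟨h1, fun _ => (h2 hu).2⟩, fun h => (h2 hu).1 ((tgt_eq l hOk hy h1).2 h)⟩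
  · rw [if_neg hu]
    simp only [Rest, Set.mem_ofPred_eq]
    exact and_congr_right fun _ => ⟨fun _ h => absurd h hu, fun _ h => absurd h hu⟩

theorem rest_far {c : S.Node} {a : ℕ}
    (hf : ∀ v : Fin k → Dir, Ok (w.length + 1) c.2 v → (l.v a).2 ≠ mvs (w.length + 1) c.2 v) :
    Rest l c a = Rest l c (a + 1) := by
  ext t
  simp only [Rest, Set.mem_ofPred_eq, bef_succ, Set.mem_insert_iff, not_or]
  refine and_congr_right fun h1 => ⟨fun h2 h3 => ⟨fun h4 => ?_, h2 h3⟩, fun h2 h3 => (h2 h3).2⟩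
  exact hf t.2 (LS.ok_tr h1) (congrArg Prod.snd h4).symm

theorem just_far {c : S.Node} {a : ℕ}
    (hf : ∀ v : Fin k → Dir, Ok (w.length + 1) c.2 v → (l.v a).2 ≠ mvs (w.length + 1) c.2 v)
    (h : S.Just w c (Bef l (a + 1))) : S.Just w c (Bef l a) := by
  have h0 : ∀ t ∈ S.tr w c, S.tgt w c t ∈ Bef l (a + 1) → S.tgt w c t ∈ Bef l a := by
    intro t ht h1
    rw [bef_succ] at h1
    rcases h1 with h1 | h1
    · exact absurd (congrArg Prod.snd h1).symm (hf t.2 (LS.ok_tr ht))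
    · exact h1
  rcases h with ⟨h1, h2, h3⟩ | ⟨h1, t, h2, h3⟩
  · exact Or.inl ⟨h1, h2, fun t ht => h0 t ht (h3 t ht)⟩
  · exact Or.inr ⟨h1, t, h2, h0 t h2 h3⟩

theorem full_iff {c : S.Node} {a : ℕ} {v : Fin k → Dir} (hOk : Ok (w.length + 1) c.2 v)
    (hy : (l.v a).2 = mvs (w.length + 1) c.2 v) (hn : ¬ S.Just w c (Bef l a)) :
    S.full c.1 (Rest l c a) ((l.v a).1, v) ↔ S.Just w c (Bef l (a + 1)) := by
  rw [bef_succ]
  constructor
  · rintro ⟨h1, h2⟩
    have h3 : S.tgt w c ((l.v a).1, v) = l.v a := (tgt_eq l hOk hy h1.1).2 rfl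
    by_cases hu : c.1 ∈ S.uni
    · refine Or.inl ⟨hu, ⟨_, h1.1⟩, fun t ht => ?_⟩
      by_cases h4 : S.tgt w c t ∈ Bef l a
      · exact Or.inr h4
      · left
        have h5 : t = ((l.v a).1, v) := by
          by_contra h6
          have h7 : t ∈ Rest l c a \ {((l.v a).1, v)} := ⟨⟨ht, fun _ => h4⟩, h6⟩
          rw [h2 hu] at h7
          exact h7
        exact (tgt_eq l hOk hy ht).2 h5
    · exact Or.inr ⟨hu, _, h1.1, Or.inl h3⟩
  · rintro (⟨hu, h2, h3⟩ | ⟨hu, t, h2, h3⟩)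
    · have h4 : ∃ t ∈ S.tr w c, S.tgt w c t ∉ Bef l a := by
        by_contra h5
        push Not at h5
        exact hn (Or.inl ⟨hu, h2, h5⟩)
      obtain ⟨t, ht, h5⟩ := h4
      have h6 : t = ((l.v a).1, v) := by
        rcases h3 t ht with h6 | h6
        · exact (tgt_eq l hOk hy ht).1 h6
        · exact absurd h6 h5
      subst h6
      refine ⟨⟨ht, fun _ => h5⟩, fun _ => ?_⟩
      ext t
      simp only [Set.mem_sdiff, Set.mem_singleton_iff, Set.mem_empty_iff_false, iff_false, not_and,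
        not_not]
      rintro ⟨h7, h8⟩
      rcases h3 t h7 with h9 | h9
      · exact (tgt_eq l hOk hy h7).1 h9
      · exact absurd h9 (h8 hu)
    · have h4 : S.tgt w c t ∉ Bef l a := fun h => hn (Or.inr ⟨hu, t, h2, h⟩)
      have h5 : t = ((l.v a).1, v) := (tgt_eq l hOk hy h2).1 (h3.resolve_right h4)
      subst h5
      exact ⟨⟨h2, fun _ => h4⟩, fun h => absurd h hu⟩

/-! ### steps -/

theorem step_full {c : S.Node} {q s : S.Q} {n : Fin (VM k)} {y p : Fin k → ℕ}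
    {T : Set (S.Q × (Fin k → Dir))} {m : Fin S.M} {stk : List (Frm S.Q k S.M × (Fin k → ℕ))}
    (h1 : S.full c.1 T (q, vec k n)) (h2 : q = s ∧ vec k n = opv (S.off m).2) :
    S.fm.Stp w ⟨Lab.pro q n, y, (Frm.C c.1 T s m, p) :: stk⟩
      ⟨Lab.new1 m, y, (Frm.C c.1 T s m, p) :: stk⟩ := by
  have h3 : S.fm.ins w ⟨Lab.pro q n, y, (Frm.C c.1 T s m, p) :: stk⟩ = Ins.go Stay (Lab.new1 m) := by
    show S.prog (Lab.pro q n) (fun i => tape w (y i)) (some (Frm.C c.1 T s m)) = _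
    unfold LS.prog
    simp only
    rw [if_pos h1, if_pos h2]
    rfl
  unfold FM.Stp
  rw [h3]
  rfl

theorem step_full' {c : S.Node} {q s : S.Q} {n : Fin (VM k)} {y p : Fin k → ℕ}
    {T : Set (S.Q × (Fin k → Dir))} {m : Fin S.M} {stk : List (Frm S.Q k S.M × (Fin k → ℕ))}
    (h1 : S.full c.1 T (q, vec k n)) (h2 : ¬ (q = s ∧ vec k n = opv (S.off m).2)) :
    S.fm.Stp w ⟨Lab.pro q n, y, (Frm.C c.1 T s m, p) :: stk⟩ ⟨Lab.old s m, p, stk⟩ := by
  have h3 : S.fm.ins w ⟨Lab.pro q n, y, (Frm.C c.1 T s m, p) :: stk⟩ = Ins.pop (Lab.old s m) := by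
    show S.prog (Lab.pro q n) (fun i => tape w (y i)) (some (Frm.C c.1 T s m)) = _
    unfold LS.prog
    simp only
    rw [if_pos h1, if_neg h2]
    rfl
  unfold FM.Stp
  rw [h3]
  rfl

theorem step_not {c : S.Node} {q s : S.Q} {n : Fin (VM k)} {y p : Fin k → ℕ}
    {T : Set (S.Q × (Fin k → Dir))} {m : Fin S.M} {stk : List (Frm S.Q k S.M × (Fin k → ℕ))}
    (h1 : ¬ S.full c.1 T (q, vec k n)) (h2 : q = s ∧ vec k n = opv (S.off m).2) :
    S.fm.Stp w ⟨Lab.pro q n, y, (Frm.C c.1 T s m, p) :: stk⟩ ⟨Lab.old s m, p, stk⟩ := by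
  have h3 : S.fm.ins w ⟨Lab.pro q n, y, (Frm.C c.1 T s m, p) :: stk⟩ = Ins.pop (Lab.old s m) := by
    show S.prog (Lab.pro q n) (fun i => tape w (y i)) (some (Frm.C c.1 T s m)) = _
    unfold LS.prog
    simp only
    rw [if_neg h1, if_pos h2]
    rfl
  unfold FM.Stp
  rw [h3]
  rfl

theorem step_not' {c : S.Node} {q s : S.Q} {n : Fin (VM k)} {y p : Fin k → ℕ}
    {T : Set (S.Q × (Fin k → Dir))} {m : Fin S.M} {stk : List (Frm S.Q k S.M × (Fin k → ℕ))}
    (h1 : ¬ S.full c.1 T (q, vec k n)) (h2 : ¬ (q = s ∧ vec k n = opv (S.off m).2)) :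
    S.fm.Stp w ⟨Lab.pro q n, y, (Frm.C c.1 T s m, p) :: stk⟩
      ⟨Lab.next q, y, (Frm.C c.1 (S.cut c.1 T (q, vec k n)) s m, p) :: stk⟩ := by
  have h3 : S.fm.ins w ⟨Lab.pro q n, y, (Frm.C c.1 T s m, p) :: stk⟩ =
      Ins.rel (Frm.C c.1 (S.cut c.1 T (q, vec k n)) s m) (Lab.next q) := by
    show S.prog (Lab.pro q n) (fun i => tape w (y i)) (some (Frm.C c.1 T s m)) = _
    unfold LS.prog
    simp only
    rw [if_neg h1, if_neg h2]
  unfold FM.Stp
  rw [h3]
  rfl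

theorem step_ret {c : S.Node} {q s : S.Q} {y p : Fin k → ℕ}
    {T : Set (S.Q × (Fin k → Dir))} {m : Fin S.M} {stk : List (Frm S.Q k S.M × (Fin k → ℕ))} :
    S.fm.Stp w ⟨Lab.ret q, y, (Frm.C c.1 T s m, p) :: stk⟩
      ⟨Lab.fnd q 0, y, (Frm.C c.1 T s m, p) :: stk⟩ := by
  have h3 : S.fm.ins w ⟨Lab.ret q, y, (Frm.C c.1 T s m, p) :: stk⟩ = Ins.go Stay (Lab.fnd q 0) := by
    show S.prog (Lab.ret q) (fun i => tape w (y i)) (some (Frm.C c.1 T s m)) = _
    unfold LS.prog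
    rfl
  unfold FM.Stp
  rw [h3]
  rfl

/-! ### the loop -/

theorem loop (hREL : S_REL) {j : ℕ} {m : Fin S.M} {c : S.Node}
    (stk : List (Frm S.Q k S.M × (Fin k → ℕ))) (hj : j < l.R) (hc : S.Cand w (l.v j) m c)
    (hN : ∀ a < j, NextOK S w l a) : ∀ d a : ℕ, a + d = j → ¬ S.Just w c (Bef l a) →
    (S.New w (Bef l j) (l.v j) c → ∃ f,
      S.fm.Run w ⟨Lab.fnd (l.v a).1 0, (l.v a).2,
        (Frm.C c.1 (Rest l c a) (l.v j).1 m, c.2) :: stk⟩ ⟨Lab.new1 m, (l.v j).2, f :: stk⟩) ∧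
    (¬ S.New w (Bef l j) (l.v j) c →
      S.fm.Run w ⟨Lab.fnd (l.v a).1 0, (l.v a).2,
        (Frm.C c.1 (Rest l c a) (l.v j).1 m, c.2) :: stk⟩ ⟨Lab.old (l.v j).1 m, c.2, stk⟩) := by
  intro d
  induction d with
  | zero =>
    intro a ha hn
    obtain rfl : a = j := by omega
    have hbv := l.bd a hj
    have hbc : S.Bd w c := hc.bd hbv
    obtain ⟨hb1, hb2, hb3⟩ := hc.back hbv
    obtain ⟨n, hn1⟩ := vec_surj (opv (S.off m).2)
    have hOk : Ok (w.length + 1) c.2 (vec k n) := by rw [hn1]; exact hb1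
    have hy : (l.v a).2 = mvs (w.length + 1) c.2 (vec k n) := by rw [hn1]; exact hb2
    have hrun := (hREL S w (l.v a).1 (l.v a).2 c.2 (Frm.C c.1 (Rest l c a) (l.v a).1 m) stk
      hbv hbc).1 n hOk hy
    have hfull := full_iff l hOk hy hn
    have hnew : S.New w (Bef l a) (l.v a) c ↔ S.Just w c (Bef l (a + 1)) := by
      rw [bef_succ]
      exact ⟨fun h => h.1, fun h => ⟨h, hn⟩⟩
    constructor
    · intro h
      exact ⟨_, hrun.trans (FM.Run.head (step_full (hfull.2 (hnew.1 h)) ⟨rfl, hn1⟩)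
        (FM.Run.refl _))⟩
    · intro h
      exact hrun.trans (FM.Run.head (step_not (fun h' => h (hnew.2 (hfull.1 h'))) ⟨rfl, hn1⟩)
        (FM.Run.refl _))
  | succ d ih =>
    intro a ha hn
    have haj : a < j := by omega
    have haR : a < l.R := by omega
    have hbv := l.bd j hj
    have hbc : S.Bd w c := hc.bd hbv
    have hba := l.bd a haR
    have key : ¬ S.Just w c (Bef l (a + 1)) →
        S.fm.Run w ⟨Lab.fnd (l.v a).1 0, (l.v a).2,
          (Frm.C c.1 (Rest l c a) (l.v j).1 m, c.2) :: stk⟩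
          ⟨Lab.next (l.v a).1, (l.v a).2,
            (Frm.C c.1 (Rest l c (a + 1)) (l.v j).1 m, c.2) :: stk⟩ →
      (S.New w (Bef l j) (l.v j) c → ∃ f,
        S.fm.Run w ⟨Lab.fnd (l.v a).1 0, (l.v a).2,
          (Frm.C c.1 (Rest l c a) (l.v j).1 m, c.2) :: stk⟩ ⟨Lab.new1 m, (l.v j).2, f :: stk⟩) ∧
      (¬ S.New w (Bef l j) (l.v j) c →
        S.fm.Run w ⟨Lab.fnd (l.v a).1 0, (l.v a).2,
          (Frm.C c.1 (Rest l c a) (l.v j).1 m, c.2) :: stk⟩ ⟨Lab.old (l.v j).1 m, c.2, stk⟩) := by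
      intro h1 h2
      have h3 := (hN a haj ((Frm.C c.1 (Rest l c (a + 1)) (l.v j).1 m, c.2) :: stk)).1 (by omega)
      have h4 := (h2.trans h3).trans (FM.Run.head step_ret (FM.Run.refl _))
      obtain ⟨h5, h6⟩ := ih (a + 1) (by omega) h1
      constructor
      · intro h
        obtain ⟨f, h7⟩ := h5 h
        exact ⟨f, h4.trans h7⟩
      · intro h
        exact h4.trans (h6 h)
    by_cases hnear : ∃ v : Fin k → Dir, Ok (w.length + 1) c.2 v ∧
        (l.v a).2 = mvs (w.length + 1) c.2 v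
    · obtain ⟨v, hv1, hv2⟩ := hnear
      obtain ⟨n, rfl⟩ := vec_surj v
      have hrun := (hREL S w (l.v a).1 (l.v a).2 c.2 (Frm.C c.1 (Rest l c a) (l.v j).1 m) stk
        hba hbc).1 n hv1 hv2
      have hfull := full_iff l hv1 hv2 hn
      have hne : ¬ ((l.v a).1 = (l.v j).1 ∧ vec k n = opv (S.off m).2) := by
        rintro ⟨h1, h2⟩
        obtain ⟨hb1, hb2, hb3⟩ := hc.back hbv
        rw [h2, ← hb2] at hv2
        have h3 := l.inj a haR j hj (Prod.ext h1 hv2)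
        omega
      by_cases hJ : S.Just w c (Bef l (a + 1))
      · have hnot : ¬ S.New w (Bef l j) (l.v j) c := fun h => h.2 (hJ.mono (bef_mono l haj))
        refine ⟨fun h => absurd h hnot, fun _ => ?_⟩
        exact hrun.trans (FM.Run.head (step_full' (hfull.2 hJ) hne) (FM.Run.refl _))
      · refine key hJ (hrun.trans ?_)
        have h1 := step_not' (w := w) (y := (l.v a).2) (p := c.2) (stk := stk)
          (fun h' => hJ (hfull.1 h')) hne
        rw [rest_succ l hv1 hv2] at h1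
        exact FM.Run.head h1 (FM.Run.refl _)
    · push Not at hnear
      have hrun := (hREL S w (l.v a).1 (l.v a).2 c.2 (Frm.C c.1 (Rest l c a) (l.v j).1 m) stk
        hba hbc).2 hnear
      refine key (fun h => hn (just_far l hnear h)) ?_
      rw [← rest_far l hnear]
      exact hrun

end FDC

theorem t_FDC (hREL : S_REL) : S_FDC := by
  intro α k S w l j m c stk hj hc hN
  have h1 := FDC.loop l hREL stk hj hc hN j 0 (by omega)
    (by rw [FDC.bef_zero]; exact LS.not_just_empty)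
  rw [FDC.rest_zero, l.v_zero] at h1
  exact h1

end Pool.Agent.AFH
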