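import Pool.Agent.AFH.St
import Pool.Agent.AFH.Bas

/-!
# LCL: closure of the canonical list
-/

set_option autoImplicit false

namespace Pool.Agent.AFH

open Pool.Agent.Heads

namespace LCL

variable {α : Type} {k : ℕ} (S : LS α k) (w : List α)

lemma mem_ext {D : Set S.Node} {s c : S.Node} {m : ℕ} (hc : S.Cand w s m c) (hn : S.New w D s c)
    (m' : ℕ) (h : m < m') : c ∈ S.ext w D s m' := by
  induction m' with
  | zero => omega
  | succ m' ih =>
    rw [LS.ext, List.mem_append]
    rcases Nat.lt_succ_iff_lt_or_eq.mp h with h1 | rfl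
    · exact Or.inl (ih h1)
    · right
      rw [if_pos ⟨c, hc, hn⟩, List.mem_singleton]
      exact hc.2.2

lemma lst_succ {j : ℕ} {s : S.Node} (h : (S.lst w j)[j]? = some s) :
    S.lst w (j + 1) = S.lst w j ++ S.ext w {d | d ∈ (S.lst w j).take j} s S.M := by
  rw [LS.lst, h]

lemma take_eq {A B : List S.Node} (h : A <+: B) {j : ℕ} (hj : j ≤ A.length) :
    A.take j = B.take j := by
  obtain ⟨C, rfl⟩ := h
  rw [List.take_append_of_le_length hj]

lemma get_eq {A B : List S.Node} (h : A <+: B) {j : ℕ} (hj : j < A.length) :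
    A[j]? = B[j]? := by
  obtain ⟨C, rfl⟩ := h
  rw [List.getElem?_append_left hj]

/-- the set of the first members grows by one -/
lemma take_insert (L : List S.Node) {j : ℕ} {s : S.Node} (hs : L[j]? = some s) :
    {d | d ∈ L.take (j + 1)} = insert s {d | d ∈ L.take j} := by
  ext d
  rw [List.take_add_one, hs]
  simp only [Option.toList_some, List.mem_append, List.mem_singleton, Set.mem_setOf_eq,
    Set.mem_insert_iff]
  exact or_comm

lemma exists_tgt {c s : S.Node} {D : Set S.Node} (h : S.Just w c (insert s D))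
    (h' : ¬ S.Just w c D) : ∃ t ∈ S.tr w c, S.tgt w c t = s := by
  by_contra hcon
  push Not at hcon
  apply h'
  rcases h with ⟨h1, h2, h3⟩ | ⟨h1, t, h2, h3⟩
  · refine Or.inl ⟨h1, h2, fun t ht => ?_⟩
    rcases h3 t ht with h4 | h4
    · exact absurd h4 (hcon t ht)
    · exact h4
  · refine Or.inr ⟨h1, t, h2, ?_⟩
    rcases h3 with h4 | h4
    · exact absurd h4 (hcon t h2)
    · exact h4

end LCL

open LCL in
/-- LCL. -/
theorem t_LCL (hLPR : S_LPR) : S_LCL := by
  intro α k S w R hR hlen c D hb hD hJ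
  have hjust : S.Just w c {d | d ∈ (S.lst w R).take R} := by
    refine hJ.mono fun d hd => ?_
    change d ∈ (S.lst w R).take R
    rw [List.take_of_length_le hlen.le]
    exact hD d hd
  classical
  have hex : ∃ j, S.Just w c {d | d ∈ (S.lst w R).take j} := ⟨R, hjust⟩
  have h1 := Nat.find_spec hex
  have h2 : ∀ j, j < Nat.find hex → ¬ S.Just w c {d | d ∈ (S.lst w R).take j} :=
    fun j hj => Nat.find_min hex hj
  have h3 : Nat.find hex ≤ R := Nat.find_min' hex hjust
  generalize Nat.find hex = n at h1 h2 h3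
  cases n with
  | zero =>
    exfalso
    have h4 : {d | d ∈ (S.lst w R).take 0} = (∅ : Set S.Node) := by
      ext d
      simp
    rw [h4] at h1
    exact LS.not_just_empty h1
  | succ j =>
    have hj : j < R := h3
    have h4 := h2 j (Nat.lt_succ_self j)
    have hjl : j < (S.lst w R).length := by rw [hlen]; exact hj
    obtain ⟨s, hs⟩ : ∃ s, (S.lst w R)[j]? = some s := ⟨_, List.getElem?_eq_getElem hjl⟩
    rw [take_insert S _ hs] at h1
    obtain ⟨t, ht, hts⟩ := exists_tgt S w h1 h4
    obtain ⟨m, hm, -⟩ := LS.cand_of_tgt hb ht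
    rw [hts] at hm
    have hp := hLPR S w j R hj.le
    have h5 : (S.lst w j)[j]? = some s := by rw [get_eq S hp (hR j hj), hs]
    have h6 : (S.lst w j).take j = (S.lst w R).take j := take_eq S hp (hR j hj).le
    have h7 : c ∈ S.lst w (j + 1) := by
      rw [lst_succ S w h5, List.mem_append]
      right
      rw [h6]
      exact mem_ext S w hm ⟨h1, h4⟩ S.M hm.1
    exact (hLPR S w (j + 1) R h3).subset h7

end Pool.Agent.AFH
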