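import Pool.Agent.AFH.St

/-!
# LFI: the number of the members of the canonical list
-/

set_option autoImplicit false

namespace Pool.Agent.AFH

open Pool.Agent.Heads

namespace LFI

variable {α : Type} {k : ℕ} (S : LS α k) (w : List α)

lemma finite_bd : {c : S.Node | S.Bd w c}.Finite := by
  have := S.finQ
  have h1 : {p : Fin k → ℕ | ∀ i, p i ∈ Set.Iic (w.length + 1)}.Finite :=
    Set.Finite.pi' fun _ => Set.finite_Iic _
  have h2 : ((Set.univ : Set S.Q) ×ˢ {p : Fin k → ℕ | ∀ i, p i ∈ Set.Iic (w.length + 1)}).Finite :=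
    Set.finite_univ.prod h1
  refine h2.subset ?_
  intro c hc
  exact ⟨trivial, hc⟩

lemma length_le (hLND : S_LND) (j : ℕ) :
    (S.lst w j).length ≤ (finite_bd S w).toFinset.card := by
  classical
  obtain ⟨h1, h2⟩ := hLND S w j
  rw [← List.toFinset_card_of_nodup h1]
  apply Finset.card_le_card
  intro c hc
  rw [Set.Finite.mem_toFinset]
  exact (h2 c (List.mem_toFinset.1 hc)).2

end LFI

theorem t_LFI (hLPR : S_LPR) (hLND : S_LND) : S_LFI := by
  classical
  intro α k S w
  have hex : ∃ j, (S.lst w j).length ≤ j := ⟨_, LFI.length_le S w hLND _⟩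
  have h0 : Nat.find hex ≠ 0 := by
    intro h
    have h1 := Nat.find_spec hex
    rw [h] at h1
    simp [LS.lst] at h1
  have hlt : ∀ j < Nat.find hex, j < (S.lst w j).length := fun j hj =>
    not_le.1 (Nat.find_min hex hj)
  refine ⟨Nat.find hex, Nat.pos_of_ne_zero h0, hlt, le_antisymm (Nat.find_spec hex) ?_⟩
  obtain ⟨R, hR⟩ := Nat.exists_eq_succ_of_ne_zero h0
  have h1 := hlt R (by omega)
  have h2 := (hLPR S w R (Nat.find hex) (by omega)).length_le
  omega

end Pool.Agent.AFH
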