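import Pool.Agent.AFH.St
import Pool.Agent.AFH.Bas

/-!
# LND: the members of the canonical list are bounded and accepting, without repetitions
-/

set_option autoImplicit false

namespace Pool.Agent.AFH

open Pool.Agent.Heads

namespace LND

variable {α : Type} {k : ℕ} (S : LS α k) (w : List α)

variable {S w} in
lemma mem_ext {D : Set S.Node} {s c : S.Node} {m : ℕ} (h : c ∈ S.ext w D s m) :
    ∃ m' < m, S.Cand w s m' c ∧ S.New w D s c := by
  induction m with
  | zero => simp [LS.ext] at h
  | succ m ih =>
    rw [LS.ext, List.mem_append] at h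
    rcases h with h | h
    · obtain ⟨m', h1, h2⟩ := ih h
      exact ⟨m', by omega, h2⟩
    · split_ifs at h with hc
      · rw [List.mem_singleton] at h
        obtain ⟨c', h1, h2⟩ := hc
        have h3 : c = c' := h.trans h1.2.2.symm
        subst h3
        exact ⟨m, by omega, h1, h2⟩
      · simp at h

lemma nodup_ext (D : Set S.Node) (s : S.Node) (m : ℕ) : (S.ext w D s m).Nodup := by
  induction m with
  | zero => simp [LS.ext]
  | succ m ih =>
    rw [LS.ext, List.nodup_append]
    refine ⟨ih, ?_, ?_⟩
    · split_ifs
      · exact List.nodup_singleton _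
      · exact List.nodup_nil
    · intro a ha b hb hab
      subst hab
      split_ifs at hb with hc
      · rw [List.mem_singleton] at hb
        obtain ⟨c', h1, h2⟩ := hc
        have h3 : a = c' := hb.trans h1.2.2.symm
        subst h3
        obtain ⟨m', h4, h5, _⟩ := mem_ext ha
        have := LS.cand_inj h1 h5
        omega
      · simp at hb

lemma take_insert (L : List S.Node) {j : ℕ} {s : S.Node} (hs : L[j]? = some s) :
    {d | d ∈ L.take (j + 1)} = insert s {d | d ∈ L.take j} := by
  ext d
  rw [List.take_add_one, hs]
  simp only [Option.toList_some, List.mem_append, List.mem_singleton, Set.mem_setOf_eq,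
    Set.mem_insert_iff]
  exact or_comm

theorem main (j : ℕ) : (S.lst w j).Nodup ∧ (∀ c ∈ S.lst w j, S.Acc w c ∧ S.Bd w c) ∧
    ∀ c ∈ S.lst w j, c ≠ S.a0 → S.Just w c {d | d ∈ (S.lst w j).take j} := by
  induction j with
  | zero =>
    rw [LS.lst]
    refine ⟨List.nodup_singleton _, ?_, ?_⟩
    · intro c hc
      rw [List.mem_singleton] at hc
      subst hc
      exact ⟨LS.Acc.base, LS.bd_a0⟩
    · intro c hc h
      exact absurd (List.mem_singleton.1 hc) h
  | succ j ih =>
    obtain ⟨h1, h2, h3⟩ := ih
    rcases hs : (S.lst w j)[j]? with _ | s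
    · have h4 : S.lst w (j + 1) = S.lst w j := by rw [LS.lst, hs]
      rw [h4]
      refine ⟨h1, h2, fun c hc h => (h3 c hc h).mono ?_⟩
      intro d hd
      exact (List.take_subset_take_left _ (Nat.le_succ j)) hd
    · have h4 : S.lst w (j + 1) = S.lst w j ++ S.ext w {d | d ∈ (S.lst w j).take j} s S.M := by
        rw [LS.lst, hs]
      have hlen : j < (S.lst w j).length := by
        by_contra h
        rw [List.getElem?_eq_none (not_lt.1 h)] at hs
        cases hs
      have hsm : s ∈ S.lst w j := List.mem_of_getElem? hs
      have h5 : (S.lst w (j + 1)).take (j + 1) = (S.lst w j).take (j + 1) := by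
        rw [h4, List.take_append_of_le_length hlen]
      have h6 : {d | d ∈ (S.lst w (j + 1)).take (j + 1)} =
          insert s {d | d ∈ (S.lst w j).take j} := by
        rw [h5]
        exact take_insert S _ hs
      rw [h6, h4]
      have hD : ∀ d ∈ insert s {d | d ∈ (S.lst w j).take j}, d ∈ S.lst w j := by
        rintro d (rfl | hd)
        · exact hsm
        · exact List.mem_of_mem_take hd
      refine ⟨?_, ?_, ?_⟩
      · rw [List.nodup_append]
        refine ⟨h1, nodup_ext S w _ _ _, ?_⟩
        intro a ha b hb hab
        subst hab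
        obtain ⟨m', _, hc, hn⟩ := mem_ext hb
        by_cases h7 : a = S.a0
        · exact LS.not_just_q0 (by rw [h7]; rfl) hn.1
        · exact hn.2 (h3 a ha h7)
      · intro c hc
        rw [List.mem_append] at hc
        rcases hc with hc | hc
        · exact h2 c hc
        · obtain ⟨m', _, hc, hn⟩ := mem_ext hc
          have h8 : S.Bd w c := hc.bd (h2 s hsm).2
          exact ⟨LS.Acc.step c _ h8 (fun d hd => (h2 d (hD d hd)).1) hn.1, h8⟩
      · intro c hc h
        rw [List.mem_append] at hc
        rcases hc with hc | hc
        · exact (h3 c hc h).mono (Set.subset_insert _ _)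
        · obtain ⟨m', _, hc, hn⟩ := mem_ext hc
          exact hn.1

end LND

theorem t_LND (_ : S_LPR) : S_LND := by
  intro α k S w j
  obtain ⟨h1, h2, _⟩ := LND.main S w j
  exact ⟨h1, h2⟩

end Pool.Agent.AFH
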