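import Pool.Agent.AFH.St

/-!
# The canonical lists grow
-/

namespace Pool.Agent.AFH

theorem LPR.step {α : Type} {k : ℕ} (S : LS α k) (w : List α) (j : ℕ) :
    S.lst w j <+: S.lst w (j + 1) := by
  rw [LS.lst]
  split
  · exact List.prefix_refl _
  · exact List.prefix_append _ _

theorem t_LPR : S_LPR := by
  intro α k S w i j h
  induction h with
  | refl => exact List.prefix_refl _
  | step _ ih => exact ih.trans (LPR.step S w _)

end Pool.Agent.AFH
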