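import Pool.Agent.AFH.St
import Pool.Agent.AFH.Bas

/-!
LST: the canonical list exists.
-/

set_option autoImplicit false

namespace Pool.Agent.AFH

open Pool.Agent.Heads

namespace LST

variable {α : Type} {k : ℕ} (S : LS α k) (w : List α)

theorem ext_new {D : Set S.Node} {s : S.Node} {m : ℕ}
    (h : ∃ c, S.Cand w s m c ∧ S.New w D s c) :
    S.ext w D s (m + 1) =
      S.ext w D s m ++ [((S.off m).1, mvs (w.length + 1) s.2 (S.off m).2)] := by
  rw [LS.ext, if_pos h]

theorem ext_old {D : Set S.Node} {s : S.Node} {m : ℕ}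
    (h : ¬ ∃ c, S.Cand w s m c ∧ S.New w D s c) :
    S.ext w D s (m + 1) = S.ext w D s m := by
  rw [LS.ext, if_neg h, List.append_nil]

theorem ext_step (D : Set S.Node) (s : S.Node) (m : ℕ) :
    S.ext w D s m <+: S.ext w D s (m + 1) := by
  by_cases h : ∃ c, S.Cand w s m c ∧ S.New w D s c
  · rw [ext_new S w h]
    exact List.prefix_append _ _
  · rw [ext_old S w h]

theorem ext_mono (D : Set S.Node) (s : S.Node) {m m' : ℕ} (h : m ≤ m') :
    S.ext w D s m <+: S.ext w D s m' := by
  induction h with
  | refl => exact List.prefix_rfl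
  | step _ ih => exact ih.trans (ext_step S w D s _)

theorem ext_mem (D : Set S.Node) (s : S.Node) (i : ℕ) (c : S.Node) (m' : ℕ)
    (h : (S.ext w D s m')[i]? = some c) :
    ∃ m < m', S.Cand w s m c ∧ S.New w D s c ∧ (S.ext w D s m).length = i := by
  induction m' with
  | zero => simp [LS.ext] at h
  | succ m' ih =>
    by_cases hP : ∃ c, S.Cand w s m' c ∧ S.New w D s c
    · rw [ext_new S w hP] at h
      rcases lt_or_ge i (S.ext w D s m').length with h1 | h1
      · rw [List.getElem?_append_left h1] at h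
        obtain ⟨m, h2, h3⟩ := ih h
        exact ⟨m, h2.trans (Nat.lt_succ_self _), h3⟩
      · rw [List.getElem?_append_right h1] at h
        obtain ⟨c', hc1, hc2⟩ := hP
        rcases Nat.eq_zero_or_pos (i - (S.ext w D s m').length) with h2 | h2
        · rw [h2] at h
          have h3 : c' = c := by
            rw [hc1.2.2]
            simpa using h
          subst h3
          exact ⟨m', Nat.lt_succ_self _, hc1, hc2, by omega⟩
        · obtain ⟨n, hn⟩ := Nat.exists_eq_succ_of_ne_zero h2.ne'
          rw [hn] at h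
          simp at h
    · rw [ext_old S w hP] at h
      obtain ⟨m, h2, h3⟩ := ih h
      exact ⟨m, h2.trans (Nat.lt_succ_self _), h3⟩

theorem get_of_le {β : Type} {l l' : List β} (h : l <+: l') {i : ℕ} (hi : i < l.length) :
    l'[i]? = l[i]? := by
  obtain ⟨t, rfl⟩ := h
  exact List.getElem?_append_left hi

/-- the nodes -/
noncomputable def v (R i : ℕ) : S.Node := ((S.lst w R)[i]?).getD S.a0

/-- the positions -/
noncomputable def pos (R j m : ℕ) : ℕ := (S.lst w j).length +
  (S.ext w {d | d ∈ (S.lst w j).take j} (v S w R j) m).length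

section Main

variable (hLPR : S_LPR) {R : ℕ} (hR1 : ∀ j < R, j < (S.lst w j).length)
  (hR2 : (S.lst w R).length = R)

include hR2 in
theorem get_v {i : ℕ} (hi : i < R) : (S.lst w R)[i]? = some (v S w R i) := by
  unfold v
  rw [List.getElem?_eq_getElem (by omega)]
  rfl

include hLPR hR2 in
theorem get_j {i j : ℕ} (hj : j ≤ R) (hi : i < (S.lst w j).length) :
    (S.lst w j)[i]? = some (v S w R i) := by
  have h1 := hLPR S w j R hj
  rw [← get_of_le h1 hi, get_v S w hR2]
  have h2 := h1.length_le
  omega

include hLPR hR1 hR2 in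
theorem stage {j : ℕ} (hj : j < R) : S.lst w (j + 1) =
    S.lst w j ++ S.ext w {d | d ∈ (S.lst w j).take j} (v S w R j) S.M := by
  rw [LS.lst, get_j S w hLPR hR2 hj.le (hR1 j hj)]

include hLPR hR1 hR2 in
theorem set_eq {j : ℕ} (hj : j < R) : {d | d ∈ (S.lst w j).take j} =
    {d | ∃ a < j, v S w R a = d} := by
  ext d
  simp only [Set.mem_ofPred_eq]
  rw [List.mem_iff_getElem?]
  constructor
  · rintro ⟨a, ha⟩
    rw [List.getElem?_take] at ha
    split_ifs at ha with h1
    have h2 := hR1 j hj
    rw [get_j S w hLPR hR2 hj.le (by omega)] at ha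
    exact ⟨a, h1, Option.some.inj ha⟩
  · rintro ⟨a, ha, rfl⟩
    have h2 := hR1 j hj
    exact ⟨a, by rw [List.getElem?_take, if_pos ha, get_j S w hLPR hR2 hj.le (by omega)]⟩

include hLPR hR1 hR2 in
theorem par_aux (j' : ℕ) (hj' : j' ≤ R) : ∀ i, 0 < i → i < (S.lst w j').length →
    ∃ j m, j < R ∧ S.Cand w (v S w R j) m (v S w R i) ∧
      S.New w {d | ∃ a < j, v S w R a = d} (v S w R j) (v S w R i) ∧ pos S w R j m = i := by
  induction j' with
  | zero =>
    intro i hi hi2
    have h1 : (S.lst w 0).length = 1 := rfl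
    omega
  | succ j ih =>
    intro i hi hi2
    rcases lt_or_ge i (S.lst w j).length with h1 | h1
    · exact ih (by omega) i hi h1
    · have hjR : j < R := by omega
      have h2 := get_j S w hLPR hR2 hj' hi2
      rw [stage S w hLPR hR1 hR2 hjR, List.getElem?_append_right h1] at h2
      obtain ⟨m, _, h3, h4, h5⟩ := ext_mem S w _ _ _ _ _ h2
      rw [set_eq S w hLPR hR1 hR2 hjR] at h4
      refine ⟨j, m, hjR, h3, h4, ?_⟩
      unfold pos
      rw [h5]
      omega

end Main

end LST

open LST in
theorem t_LST (hLPR : S_LPR) (hLND : S_LND) (hLFI : S_LFI) (hLCL : S_LCL) : S_LST := by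
  intro α k S w
  obtain ⟨R, hR0, hR1, hR2⟩ := hLFI S w
  have hnd := (hLND S w R).1
  have hmem : ∀ c, c ∈ S.lst w R ↔ ∃ i < R, v S w R i = c := by
    intro c
    rw [List.mem_iff_getElem?]
    constructor
    · rintro ⟨i, hi⟩
      have h1 : i < R := by
        by_contra h2
        rw [List.getElem?_eq_none (by omega)] at hi
        cases hi
      rw [get_v S w hR2 h1] at hi
      exact ⟨i, h1, Option.some.inj hi⟩
    · rintro ⟨i, hi, rfl⟩
      exact ⟨i, get_v S w hR2 hi⟩
  have hv0 : v S w R 0 = S.a0 := by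
    have h1 := get_j S w hLPR hR2 (Nat.zero_le R) (i := 0) Nat.one_pos
    exact (Option.some.inj h1).symm
  refine ⟨{
    R := R
    v := v S w R
    pos := pos S w R
    R_pos := hR0
    v_zero := hv0
    inj := ?_
    bd := fun i hi => ((hLND S w R).2 _ ((hmem _).2 ⟨i, hi, rfl⟩)).2
    acc := ?_
    pos_zero := rfl
    pos_gt := fun j hj => (hR1 j hj).trans_le (Nat.le_add_right _ _)
    pos_stage := ?_
    pos_new := ?_
    pos_old := ?_
    par := ?_ }⟩
  · intro i hi j hj h
    have h1 := get_v S w hR2 hi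
    have h2 := get_v S w hR2 hj
    rw [← h, ← h1] at h2
    exact (List.getElem?_inj (by rw [hR2]; exact hi) hnd).1 h2.symm
  · intro c
    constructor
    · intro hc
      induction hc with
      | base => exact ⟨0, hR0, hv0⟩
      | step c D hb _ hJ ih =>
        exact (hmem c).1 (hLCL S w R hR1 hR2 c D hb (fun d hd => (hmem d).2 (ih d hd)) hJ)
    · intro hc
      exact ((hLND S w R).2 _ ((hmem _).2 hc)).1
  · intro j hj
    unfold pos
    rw [stage S w hLPR hR1 hR2 hj, List.length_append]
    rfl
  · intro j hj m c hC hN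
    have hs := set_eq S w hLPR hR1 hR2 hj
    rw [← hs] at hN
    have h1 := ext_new S w ⟨c, hC, hN⟩
    rw [← hC.2.2] at h1
    have h2 : S.lst w j ++ (S.ext w {d | d ∈ (S.lst w j).take j} (v S w R j) m ++ [c]) <+:
        S.lst w R := by
      refine List.IsPrefix.trans ?_ (hLPR S w (j + 1) R hj)
      rw [stage S w hLPR hR1 hR2 hj, ← h1]
      exact List.prefix_append_right_inj _ |>.2 (ext_mono S w _ _ hC.1)
    rw [← List.append_assoc] at h2
    have h3 : (S.lst w R)[pos S w R j m]? = some c := by
      rw [get_of_le h2 (by simp [pos])]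
      unfold pos
      rw [← List.length_append, List.getElem?_concat_length]
    have h4 : pos S w R j m < R := by
      by_contra h5
      rw [List.getElem?_eq_none (by omega)] at h3
      cases h3
    refine ⟨?_, h4, ?_⟩
    · change (S.lst w j).length +
        (S.ext w {d | d ∈ (S.lst w j).take j} (v S w R j) (m + 1)).length = _
      rw [h1, List.length_append, List.length_singleton]
      rfl
    · rw [get_v S w hR2 h4] at h3
      exact Option.some.inj h3
  · intro j hj m hm h
    have hs := set_eq S w hLPR hR1 hR2 hj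
    rw [← hs] at h
    unfold pos
    rw [ext_old S w (fun ⟨c, h1, h2⟩ => h c h1 h2)]
  · intro i hi hiR
    obtain ⟨j, m, hj, h1, h2, h3⟩ := par_aux S w hLPR hR1 hR2 R le_rfl i hi (by omega)
    refine ⟨j, m, ?_, h1, h2, h3⟩
    rw [← h3]
    exact (hR1 j hj).trans_le (Nat.le_add_right _ _)

end Pool.Agent.AFH
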