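import Pool.Agent.AFH.NP

/-!
# NPB: big steps of pushdown automata with several heads
-/

set_option autoImplicit false

namespace Pool.Agent.AFH

open Pool.Agent.Heads

namespace NPB

variable {α : Type} {k : ℕ} {M : PDA α k} {w : List α}

/-- computations with a number of steps -/
inductive RN {A : Type} (step : A → A → Prop) : ℕ → A → A → Prop
  | zero (a : A) : RN step 0 a a
  | head {n : ℕ} {a b c : A} : step a b → RN step n b c → RN step (n + 1) a c

lemma exists_rn {A : Type} {step : A → A → Prop} {a c : A} (h : Relation.ReflTransGen step a c) :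
    ∃ n, RN step n a c := by
  induction h using Relation.ReflTransGen.head_induction_on with
  | refl => exact ⟨0, RN.zero _⟩
  | head h _ ih =>
    obtain ⟨n, hn⟩ := ih
    exact ⟨n + 1, RN.head h hn⟩

lemma reach_iff (c : Cfg M.Q (Fin k → ℕ) M.Γ) :
    (∃ t, M.Reach w t c) ↔ Relation.ReflTransGen (M.Step w) M.init c := by
  constructor
  · rintro ⟨t, h⟩
    induction h with
    | zero => exact Relation.ReflTransGen.refl
    | succ _ h2 ih => exact Relation.ReflTransGen.tail ih h2
  · intro h
    induction h with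
    | refl => exact ⟨0, PDA.Reach.zero⟩
    | tail _ h2 ih =>
      obtain ⟨t, ht⟩ := ih
      exact ⟨t + 1, PDA.Reach.succ ht h2⟩

lemma run_step {q q' : M.Q} {x : Fin k → ℕ} {d : Fin k → Dir} {op : Op M.Γ} {s : List M.Γ}
    (h : (q', d, op) ∈ M.δ q (fun i => tape w (x i)) s.head?) :
    M.Step w ⟨q, x, s⟩ ⟨q', mvs (w.length + 1) x d, op.apply s⟩ :=
  ⟨(q', d, op), h, rfl⟩

lemma pp_run {g : M.Γ} {q q2 : M.Q} {x x2 : Fin k → ℕ} (h : Pp M w g q x q2 x2) :
    ∀ s : List M.Γ, Relation.ReflTransGen (M.Step w) ⟨q, x, g :: s⟩ ⟨q2, x2, s⟩ := by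
  induction h with
  | pop h => exact fun s => Relation.ReflTransGen.single (run_step (s := _ :: s) h)
  | none h _ ih => exact fun s => Relation.ReflTransGen.head (run_step (s := _ :: s) h) (ih s)
  | push h _ _ ih1 ih2 =>
    exact fun s => Relation.ReflTransGen.head (run_step (s := _ :: s) h)
      ((ih1 _).trans (ih2 s))

lemma aa_run {γ : Option M.Γ} {q : M.Q} {x : Fin k → ℕ} (h : Aa M w γ q x) :
    ∀ s : List M.Γ, s.head? = γ → ∃ c, Relation.ReflTransGen (M.Step w) ⟨q, x, s⟩ c ∧
      c.state ∈ M.accept := by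
  induction h with
  | acc h => exact fun s _ => ⟨_, Relation.ReflTransGen.refl, h⟩
  | none h _ ih =>
    rintro s rfl
    obtain ⟨c, h1, h2⟩ := ih s rfl
    exact ⟨c, Relation.ReflTransGen.head (run_step h) h1, h2⟩
  | pop0 h _ ih =>
    intro s hs
    have hs' : s = [] := by cases s with
      | nil => rfl
      | cons a s => simp at hs
    subst hs'
    obtain ⟨c, h1, h2⟩ := ih [] rfl
    exact ⟨c, Relation.ReflTransGen.head (run_step (s := []) h) h1, h2⟩
  | push h _ ih =>
    rintro s rfl
    obtain ⟨c, h1, h2⟩ := ih (_ :: s) rfl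
    exact ⟨c, Relation.ReflTransGen.head (run_step h) h1, h2⟩
  | pushpop h hp _ ih =>
    rintro s rfl
    obtain ⟨c, h1, h2⟩ := ih s rfl
    exact ⟨c, Relation.ReflTransGen.head (run_step h) ((pp_run hp s).trans h1), h2⟩

/-- The converse. -/
lemma big_of_run (n : ℕ) : ∀ (q : M.Q) (x : Fin k → ℕ) (s : List M.Γ)
    (c : Cfg M.Q (Fin k → ℕ) M.Γ), RN (M.Step w) n ⟨q, x, s⟩ c → c.state ∈ M.accept →
    Aa M w s.head? q x ∨ ∃ g s' q2 x2 n', s = g :: s' ∧ Pp M w g q x q2 x2 ∧ n' < n ∧
      RN (M.Step w) n' ⟨q2, x2, s'⟩ c := by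
  induction n using Nat.strong_induction_on with
  | _ n ih =>
    intro q x s c hr hc
    cases hr with
    | zero => exact Or.inl (Aa.acc hc)
    | @head m _ b' _ hs h2 =>
      obtain ⟨⟨q', d, op⟩, htr, rfl⟩ := hs
      cases op with
      | none =>
        rcases ih m (by omega) _ _ _ c h2 hc with h3 | ⟨g, s', q2, x2, n', h3, h4, h5, h6⟩
        · exact Or.inl (Aa.none htr h3)
        · right
          have h3' : s = g :: s' := h3
          subst h3'
          exact ⟨g, s', q2, x2, n', rfl, Pp.none htr h4, by omega, h6⟩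
      | push g' =>
        rcases ih m (by omega) _ _ _ c h2 hc with h3 | ⟨g, s', q2, x2, n', h3, h4, h5, h6⟩
        · exact Or.inl (Aa.push htr h3)
        · have h3' : g' :: s = g :: s' := h3
          obtain ⟨rfl, rfl⟩ := List.cons.inj h3'
          rcases ih n' (by omega) _ _ _ c h6 hc with h7 | ⟨g2, s2, q3, x3, n3, h7, h8, h9, h10⟩
          · exact Or.inl (Aa.pushpop htr h4 h7)
          · right
            subst h7
            exact ⟨g2, s2, q3, x3, n3, rfl, Pp.push htr h4 h8, by omega, h10⟩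
      | pop =>
        cases s with
        | nil =>
          rcases ih m (by omega) _ _ _ c h2 hc with h3 | ⟨g, s', q2, x2, n', h3, -⟩
          · exact Or.inl (Aa.pop0 htr h3)
          · have h3' : ([] : List M.Γ) = g :: s' := h3
            exact absurd h3' (by simp)
        | cons g s =>
          right
          exact ⟨g, s, _, _, m, rfl, Pp.pop htr, by omega, h2⟩

end NPB

theorem t_NPB : S_NPB := by
  intro α k M w
  constructor
  · rintro ⟨t, c, h1, h2⟩
    obtain ⟨n, hn⟩ := NPB.exists_rn ((NPB.reach_iff c).1 ⟨t, h1⟩)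
    rcases NPB.big_of_run n _ _ _ c hn h2 with h | ⟨g, s', q2, x2, n', h, -⟩
    · exact h
    · exact absurd h (by simp)
  · intro h
    obtain ⟨c, h1, h2⟩ := NPB.aa_run h [] rfl
    obtain ⟨t, ht⟩ := (NPB.reach_iff c).2 h1
    exact ⟨t, c, ht, h2⟩

end Pool.Agent.AFH
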