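import Pool.Agent.AFH.NP

/-!
# NPE: the equality test
-/

set_option autoImplicit false

namespace Pool.Agent.AFH

open Pool.Agent.Heads

namespace NPE

variable {α : Type} {k : ℕ}

/-- The positions after the move of the groups `a` and `b` to the left. -/
def nx (N : ℕ) (a b : Fin 3) (p : Fin (3 * k) → ℕ) : Fin (3 * k) → ℕ :=
  fun h => move N (p h) (gml a b h)

lemma gr_nx (N : ℕ) (a b c : Fin 3) (p : Fin (3 * k) → ℕ) (hc : c = a ∨ c = b) (i : Fin k) :
    gr (nx N a b p) c i = gr p c i - 1 := by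
  unfold gr nx gml
  rw [Equiv.symm_apply_apply, if_pos hc]
  rfl

lemma left_iff (w : List α) (a : Fin 3) (p : Fin (3 * k) → ℕ) (i : Fin k) :
    gr (fun h => tape w (p h)) a i = Sym.left ↔ gr p a i = 0 := by
  unfold gr
  exact tape_eq_left

lemma nx_le {N : ℕ} {a b : Fin 3} {p : Fin (3 * k) → ℕ} (hp : ∀ h, p h ≤ N) (h : Fin (3 * k)) :
    nx N a b p h ≤ N := move_le (hp h) _

/-- The transitions of the state `E a b`. -/
lemma step_iff (M : PDA α k) (w : List α) (a b : Fin 3) (p : Fin (3 * k) → ℕ)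
    (c : (npA M).Q × (Fin (3 * k) → ℕ)) :
    (npA M).Step w (NS.E a b, p) c ↔
      ((∀ i, gr p a i = 0 ∧ gr p b i = 0) ∧ c = (NS.acc, p)) ∨
      ((∀ i, gr p a i = 0 ↔ gr p b i = 0) ∧ c = (NS.E a b, nx (w.length + 1) a b p)) := by
  constructor
  · rintro ⟨t, ht, rfl⟩
    have ht' : ((∀ i, gr (fun h => tape w (p h)) a i = Sym.left ∧
        gr (fun h => tape w (p h)) b i = Sym.left) ∧ t = (NS.acc, Stay)) ∨
      ((∀ i, gr (fun h => tape w (p h)) a i = Sym.left ↔
        gr (fun h => tape w (p h)) b i = Sym.left) ∧ t = (NS.E a b, gml a b)) := ht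
    simp only [left_iff] at ht'
    rcases ht' with ⟨h1, rfl⟩ | ⟨h1, rfl⟩
    · exact Or.inl ⟨h1, rfl⟩
    · exact Or.inr ⟨h1, rfl⟩
  · intro h
    have key : ∀ t : NS M.Q M.Γ × (Fin (3 * k) → Dir),
        (((∀ i, gr p a i = 0 ∧ gr p b i = 0) ∧ t = (NS.acc, Stay)) ∨
        ((∀ i, gr p a i = 0 ↔ gr p b i = 0) ∧ t = (NS.E a b, gml a b))) →
        t ∈ npδ M (NS.E a b) (fun h => tape w (p h)) := by
      intro t ht
      show ((∀ i, gr (fun h => tape w (p h)) a i = Sym.left ∧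
        gr (fun h => tape w (p h)) b i = Sym.left) ∧ t = (NS.acc, Stay)) ∨
        ((∀ i, gr (fun h => tape w (p h)) a i = Sym.left ↔
          gr (fun h => tape w (p h)) b i = Sym.left) ∧ t = (NS.E a b, gml a b))
      simp only [left_iff]
      exact ht
    rcases h with ⟨h1, rfl⟩ | ⟨h1, rfl⟩
    · exact ⟨(NS.acc, Stay), key _ (Or.inl ⟨h1, rfl⟩), rfl⟩
    · exact ⟨(NS.E a b, gml a b), key _ (Or.inr ⟨h1, rfl⟩), rfl⟩

lemma not_univ (M : PDA α k) (a b : Fin 3) : (NS.E a b : (npA M).Q) ∉ (npA M).univ := by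
  rintro ⟨s, s', h⟩
  cases h

lemma of_eq (M : PDA α k) (w : List α) (a b : Fin 3) : ∀ (n : ℕ) (p : Fin (3 * k) → ℕ),
    ∑ i, gr p a i ≤ n → gr p a = gr p b → (npA M).Wins w (NS.E a b, p) := by
  intro n
  induction n with
  | zero =>
    intro p hn he
    have h0 : ∀ i, gr p a i = 0 := by
      intro i
      have := Finset.sum_eq_zero_iff.1 (Nat.le_zero.1 hn) i (Finset.mem_univ i)
      exact this
    refine AFA.Wins.some _ (NS.acc, p) (not_univ M a b) ((step_iff M w a b p _).2 (Or.inl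
      ⟨fun i => ⟨h0 i, ?_⟩, rfl⟩)) (AFA.Wins.final _ rfl)
    rw [← he]
    exact h0 i
  | succ n ih =>
    intro p hn he
    by_cases h0 : ∀ i, gr p a i = 0
    · refine AFA.Wins.some _ (NS.acc, p) (not_univ M a b) ((step_iff M w a b p _).2 (Or.inl
        ⟨fun i => ⟨h0 i, ?_⟩, rfl⟩)) (AFA.Wins.final _ rfl)
      rw [← he]
      exact h0 i
    · push Not at h0
      obtain ⟨i₀, hi₀⟩ := h0
      refine AFA.Wins.some _ (NS.E a b, nx (w.length + 1) a b p) (not_univ M a b)
        ((step_iff M w a b p _).2 (Or.inr ⟨fun i => by rw [he], rfl⟩)) (ih _ ?_ ?_)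
      · have h1 : ∑ i, gr (nx (w.length + 1) a b p) a i < ∑ i, gr p a i := by
          apply Finset.sum_lt_sum
          · intro i _
            rw [gr_nx _ _ _ _ _ (Or.inl rfl)]
            omega
          · refine ⟨i₀, Finset.mem_univ _, ?_⟩
            rw [gr_nx _ _ _ _ _ (Or.inl rfl)]
            omega
        omega
      · funext i
        rw [gr_nx _ _ _ _ _ (Or.inl rfl), gr_nx _ _ _ _ _ (Or.inr rfl), he]

lemma of_wins (M : PDA α k) (w : List α) (a b : Fin 3)
    (c : (npA M).Q × (Fin (3 * k) → ℕ)) (h : (npA M).Wins w c) :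
    ∀ p : Fin (3 * k) → ℕ, c = (NS.E a b, p) → gr p a = gr p b := by
  induction h with
  | final c hc =>
    rintro p rfl
    have h1 : (NS.E a b : NS M.Q M.Γ) = NS.acc := hc
    cases h1
  | some c c' hc hs hw ih =>
    rintro p rfl
    rcases (step_iff M w a b p _).1 hs with ⟨h1, rfl⟩ | ⟨h1, rfl⟩
    · funext i
      rw [(h1 i).1, (h1 i).2]
    · have h2 := ih _ rfl
      funext i
      have h3 := congrFun h2 i
      rw [gr_nx _ _ _ _ _ (Or.inl rfl), gr_nx _ _ _ _ _ (Or.inr rfl)] at h3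
      have h4 := h1 i
      omega
  | all c hc hs ih =>
    rintro p rfl
    exact absurd hc (not_univ M a b)

end NPE

theorem t_NPE : S_NPE := by
  intro α k M w a b p _
  exact ⟨fun h => NPE.of_wins M w a b _ h p rfl, fun h => NPE.of_eq M w a b _ p le_rfl h⟩

end Pool.Agent.AFH
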