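import Pool.Agent.AFH.NP

/-!
Project AFH, module NPF: from the big steps to the alternating automaton.
-/

set_option autoImplicit false

namespace Pool.Agent.AFH

open Pool.Agent.Heads

namespace NPF

variable {α : Type} {k : ℕ}

lemma gr_same (N : ℕ) (p : Fin (3 * k) → ℕ) (a : Fin 3) (v : Fin k → Dir) :
    gr (fun h => move N (p h) (gmv a v h)) a = mvs N (gr p a) v := by
  funext i
  simp [gr, gmv, mvs]

lemma gr_other (N : ℕ) (p : Fin (3 * k) → ℕ) {a b : Fin 3} (hb : b ≠ a) (v : Fin k → Dir) :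
    gr (fun h => move N (p h) (gmv a v h)) b = gr p b := by
  funext i
  simp [gr, gmv, hb, move]

lemma bd (N : ℕ) (p : Fin (3 * k) → ℕ) (hp : ∀ h, p h ≤ N) (v : Fin (3 * k) → Dir) :
    ∀ h, (fun h => move N (p h) (v h)) h ≤ N := fun h => move_le (hp h) _

/-- the group `c` at the positions `x` -/
def put (p : Fin (3 * k) → ℕ) (c : Fin 3) (x : Fin k → ℕ) : Fin (3 * k) → ℕ :=
  fun h => if (finProdFinEquiv.symm h).1 = c then x (finProdFinEquiv.symm h).2 else p h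

lemma put_same (p : Fin (3 * k) → ℕ) (c : Fin 3) (x : Fin k → ℕ) : gr (put p c x) c = x := by
  funext i
  simp [gr, put]

lemma put_other (p : Fin (3 * k) → ℕ) {c a : Fin 3} (ha : a ≠ c) (x : Fin k → ℕ) :
    gr (put p c x) a = gr p a := by
  funext i
  simp [gr, put, ha]

lemma put_le {N : ℕ} {p : Fin (3 * k) → ℕ} (hp : ∀ h, p h ≤ N) (c : Fin 3) {x : Fin k → ℕ}
    (hx : ∀ i, x i ≤ N) : ∀ h, put p c x h ≤ N := by
  intro h
  unfold put
  split_ifs
  · exact hx _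
  · exact hp h

lemma pp_le {M : PDA α k} {w : List α} {g : M.Γ} {q q2 : M.Q} {x x2 : Fin k → ℕ}
    (h : Pp M w g q x q2 x2) : (∀ i, x i ≤ w.length + 1) → ∀ i, x2 i ≤ w.length + 1 := by
  induction h with
  | pop _ => exact fun hx => mvs_le hx _
  | none _ _ ih => exact fun hx => ih (mvs_le hx _)
  | push _ _ _ ih1 ih2 => exact fun hx => ih2 (ih1 (mvs_le hx _))

lemma fr_ne {a b : Fin 3} (h : a ≠ b) : a ≠ fr a b ∧ b ≠ fr a b := by
  revert h
  revert a b
  decide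

lemma succ_ne (a : Fin 3) : a ≠ a + 1 := by
  revert a
  decide

section

variable {M : PDA α k} {w : List α}

lemma step {s s' : NS M.Q M.Γ} {p : Fin (3 * k) → ℕ} {v : Fin (3 * k) → Dir}
    (hs : ∀ a b, s ≠ NS.U a b) (h : (s', v) ∈ npδ M s (fun h => tape w (p h)))
    (hw : (npA M).Wins w (s', fun h => move (w.length + 1) (p h) (v h))) :
    (npA M).Wins w (s, p) := by
  refine AFA.Wins.some (M := npA M) (w := w) (s, p)
    (s', fun h => move (w.length + 1) (p h) (v h)) ?_ ⟨(s', v), h, rfl⟩ hw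
  rintro ⟨a, b, hab⟩
  exact hs a b hab

lemma guess (hNPG : S_NPG) {c : Fin 3} {s s' : Gl M.Q M.Γ} {p : Fin (3 * k) → ℕ}
    (hp : ∀ h, p h ≤ w.length + 1) {x : Fin k → ℕ} (hx : ∀ i, x i ≤ w.length + 1)
    (h1 : (npA M).Wins w (NS.goal s, put p c x)) (h2 : (npA M).Wins w (NS.goal s', put p c x)) :
    (npA M).Wins w (NS.G c s s', p) :=
  (hNPG M w c s s' p hp).2 ⟨put p c x, put_le hp c hx, fun _ ha => put_other p ha x, h1, h2⟩

lemma main_P (hNPE : S_NPE) (hNPG : S_NPG) {g : M.Γ} {q q2 : M.Q} {x x2 : Fin k → ℕ}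
    (h : Pp M w g q x q2 x2) : ∀ (p : Fin (3 * k) → ℕ) (a b : Fin 3), a ≠ b →
    (∀ h, p h ≤ w.length + 1) → gr p a = x → gr p b = x2 →
    (npA M).Wins w (NS.goal (Gl.P g q q2 a b), p) := by
  induction h with
  | @pop g q q' x d hδ =>
    intro p a b hab hp h1 h2
    subst h1
    refine step (s' := NS.E a b) (v := gmv a d) (by simp) (Or.inl ⟨d, hδ, rfl⟩) ?_
    refine (hNPE M w a b _ (bd _ p hp _)).2 ?_
    rw [gr_same, gr_other _ _ hab.symm, h2]
  | @none g q q' q2 x x2 d hδ _ ih =>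
    intro p a b hab hp h1 h2
    subst h1
    refine step (s' := NS.goal (Gl.P g q' q2 a b)) (v := gmv a d) (by simp)
      (Or.inr (Or.inl ⟨q', d, hδ, rfl⟩)) ?_
    exact ih _ a b hab (bd _ p hp _) (gr_same _ _ _ _) (by rw [gr_other _ _ hab.symm, h2])
  | @push g g' q q' q2 q3 x x2 x3 d hδ hp1 _ ih1 ih2 =>
    intro p a b hab hp h1 h2
    subst h1
    obtain ⟨c1, c2⟩ := fr_ne hab
    refine step (s' := NS.G (fr a b) (Gl.P g' q' q3 a (fr a b)) (Gl.P g q3 q2 (fr a b) b))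
      (v := gmv a d) (by simp) (Or.inr (Or.inr ⟨q', d, g', q3, hδ, rfl⟩)) ?_
    have hx3 : ∀ i, x3 i ≤ w.length + 1 := pp_le hp1 (mvs_le (fun i => hp _) _)
    refine guess hNPG (bd _ p hp _) hx3 ?_ ?_
    · refine ih1 _ a (fr a b) c1 (put_le (bd _ p hp _) _ hx3) ?_ (put_same _ _ _)
      rw [put_other _ c1, gr_same]
    · refine ih2 _ (fr a b) b c2.symm (put_le (bd _ p hp _) _ hx3) (put_same _ _ _) ?_
      rw [put_other _ c2, gr_other _ _ hab.symm, h2]

lemma main_A (hNPE : S_NPE) (hNPG : S_NPG) {γ : Option M.Γ} {q : M.Q} {x : Fin k → ℕ}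
    (h : Aa M w γ q x) : ∀ (p : Fin (3 * k) → ℕ) (a : Fin 3),
    (∀ h, p h ≤ w.length + 1) → gr p a = x →
    (npA M).Wins w (NS.goal (Gl.A γ q a), p) := by
  induction h with
  | @acc γ q x hq =>
    intro p a hp h1
    refine step (s' := NS.acc) (v := Stay) (by simp) (Or.inl ⟨hq, rfl⟩) ?_
    exact AFA.Wins.final _ rfl
  | @none γ q q' x d hδ _ ih =>
    intro p a hp h1
    subst h1
    refine step (s' := NS.goal (Gl.A γ q' a)) (v := gmv a d) (by simp)
      (Or.inr (Or.inl ⟨q', d, hδ, rfl⟩)) ?_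
    exact ih _ a (bd _ p hp _) (gr_same _ _ _ _)
  | @pop0 q q' x d hδ _ ih =>
    intro p a hp h1
    subst h1
    refine step (s' := NS.goal (Gl.A none q' a)) (v := gmv a d) (by simp)
      (Or.inr (Or.inr (Or.inl ⟨q', d, rfl, hδ, rfl⟩))) ?_
    exact ih _ a (bd _ p hp _) (gr_same _ _ _ _)
  | @push γ q q' x d g hδ _ ih =>
    intro p a hp h1
    subst h1
    refine step (s' := NS.goal (Gl.A (some g) q' a)) (v := gmv a d) (by simp)
      (Or.inr (Or.inr (Or.inr (Or.inl ⟨q', d, g, hδ, rfl⟩)))) ?_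
    exact ih _ a (bd _ p hp _) (gr_same _ _ _ _)
  | @pushpop γ q q' q2 x x2 d g hδ hpp _ ih =>
    intro p a hp h1
    subst h1
    have c1 := succ_ne a
    refine step (s' := NS.G (a + 1) (Gl.P g q' q2 a (a + 1)) (Gl.A γ q2 (a + 1)))
      (v := gmv a d) (by simp) (Or.inr (Or.inr (Or.inr (Or.inr ⟨q', d, g, q2, hδ, rfl⟩)))) ?_
    have hx2 : ∀ i, x2 i ≤ w.length + 1 := pp_le hpp (mvs_le (fun i => hp _) _)
    refine guess hNPG (bd _ p hp _) hx2 ?_ ?_
    · refine main_P hNPE hNPG hpp _ a (a + 1) c1 (put_le (bd _ p hp _) _ hx2) ?_ (put_same _ _ _)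
      rw [put_other _ c1, gr_same]
    · exact ih _ (a + 1) (put_le (bd _ p hp _) _ hx2) (put_same _ _ _)

end

end NPF

theorem t_NPF (hNPE : S_NPE) (hNPG : S_NPG) : S_NPF := by
  intro α k M w p hp
  exact ⟨fun g q q2 a b hab h => NPF.main_P hNPE hNPG h p a b hab hp rfl rfl,
    fun γ q a h => NPF.main_A hNPE hNPG h p a hp rfl⟩

end Pool.Agent.AFH
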