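import Pool.Agent.AFH.NP

/-!
NPG: the guess. The group `c` of heads moves to a guessed position, then both goals have to be
reached.
-/

set_option autoImplicit false

namespace Pool.Agent.AFH

open Pool.Agent.Heads

namespace NPG

variable {α : Type} {k : ℕ}

/-- The move from `x` towards `z`. -/
def tow (x z : ℕ) : Dir := if x < z then Dir.R else if z < x then Dir.L else Dir.S

lemma tow_spec {N x z n : ℕ} (hx : x ≤ N) (hz : z ≤ N) (h1 : x ≤ z + (n + 1))
    (h2 : z ≤ x + (n + 1)) :
    move N x (tow x z) ≤ z + n ∧ z ≤ move N x (tow x z) + n := by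
  unfold tow
  split_ifs <;> simp only [move] <;> omega

/-- The group `c` moves by `v`: the cells after the move. -/
lemma gmv_pos (N : ℕ) (c : Fin 3) (v : Fin k → Dir) (p : Fin (3 * k) → ℕ) (a : Fin 3)
    (i : Fin k) :
    move N (p (finProdFinEquiv (a, i))) (gmv c v (finProdFinEquiv (a, i))) =
      if a = c then move N (p (finProdFinEquiv (a, i))) (v i)
        else p (finProdFinEquiv (a, i)) := by
  unfold gmv
  simp only [Equiv.symm_apply_apply]
  split_ifs
  · rfl
  · rfl

/-- The other groups do not move. -/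
lemma gr_gmv (N : ℕ) (c : Fin 3) (v : Fin k → Dir) (p : Fin (3 * k) → ℕ) {a : Fin 3}
    (ha : a ≠ c) : gr (fun h => move N (p h) (gmv c v h)) a = gr p a := by
  funext i
  have h := gmv_pos N c v p a i
  rw [if_neg ha] at h
  exact h

/-- A universal configuration: both goals are reached. -/
lemma wins_U (M : PDA α k) (w : List α) (s s' : Gl M.Q M.Γ) (p : Fin (3 * k) → ℕ)
    (h : (npA M).Wins w (NS.U s s', p)) :
    (npA M).Wins w (NS.goal s, p) ∧ (npA M).Wins w (NS.goal s', p) := by
  generalize hc : ((NS.U s s', p) : (npA M).Q × (Fin (3 * k) → ℕ)) = cfg at h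
  cases h with
  | final c hf =>
    subst hc
    exact absurd (show (NS.U s s' : NS M.Q M.Γ) = NS.acc from hf) (by simp)
  | some c c' hu _ _ =>
    subst hc
    exact absurd ⟨s, s', rfl⟩ hu
  | all c _ hall =>
    subst hc
    exact ⟨hall _ ⟨(NS.goal s, Stay), Or.inl rfl, rfl⟩,
      hall _ ⟨(NS.goal s', Stay), Or.inr rfl, rfl⟩⟩

/-- The moves towards the positions `z`. -/
lemma wins_G (M : PDA α k) (w : List α) (c : Fin 3) (s s' : Gl M.Q M.Γ)
    (z : Fin (3 * k) → ℕ) (hz : ∀ h, z h ≤ w.length + 1)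
    (h1 : (npA M).Wins w (NS.goal s, z)) (h2 : (npA M).Wins w (NS.goal s', z)) (n : ℕ) :
    ∀ p : Fin (3 * k) → ℕ, (∀ h, p h ≤ w.length + 1) → (∀ a, a ≠ c → gr z a = gr p a) →
      (∀ h, p h ≤ z h + n ∧ z h ≤ p h + n) → (npA M).Wins w (NS.G c s s', p) := by
  induction n with
  | zero =>
    intro p _ _ hn
    have hpz : p = z := by
      funext h
      have := hn h
      omega
    subst hpz
    refine AFA.Wins.some _ (NS.U s s', p) ?_ ⟨(NS.U s s', Stay), Or.inr rfl, rfl⟩ ?_
    · rintro ⟨a, b, h⟩
      exact absurd (show (NS.G c s s' : NS M.Q M.Γ) = NS.U a b from h) (by simp)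
    · refine AFA.Wins.all _ ⟨s, s', rfl⟩ ?_
      rintro c' ⟨t, ht, rfl⟩
      rcases ht with ht | ht
      · subst ht
        exact h1
      · subst ht
        exact h2
  | succ n ih =>
    intro p hp ha hn
    refine AFA.Wins.some _ (NS.G c s s', fun h => move (w.length + 1) (p h)
      (gmv c (fun i => tow (p (finProdFinEquiv (c, i))) (z (finProdFinEquiv (c, i)))) h)) ?_
      ⟨(NS.G c s s', gmv c (fun i => tow (p (finProdFinEquiv (c, i)))
        (z (finProdFinEquiv (c, i))))), Or.inl ⟨_, rfl⟩, rfl⟩ (ih _ ?_ ?_ ?_)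
    · rintro ⟨a, b, h⟩
      exact absurd (show (NS.G c s s' : NS M.Q M.Γ) = NS.U a b from h) (by simp)
    · exact fun h => move_le (hp h) _
    · intro a hac
      rw [gr_gmv _ _ _ _ hac]
      exact ha a hac
    · intro h
      obtain ⟨⟨a, i⟩, rfl⟩ := finProdFinEquiv.surjective h
      simp only [gmv_pos]
      by_cases hac : a = c
      · subst hac
        rw [if_pos rfl]
        obtain ⟨h3, h4⟩ := hn (finProdFinEquiv (a, i))
        exact tow_spec (hp _) (hz _) h3 h4
      · rw [if_neg hac]
        have h5 := congrFun (ha a hac) i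
        unfold gr at h5
        omega

end NPG

/-- NPG: the guess. -/
theorem t_NPG : S_NPG := by
  intro α k M w c s s' p hp
  constructor
  · intro h
    generalize hc : ((NS.G c s s', p) : (npA M).Q × (Fin (3 * k) → ℕ)) = cfg at h
    induction h generalizing p with
    | final c1 hf =>
      subst hc
      exact absurd (show (NS.G c s s' : NS M.Q M.Γ) = NS.acc from hf) (by simp)
    | some c1 c2 _ hstep hw ih =>
      subst hc
      obtain ⟨t, ht, rfl⟩ := hstep
      rcases ht with ⟨v, ht⟩ | ht
      · subst ht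
        obtain ⟨z, hz1, hz2, hz3, hz4⟩ := ih _ (fun h => move_le (hp h) _) rfl
        refine ⟨z, hz1, fun a hac => ?_, hz3, hz4⟩
        rw [hz2 a hac]
        exact NPG.gr_gmv _ _ _ _ hac
      · subst ht
        obtain ⟨h3, h4⟩ := NPG.wins_U M w s s' p hw
        exact ⟨p, hp, fun _ _ => rfl, h3, h4⟩
    | all c1 hu _ _ =>
      subst hc
      obtain ⟨a, b, h⟩ := hu
      exact absurd (show (NS.G c s s' : NS M.Q M.Γ) = NS.U a b from h) (by simp)
  · rintro ⟨z, hz, hza, h1, h2⟩
    refine NPG.wins_G M w c s s' z hz h1 h2 (w.length + 1) p hp hza fun h => ?_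
    have := hz h
    have := hp h
    omega

end Pool.Agent.AFH
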