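import Pool.Agent.AFH.St
import Pool.Agent.AFH.Bas

/-!
# NRM: the local system of an alternating automaton
-/

set_option autoImplicit false

namespace Pool.Agent.AFH

open Pool.Agent.Heads

namespace NRM

variable {α : Type} {k : ℕ}

open Classical in
/-- The moves without those off the tape. -/
noncomputable def adj (x : Fin k → Sym α) (v : Fin k → Dir) : Fin k → Dir := fun i =>
  if (v i = Dir.L ∧ x i = Sym.left) ∨ (v i = Dir.R ∧ x i = Sym.right) then Dir.S else v i

open Classical in
/-- All heads move to the left. -/
noncomputable def gmv (x : Fin k → Sym α) : Fin k → Dir := fun i =>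
  if x i = Sym.left then Dir.S else Dir.L

lemma okx_stay (x : Fin k → Sym α) : Okx x Stay := by
  intro i
  constructor <;> intro h <;> cases h

lemma okx_adj (x : Fin k → Sym α) (v : Fin k → Dir) : Okx x (adj x v) := by
  intro i
  unfold adj
  split_ifs with h
  · constructor <;> intro h1 <;> cases h1
  · push Not at h
    exact ⟨fun h1 => h.1 h1, fun h1 => h.2 h1⟩

lemma okx_gmv (x : Fin k → Sym α) : Okx x (gmv x) := by
  intro i
  unfold gmv
  split_ifs with h
  · constructor <;> intro h1 <;> cases h1
  · exact ⟨fun _ => h, fun h1 => by cases h1⟩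

lemma mvs_adj (w : List α) (p : Fin k → ℕ) (v : Fin k → Dir) (hp : ∀ i, p i ≤ w.length + 1) :
    mvs (w.length + 1) p (adj (fun i => tape w (p i)) v) =
      fun i => move (w.length + 1) (p i) (v i) := by
  funext i
  unfold mvs adj
  split_ifs with h
  · rcases h with ⟨h1, h2⟩ | ⟨h1, h2⟩
    · rw [h1, move_S, move_L, tape_eq_left.mp h2]
    · have h3 := tape_eq_right.mp h2
      have h4 := hp i
      rw [h1, move_S]
      simp only [move]
      omega
  · rfl

variable (M : AFA α k)

/-- The node is accepting without further steps. -/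
def Ter (q : M.Q) (x : Fin k → Sym α) : Prop := q ∈ M.accept ∨ (q ∈ M.univ ∧ M.δ q x = ∅)

open Classical in
/-- The rules. -/
noncomputable def sc : Option (Option M.Q) → (Fin k → Sym α) →
    Set (Option (Option M.Q) × (Fin k → Dir))
  | none, _ => ∅
  | some none, x => if ∀ i, x i = Sym.left then {(none, Stay)} else {(some none, gmv x)}
  | some (some q), x => if Ter M q x then {(some none, Stay)} else
      {t | ∃ s ∈ M.δ q x, t = (some (some s.1), adj x s.2)}

open Classical in
lemma sc_g (x : Fin k → Sym α) : sc M (some none) x =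
    if ∀ i, x i = Sym.left then {(none, Stay)} else {(some none, gmv x)} := rfl

open Classical in
lemma sc_s (q : M.Q) (x : Fin k → Sym α) : sc M (some (some q)) x =
    if Ter M q x then {(some none, Stay)} else
      {t | ∃ s ∈ M.δ q x, t = (some (some s.1), adj x s.2)} := rfl

/-- The local system. -/
@[reducible] noncomputable def sys : LS α k where
  Q := Option (Option M.Q)
  finQ := by have := M.finQ; infer_instance
  q0 := none
  start := some (some M.start)
  uni := {s | ∃ q, s = some (some q) ∧ q ∈ M.univ ∧ q ∉ M.accept}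
  succ := sc M
  okx := by
    intro q x t ht
    rcases q with _ | _ | q
    · exact ht.elim
    · rw [sc_g] at ht
      split_ifs at ht with h
      · rw [Set.mem_singleton_iff] at ht
        rw [ht]
        exact okx_stay x
      · rw [Set.mem_singleton_iff] at ht
        rw [ht]
        exact okx_gmv x
    · rw [sc_s] at ht
      split_ifs at ht with h
      · rw [Set.mem_singleton_iff] at ht
        rw [ht]
        exact okx_stay x
      · obtain ⟨s, -, rfl⟩ := ht
        exact okx_adj x _
  q0_succ := fun _ => rfl

lemma not_uni_g : (some none : Option (Option M.Q)) ∉ (sys M).uni := by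
  rintro ⟨q, h, -⟩
  simp at h

variable {M} {w : List α}

lemma mem_uni {q : M.Q} : (some (some q) : Option (Option M.Q)) ∈ (sys M).uni ↔
    q ∈ M.univ ∧ q ∉ M.accept := by
  constructor
  · rintro ⟨q', h, h1⟩
    simp only [Option.some.injEq] at h
    subst h
    exact h1
  · intro h
    exact ⟨q, rfl, h⟩

/-- The rules of a node of the automaton. -/
lemma tr_ter {q : M.Q} {p : Fin k → ℕ} (h : Ter M q (fun i => tape w (p i))) :
    (sys M).tr w (some (some q), p) = {(some none, Stay)} := by
  change sc M (some (some q)) (fun i => tape w (p i)) = _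
  rw [sc_s, if_pos h]

lemma tr_nter {q : M.Q} {p : Fin k → ℕ} (h : ¬ Ter M q (fun i => tape w (p i))) :
    (sys M).tr w (some (some q), p) = {t | ∃ s ∈ M.δ q (fun i => tape w (p i)),
      t = (some (some s.1), adj (fun i => tape w (p i)) s.2)} := by
  change sc M (some (some q)) (fun i => tape w (p i)) = _
  rw [sc_s, if_neg h]

/-- The nodes with the state `g` are accepting. -/
lemma acc_g : ∀ (n : ℕ) (p : Fin k → ℕ), (∀ i, p i ≤ w.length + 1) → ∑ i, p i ≤ n →
    (sys M).Acc w (some none, p) := by
  intro n
  induction n with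
  | zero =>
    intro p hp hn
    have h0 : p = fun _ => 0 := by
      funext i
      have := Finset.single_le_sum (f := p) (fun i _ => Nat.zero_le _) (Finset.mem_univ i)
      omega
    have htr : (sys M).tr w (some none, p) = {(none, Stay)} := by
      change sc M (some none) (fun i => tape w (p i)) = _
      rw [sc_g, if_pos]
      intro i
      change tape w (p i) = _
      rw [h0, tape_zero]
    refine LS.Acc.step _ {(sys M).a0} hp ?_ (Or.inr ⟨not_uni_g M, (none, Stay), ?_, ?_⟩)
    · rintro d rfl
      exact LS.Acc.base
    · rw [htr]; rfl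
    · change (none, mvs (w.length + 1) p Stay) = (none, fun _ => 0)
      rw [mvs_stay, h0]
  | succ n ih =>
    intro p hp hn
    by_cases hall : ∀ i, p i = 0
    · refine ih p hp ?_
      simp [hall]
    · push Not at hall
      obtain ⟨i0, hi0⟩ := hall
      have htr : (sys M).tr w (some none, p) =
          {(some none, gmv (fun i => tape w (p i)))} := by
        change sc M (some none) (fun i => tape w (p i)) = _
        rw [sc_g, if_neg]
        intro h
        exact hi0 (tape_eq_left.mp (h i0))
      have hle : ∀ i, mvs (w.length + 1) p (gmv (fun i => tape w (p i))) i = p i - 1 := by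
        intro i
        unfold mvs gmv
        split_ifs with h
        · rw [move_S, tape_eq_left.mp h]
        · rw [move_L]
      have hacc : (sys M).Acc w
          (some none, mvs (w.length + 1) p (gmv (fun i => tape w (p i)))) := by
        refine ih _ (fun i => ?_) ?_
        · rw [hle]
          have := hp i
          omega
        · have h1 : ∑ i, mvs (w.length + 1) p (gmv (fun i => tape w (p i))) i < ∑ i, p i := by
            refine Finset.sum_lt_sum (fun i _ => ?_) ⟨i0, Finset.mem_univ _, ?_⟩
            · rw [hle]; omega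
            · rw [hle]; omega
          omega
      refine LS.Acc.step _ {(some none, mvs (w.length + 1) p (gmv (fun i => tape w (p i))))} hp
        ?_ (Or.inr ⟨not_uni_g M, (some none, gmv (fun i => tape w (p i))), ?_, ?_⟩)
      · rintro d rfl
        exact hacc
      · rw [htr]; rfl
      · rfl

/-- Nodes which are accepting without further steps. -/
lemma acc_ter {q : M.Q} {p : Fin k → ℕ} (hp : ∀ i, p i ≤ w.length + 1)
    (h : Ter M q (fun i => tape w (p i))) : (sys M).Acc w (some (some q), p) := by
  refine LS.Acc.step _ {(some none, p)} hp ?_ ?_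
  · rintro d rfl
    exact acc_g _ p hp le_rfl
  · have htr := tr_ter h
    by_cases hu : (some (some q) : Option (Option M.Q)) ∈ (sys M).uni
    · refine Or.inl ⟨hu, ?_, ?_⟩
      · rw [htr]; exact Set.singleton_nonempty _
      · intro t ht
        rw [htr, Set.mem_singleton_iff] at ht
        rw [ht]
        rfl
    · refine Or.inr ⟨hu, (some none, Stay), ?_, ?_⟩
      · rw [htr]; rfl
      · rfl

lemma tgt_adj {q : M.Q} {p : Fin k → ℕ} (hp : ∀ i, p i ≤ w.length + 1)
    (s : M.Q × (Fin k → Dir)) :
    (sys M).tgt w (some (some q), p) (some (some s.1), adj (fun i => tape w (p i)) s.2) =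
      (some (some s.1), fun i => move (w.length + 1) (p i) (s.2 i)) := by
  unfold LS.tgt
  rw [mvs_adj w p s.2 hp]

/-- The accepting configurations are accepting nodes. -/
lemma acc_of_wins {c : M.Q × (Fin k → ℕ)} (h : M.Wins w c) :
    (∀ i, c.2 i ≤ w.length + 1) → (sys M).Acc w (some (some c.1), c.2) := by
  induction h with
  | final c hc => exact fun hp => acc_ter hp (Or.inl hc)
  | some c c' hc hs _ ih =>
    intro hp
    by_cases ha : c.1 ∈ M.accept
    · exact acc_ter hp (Or.inl ha)
    have hT : ¬ Ter M c.1 (fun i => tape w (c.2 i)) := by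
      rintro (h | h)
      · exact ha h
      · exact hc h.1
    obtain ⟨s, hs, rfl⟩ := hs
    have h1 := ih (fun i => move_le (hp i) _)
    refine LS.Acc.step _ {(some (some s.1), fun i => move (w.length + 1) (c.2 i) (s.2 i))} hp ?_
      (Or.inr ⟨?_, (some (some s.1), adj (fun i => tape w (c.2 i)) s.2), ?_, ?_⟩)
    · rintro d rfl
      exact h1
    · change (some (some c.1) : Option (Option M.Q)) ∉ (sys M).uni
      rw [mem_uni]
      exact fun h => hc h.1
    · rw [tr_nter hT]
      exact ⟨s, hs, rfl⟩
    · exact tgt_adj hp s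
  | all c hc _ ih =>
    intro hp
    by_cases hT : Ter M c.1 (fun i => tape w (c.2 i))
    · exact acc_ter hp hT
    have hne : (M.δ c.1 (fun i => tape w (c.2 i))).Nonempty := by
      rw [Set.nonempty_iff_ne_empty]
      exact fun h => hT (Or.inr ⟨hc, h⟩)
    refine LS.Acc.step _ {d | ∃ s ∈ M.δ c.1 (fun i => tape w (c.2 i)),
      d = (some (some s.1), fun i => move (w.length + 1) (c.2 i) (s.2 i))} hp ?_
      (Or.inl ⟨?_, ?_, ?_⟩)
    · rintro d ⟨s, hs, rfl⟩
      exact ih _ ⟨s, hs, rfl⟩ (fun i => move_le (hp i) _)
    · change (some (some c.1) : Option (Option M.Q)) ∈ (sys M).uni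
      rw [mem_uni]
      exact ⟨hc, fun h => hT (Or.inl h)⟩
    · rw [tr_nter hT]
      obtain ⟨s, hs⟩ := hne
      exact ⟨_, s, hs, rfl⟩
    · intro t ht
      rw [tr_nter hT] at ht
      obtain ⟨s, hs, rfl⟩ := ht
      exact ⟨s, hs, tgt_adj hp s⟩

/-- The accepting nodes are accepting configurations. -/
lemma wins_of_acc {c : (sys M).Node} (h : (sys M).Acc w c) :
    ∀ q : M.Q, c.1 = some (some q) → M.Wins w (q, c.2) := by
  induction h with
  | base =>
    intro q hq
    cases hq
  | step c D hb _ hJ ih =>
    intro q hq
    obtain ⟨c1, p⟩ := c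
    simp only at hq
    subst hq
    by_cases ha : q ∈ M.accept
    · exact AFA.Wins.final _ ha
    by_cases hu : q ∈ M.univ
    · refine AFA.Wins.all _ hu ?_
      rintro c' ⟨s, hs, rfl⟩
      have hT : ¬ Ter M q (fun i => tape w (p i)) := by
        rintro (h | h)
        · exact ha h
        · have h2 : s ∈ M.δ q (fun i => tape w (p i)) := hs
          rw [h.2] at h2
          exact h2
      rcases hJ with ⟨-, -, h1⟩ | ⟨h1, -⟩
      · have h2 := h1 (some (some s.1), adj (fun i => tape w (p i)) s.2) (by
          rw [tr_nter hT]; exact ⟨s, hs, rfl⟩)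
        rw [tgt_adj hb s] at h2
        exact ih _ h2 s.1 rfl
      · exact absurd (mem_uni.mpr ⟨hu, ha⟩) h1
    · have hT : ¬ Ter M q (fun i => tape w (p i)) := by
        rintro (h | h)
        · exact ha h
        · exact hu h.1
      rcases hJ with ⟨h1, -, -⟩ | ⟨-, t, ht, h1⟩
      · exact absurd (mem_uni.mp h1).1 hu
      · rw [tr_nter hT] at ht
        obtain ⟨s, hs, rfl⟩ := ht
        rw [tgt_adj hb s] at h1
        exact AFA.Wins.some _ _ hu ⟨s, hs, rfl⟩ (ih _ h1 s.1 rfl)

end NRM

open NRM in
/-- NRM. -/
theorem t_NRM : S_NRM := by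
  intro α k M
  refine ⟨sys M, fun w => ⟨fun h => ?_, fun h => ?_⟩⟩
  · exact wins_of_acc h M.start rfl
  · exact acc_of_wins h (fun _ => Nat.zero_le _)

end Pool.Agent.AFH
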