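import Pool.Agent.AFH.St
import Pool.Agent.AFH.Bas

/-!
# The procedure `next` is correct
-/

set_option autoImplicit false

namespace Pool.Agent.AFH

open Pool.Agent.Heads

namespace NXT

variable {α : Type} {k : ℕ}

theorem push_zero (S : LS α k) (w : List α) (q : S.Q) (hq : q = S.q0) (p : Fin k → ℕ)
    (stk : List (Frm S.Q k S.M × (Fin k → ℕ))) :
    S.fm.Stp w ⟨Lab.next q, p, stk⟩ ⟨Lab.scan S.q0 0, fun _ => 0, (Frm.B q, p) :: stk⟩ := by
  have h : S.fm.ins w ⟨Lab.next q, p, stk⟩ = Ins.push (Frm.B q) (Lab.scan S.q0 0) := by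
    unfold FM.ins
    change S.prog (Lab.next q) (fun i => tape w (p i)) (stk.head?.map Prod.fst) = _
    rw [LS.prog, if_pos hq]
  unfold FM.Stp
  rw [h]
  rfl

theorem push_succ (S : LS α k) (w : List α) (q : S.Q) (hq : q ≠ S.q0) (p : Fin k → ℕ)
    (stk : List (Frm S.Q k S.M × (Fin k → ℕ))) :
    S.fm.Stp w ⟨Lab.next q, p, stk⟩
      ⟨Lab.fnd S.q0 0, fun _ => 0, (Frm.A q (S.succ q fun i => tape w (p i)), p) :: stk⟩ := by
  have h : S.fm.ins w ⟨Lab.next q, p, stk⟩ =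
      Ins.push (Frm.A q (S.succ q fun i => tape w (p i))) (Lab.fnd S.q0 0) := by
    unfold FM.ins
    change S.prog (Lab.next q) (fun i => tape w (p i)) (stk.head?.map Prod.fst) = _
    rw [LS.prog, if_neg hq]
  unfold FM.Stp
  rw [h]
  rfl

theorem next_zero (hSCN : S_SCN) (S : LS α k) (w : List α) (l : S.Listing w) :
    NextOK S w l 0 := by
  intro stk
  have h0 : l.v 0 = (S.q0, fun _ => 0) := l.v_zero
  have h1 := hSCN S w l 0 0 0 stk l.R_pos le_rfl l.pos_zero
    (fun a ha => absurd ha (Nat.not_lt_zero a))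
  have h2 := push_zero S w (l.v 0).1 (by rw [h0]) (l.v 0).2 stk
  have h3 : (⟨Lab.scan S.q0 0, fun _ => 0, (Frm.B (l.v 0).1, (l.v 0).2) :: stk⟩ :
      FC (Lab S.Q k S.M) (Frm S.Q k S.M) k) =
      ⟨Lab.scan (l.v 0).1 0, (l.v 0).2, (Frm.B (l.v 0).1, (l.v 0).2) :: stk⟩ := by
    rw [h0]
  constructor
  · intro h
    exact FM.Run.head h2 (h3 ▸ h1.1 h)
  · intro h
    obtain ⟨p, hp⟩ := h1.2 h
    exact ⟨p, FM.Run.head h2 (h3 ▸ hp)⟩

end NXT

theorem t_NXT (hFDA : S_FDA) (hSCN : S_SCN) : S_NXT := by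
  intro α k S w l i
  induction i using Nat.strong_induction_on with
  | _ i ih =>
    intro hi
    rcases Nat.eq_zero_or_pos i with rfl | hi0
    · exact NXT.next_zero hSCN S w l
    · obtain ⟨j, m, hj, hc, hn, hp⟩ := l.par i hi0 hi
      have hOK : ∀ a < i, NextOK S w l a := fun a ha => ih a ha (ha.trans hi)
      have hm : m < S.M := hc.1
      have hq : (l.v i).1 ≠ S.q0 := fun h => LS.not_just_q0 h hn.1
      intro stk
      have h1 := hFDA S w l i j ⟨m, hm⟩ stk hi0 hi hj hc hn hOK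
      have h2 : l.pos j ((⟨m, hm⟩ : Fin S.M).succ : Fin (S.M + 1)) = i + 1 := by
        have := (l.pos_new j (hj.trans hi) m (l.v i) hc hn).1
        rw [Fin.val_succ]
        rw [this, hp]
      have h3 := hSCN S w l i j (⟨m, hm⟩ : Fin S.M).succ stk hi hj.le h2 hOK
      have h4 := NXT.push_succ S w (l.v i).1 hq (l.v i).2 stk
      constructor
      · intro h
        exact FM.Run.head h4 (FM.Run.trans h1 (h3.1 h))
      · intro h
        obtain ⟨p, hp'⟩ := h3.2 h
        exact ⟨p, FM.Run.head h4 (FM.Run.trans h1 hp')⟩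

end Pool.Agent.AFH
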