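import Pool.Agent.AFH.MicLib

set_option autoImplicit false

namespace Pool.Agent.AFH

open Pool.Agent.Heads

namespace PO

open ML

variable {α : Type} {k : ℕ} (M : FM α k) (w : List α)

/-- The register goes to zero. -/
lemma loop1 (l : M.L) (j : Fin k) (t : List (Sy M.Γ)) (c : ℕ) (r : Fin k → ℕ) (hc : r j = c) :
    M.MR w (mc (Mic.po l j.succ) 0 r t) (mc (Mic.poD l j) 0 (Function.update r j 0) t) := by
  induction c generalizing r with
  | zero =>
    have h0 : Function.update r j 0 = r := by rw [← hc, update_self']
    rw [h0]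
    refine one_sty M w (op := Op.none) ?_
    have h1 : sc w 0 r j.succ = tape w 0 := by rw [sc_succ, hc]
    simp [FM.mic, Fin.succ_ne_zero, h1, isL_zero]
  | succ c ih =>
    have h1 : isL (sc w 0 r j.succ) = false := by
      rw [sc_succ]
      exact isL_false w (by omega)
    have h2 := one_mv M w (m := Mic.po l j.succ) (m' := Mic.po l j.succ) (op := Op.none)
      (e := 0) (p := r) (s := t) (d := Dir.S) (d' := Dir.L) (j := j) (by
        simp [FM.mic, Fin.succ_ne_zero, h1])
    refine h2.trans ?_
    have h3 := ih (Function.update r j (r j - 1)) (by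
      rw [Function.update_self, hc, Nat.add_sub_cancel])
    rw [Function.update_idem] at h3
    exact h3

/-- The digit is loaded. -/
lemma loop2 (l : M.L) (j : Fin k) (t : List (Sy M.Γ)) (a : ℕ) (r : Fin k → ℕ)
    (ha : r j + a ≤ w.length + 1) :
    M.MR w (mc (Mic.poD l j) 0 r (List.replicate a Sy.one ++ Sy.hash :: t))
      (mc (Mic.po l j.castSucc) 0 (Function.update r j (r j + a)) t) := by
  induction a generalizing r with
  | zero =>
    rw [add_zero, update_self']
    refine one_sty M w (op := Op.pop) (s := Sy.hash :: t) ?_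
    simp [FM.mic]
  | succ a ih =>
    have h2 := one_mv M w (m := Mic.poD l j) (m' := Mic.poD l j) (op := Op.pop)
      (e := 0) (p := r) (s := List.replicate (a + 1) Sy.one ++ Sy.hash :: t) (d := Dir.S)
      (d' := Dir.R) (j := j) (by simp [FM.mic, List.replicate_succ])
    refine h2.trans ?_
    rw [move_R (by omega)]
    have h3 := ih (Function.update r j (r j + 1)) (by
      rw [Function.update_self]
      omega)
    rw [Function.update_idem, Function.update_self, show r j + 1 + a = r j + (a + 1) by ring] at h3
    exact h3

lemma main (l : M.L) (q : Fin k → ℕ) (hq : ∀ i, q i ≤ w.length + 1) (s : List (Sy M.Γ)) (n : ℕ)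
    (hn : n < k + 1) (r : Fin k → ℕ) (hr : ∀ i : Fin k, n ≤ i.val → r i = q i) :
    M.MR w (mc (Mic.po l ⟨n, hn⟩) 0 r (dig q n ++ s)) (mc (Mic.run l) 0 q s) := by
  induction n generalizing r with
  | zero =>
    have h1 : r = q := funext fun i => hr i (Nat.zero_le _)
    subst h1
    refine one_sty M w (op := Op.none) ?_
    rfl
  | succ n ih =>
    have hk : n < k := by omega
    rw [dig_succ q n hk]
    refine (loop1 M w l ⟨n, hk⟩ _ _ r rfl).trans ?_
    have h1 := loop2 M w l ⟨n, hk⟩ (dig q n ++ s) (q ⟨n, hk⟩) (Function.update r ⟨n, hk⟩ 0) (by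
      rw [Function.update_self, zero_add]
      exact hq _)
    rw [Function.update_idem, Function.update_self, zero_add] at h1
    refine h1.trans (ih (by omega) _ ?_)
    intro i hi
    by_cases h : i = ⟨n, hk⟩
    · rw [h, Function.update_self]
    · rw [Function.update_of_ne h]
      refine hr i ?_
      have : i.val ≠ n := fun h' => h (Fin.ext h')
      omega

end PO

theorem t_PO : S_PO := by
  intro α k M w l p q s _ hq
  exact PO.main M w l q hq s k (by omega) p (fun i hi => by omega)

end Pool.Agent.AFH
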