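import Pool.Agent.AFH.MicLib

set_option autoImplicit false

namespace Pool.Agent.AFH

open Pool.Agent.Heads

namespace PU

open ML

variable {α : Type} {k : ℕ} (M : FM α k) (w : List α)

lemma loop (γ : M.Γ) (l : M.L) (j : Fin k) (t : List (Sy M.Γ)) (c a : ℕ) (q : Fin k → ℕ)
    (hc : q j = c) :
    M.MR w (mc (Mic.puD γ l j) 0 q (List.replicate a Sy.one ++ t))
      (mc (Mic.pu γ l j.succ) 0 (Function.update q j 0)
        (List.replicate (a + c) Sy.one ++ t)) := by
  induction c generalizing a q with
  | zero =>
    rw [← hc, update_self', hc, add_zero]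
    refine one_sty M w (op := Op.none) ?_
    change (if isL (tape w (q j)) then _ else _) = _
    rw [hc, isL_zero]
    rfl
  | succ c ih =>
    have h1 := one_mv M w (m := Mic.puD γ l j) (m' := Mic.puD γ l j) (op := Op.push Sy.one)
      (e := 0) (p := q) (s := List.replicate a Sy.one ++ t) (d := Dir.S) (d' := Dir.L) (j := j) (by
        change (if isL (tape w (q j)) then _ else _) = _
        rw [hc, isL_false w (by omega)]
        rfl)
    refine h1.trans ?_
    have h2 := ih (a + 1) (Function.update q j (q j - 1)) (by
      rw [Function.update_self, hc, Nat.add_sub_cancel])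
    rw [Function.update_idem] at h2
    rw [show a + (c + 1) = a + 1 + c by ring]
    exact h2

lemma main (γ : M.Γ) (l : M.L) (p : Fin k → ℕ) (s : List (Sy M.Γ)) (d : ℕ) (n : ℕ)
    (hn : n + d = k) (q : Fin k → ℕ) (h0 : ∀ i : Fin k, i.val < n → q i = 0)
    (h1 : ∀ i : Fin k, n ≤ i.val → q i = p i) :
    M.MR w (mc (Mic.pu γ l ⟨n, by omega⟩) 0 q (dig p n ++ s))
      (mc (Mic.run l) 0 (fun _ => 0) (Sy.lab γ :: (dig p k ++ s))) := by
  induction d generalizing n q with
  | zero =>
    have hq : q = fun _ => 0 := funext fun i => h0 i (by omega)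
    subst hq
    have hk : n = k := by omega
    subst hk
    refine one_sty M w (op := Op.push (Sy.lab γ)) ?_
    change (if h : n < n then _ else _) = _
    rw [dif_neg (lt_irrefl _)]
  | succ d ih =>
    have hk : n < k := by omega
    have e1 := one_sty M w (m := Mic.pu γ l ⟨n, by omega⟩) (m' := Mic.puD γ l ⟨n, hk⟩)
      (op := Op.push Sy.hash) (e := 0) (p := q) (s := dig p n ++ s) (by
        change (if h : n < k then _ else _) = _
        rw [dif_pos hk])
    refine e1.trans ?_
    have e2 := loop M w γ l ⟨n, hk⟩ (Sy.hash :: (dig p n ++ s)) (p ⟨n, hk⟩) 0 q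
      (h1 ⟨n, hk⟩ (le_refl _))
    rw [zero_add, ← dig_succ p n hk] at e2
    refine Relation.ReflTransGen.trans e2 ?_
    refine ih (n + 1) (by omega) _ ?_ ?_
    · intro i hi
      by_cases h : i = ⟨n, hk⟩
      · rw [h, Function.update_self]
      · rw [Function.update_of_ne h]
        refine h0 i ?_
        have : i.val ≠ n := fun h' => h (Fin.ext h')
        omega
    · intro i hi
      have h : i ≠ ⟨n, hk⟩ := by
        rintro rfl
        simp at hi
      rw [Function.update_of_ne h]
      exact h1 i (by omega)

end PU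

theorem t_PU : S_PU := by
  intro α k M w γ l p s _
  exact PU.main M w γ l p s k 0 (by omega) p (fun i hi => by omega) (fun i _ => rfl)

end Pool.Agent.AFH
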