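import Pool.Agent.AFH.Bas

/-!
AFH, module REL: comparison with the node of the top frame.
-/

set_option autoImplicit false

namespace Pool.Agent.AFH

open Pool.Agent.Heads

namespace REL

variable {α : Type} {k : ℕ} {S : LS α k} {w : List α} {q : S.Q} {y p : Fin k → ℕ}
  {γ : Frm S.Q k S.M} {stk : List (Frm S.Q k S.M × (Fin k → ℕ))}

lemma stp_iff {l : Lab S.Q k S.M} {r : Fin k → ℕ} {c : FC (Lab S.Q k S.M) (Frm S.Q k S.M) k} :
    S.fm.Stp w ⟨l, r, stk⟩ c ↔ (S.prog l (fun i => tape w (r i))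
      (stk.head?.map Prod.fst)).exec (w.length + 1) r stk = some c := Iff.rfl

lemma one_miss (n : ℕ) (hn : n < VM k) (hy : ∀ i, y i ≤ w.length + 1)
    (hp : ∀ i, p i ≤ w.length + 1)
    (h : ¬ (Ok (w.length + 1) p (vec k n) ∧ y = mvs (w.length + 1) p (vec k n))) :
    S.fm.Run w ⟨Lab.fnd q ⟨n, Nat.lt_succ_of_lt hn⟩, y, (γ, p) :: stk⟩
      ⟨Lab.fnd q ⟨n + 1, Nat.succ_lt_succ hn⟩, y, (γ, p) :: stk⟩ := by
  classical
  rw [mvs_eq_iff hp hy] at h
  by_cases hok : Ok (w.length + 1) y (opv (vec k n))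
  · have hne : ¬ mvs (w.length + 1) y (opv (vec k n)) = p := fun h1 => h ⟨hok, h1⟩
    have hokx : Okx (fun i => tape w (y i)) (opv (vec k n)) := okx_iff.2 hok
    refine FM.Run.head (c' := ⟨Lab.tst q ⟨n, hn⟩, mvs (w.length + 1) y (opv (vec k n)),
      (γ, p) :: stk⟩) ?_ ?_
    · rw [REL.stp_iff]
      simp only [LS.prog, dif_pos hn, if_pos hokx]
      rfl
    refine FM.Run.head (c' := ⟨Lab.mis q ⟨n, hn⟩, mvs (w.length + 1) y (opv (vec k n)),
      (γ, p) :: stk⟩) ?_ ?_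
    · rw [REL.stp_iff]
      simp only [LS.prog, Ins.exec, if_neg hne]
      rfl
    refine FM.Run.head ?_ (FM.Run.refl _)
    rw [REL.stp_iff]
    simp only [LS.prog, Ins.exec]
    have h1 := mvs_opv hy hok
    rw [opv_opv] at h1
    congr 2
  · have hokx : ¬ Okx (fun i => tape w (y i)) (opv (vec k n)) := fun h1 => hok (okx_iff.1 h1)
    refine FM.Run.head ?_ (FM.Run.refl _)
    rw [REL.stp_iff]
    simp only [LS.prog, dif_pos hn, if_neg hokx]
    rfl

lemma one_hit (n : ℕ) (hn : n < VM k) (hy : ∀ i, y i ≤ w.length + 1)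
    (hp : ∀ i, p i ≤ w.length + 1)
    (h : Ok (w.length + 1) p (vec k n) ∧ y = mvs (w.length + 1) p (vec k n)) :
    S.fm.Run w ⟨Lab.fnd q ⟨n, Nat.lt_succ_of_lt hn⟩, y, (γ, p) :: stk⟩
      ⟨Lab.pro q ⟨n, hn⟩, y, (γ, p) :: stk⟩ := by
  classical
  rw [mvs_eq_iff hp hy] at h
  obtain ⟨hok, heq⟩ := h
  have hokx : Okx (fun i => tape w (y i)) (opv (vec k n)) := okx_iff.2 hok
  refine FM.Run.head (c' := ⟨Lab.tst q ⟨n, hn⟩, mvs (w.length + 1) y (opv (vec k n)),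
    (γ, p) :: stk⟩) ?_ ?_
  · rw [REL.stp_iff]
    simp only [LS.prog, dif_pos hn, if_pos hokx]
    rfl
  refine FM.Run.head (c' := ⟨Lab.hit q ⟨n, hn⟩, mvs (w.length + 1) y (opv (vec k n)),
    (γ, p) :: stk⟩) ?_ ?_
  · rw [REL.stp_iff]
    simp only [LS.prog, Ins.exec, if_pos heq]
    rfl
  refine FM.Run.head ?_ (FM.Run.refl _)
  rw [REL.stp_iff]
  simp only [LS.prog, Ins.exec]
  have h1 := mvs_opv hy hok
  rw [opv_opv] at h1
  congr 2

/-- Several misses. -/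
lemma misses (hy : ∀ i, y i ≤ w.length + 1) (hp : ∀ i, p i ≤ w.length + 1) (n : ℕ) :
    ∀ hn : n ≤ VM k, (∀ n' < n, ¬ (Ok (w.length + 1) p (vec k n') ∧
      y = mvs (w.length + 1) p (vec k n'))) →
    S.fm.Run w ⟨Lab.fnd q 0, y, (γ, p) :: stk⟩
      ⟨Lab.fnd q ⟨n, Nat.lt_succ_of_le hn⟩, y, (γ, p) :: stk⟩ := by
  induction n with
  | zero => intro _ _; exact FM.Run.refl _
  | succ n ih =>
    intro hn h
    exact (ih (Nat.le_of_succ_le hn) fun n' hn' => h n' (Nat.lt_succ_of_lt hn')).trans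
      (one_miss n hn hy hp (h n (Nat.lt_succ_self n)))

end REL

theorem t_REL : S_REL := by
  classical
  intro α k S w q y p γ stk hy hp
  constructor
  · intro n hok heq
    refine (REL.misses hy hp n.val n.2.le ?_).trans (REL.one_hit n.val n.2 hy hp ⟨hok, heq⟩)
    rintro n' hn' ⟨h1, h2⟩
    have h3 := mvs_inj hok h1 (heq ▸ h2)
    exact hn'.ne (vec_inj (hn'.trans n.2) n.2 h3.symm)
  · intro h
    refine (REL.misses hy hp (VM k) le_rfl ?_).trans ?_
    · rintro n' _ ⟨h1, h2⟩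
      exact h _ h1 h2
    · refine FM.Run.head ?_ (FM.Run.refl _)
      rw [REL.stp_iff]
      simp only [LS.prog, lt_irrefl, dite_false]
      rfl

end Pool.Agent.AFH
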