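import Pool.Agent.AFH.MicLib

set_option autoImplicit false

namespace Pool.Agent.AFH

open Pool.Agent.Heads

namespace RS

open ML

variable {α : Type} {k : ℕ} (M : FM α k) (w : List α)

/-- The digit is stored, the auxiliary head counts. -/
lemma loop1 (γ : M.Γ) (l : M.L) (j : Fin k) (t : List (Sy M.Γ)) (c a e : ℕ) (r : Fin k → ℕ)
    (hc : r j = c) (he : e + c ≤ w.length + 1) :
    M.MR w (mc (Mic.rsD γ l j) e r (List.replicate a Sy.one ++ t))
      (mc (Mic.rsE γ l j) (e + c) (Function.update r j 0)
        (List.replicate (a + c) Sy.one ++ t)) := by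
  induction c generalizing a e r with
  | zero =>
    rw [← hc, update_self', hc, add_zero, add_zero]
    refine one_sty M w (op := Op.none) ?_
    have h1 : sc w e r j.succ = tape w 0 := by rw [sc_succ, hc]
    simp [FM.mic, h1, isL_zero]
  | succ c ih =>
    have h1 : isL (sc w e r j.succ) = false := by
      rw [sc_succ]
      exact isL_false w (by omega)
    have h2 := one_mv M w (m := Mic.rsD γ l j) (m' := Mic.rsD γ l j) (op := Op.push Sy.one)
      (e := e) (p := r) (s := List.replicate a Sy.one ++ t) (d := Dir.R) (d' := Dir.L) (j := j) (by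
        simp [FM.mic, h1])
    refine h2.trans ?_
    rw [move_R (by omega)]
    have h3 := ih (a + 1) (e + 1) (Function.update r j (r j - 1)) (by
      rw [Function.update_self, hc, Nat.add_sub_cancel]) (by omega)
    rw [Function.update_idem, show a + 1 + c = a + (c + 1) by ring,
      show e + 1 + c = e + (c + 1) by ring] at h3
    exact h3

/-- The register is restored. -/
lemma loop2 (γ : M.Γ) (l : M.L) (j : Fin k) (t : List (Sy M.Γ)) (e : ℕ) (r : Fin k → ℕ)
    (he : r j + e ≤ w.length + 1) :
    M.MR w (mc (Mic.rsE γ l j) e r t)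
      (mc (Mic.rs γ l j.succ) 0 (Function.update r j (r j + e)) t) := by
  induction e generalizing r with
  | zero =>
    rw [add_zero, update_self']
    refine one_sty M w (op := Op.none) ?_
    simp [FM.mic, sc_zero, isL_zero]
  | succ e ih =>
    have h1 : isL (sc w (e + 1) r 0) = false := by
      rw [sc_zero]
      exact isL_false w (by omega)
    have h2 := one_mv M w (m := Mic.rsE γ l j) (m' := Mic.rsE γ l j) (op := Op.none)
      (e := e + 1) (p := r) (s := t) (d := Dir.L) (d' := Dir.R) (j := j) (by
        simp [FM.mic, h1])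
    refine h2.trans ?_
    rw [move_R (by omega), move_L, Nat.add_sub_cancel]
    have h3 := ih (Function.update r j (r j + 1)) (by
      rw [Function.update_self]
      omega)
    rw [Function.update_idem, Function.update_self, show r j + 1 + e = r j + (e + 1) by ring] at h3
    exact h3

lemma main (γ : M.Γ) (l : M.L) (p q : Fin k → ℕ) (hp : ∀ i, p i ≤ w.length + 1)
    (s : List (Sy M.Γ)) (d : ℕ) (n : ℕ) (hn : n + d = k)
    (h1 : ∀ i : Fin k, n ≤ i.val → p i = q i) :
    M.MR w (mc (Mic.rs γ l ⟨n, by omega⟩) 0 p (dig q n ++ s))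
      (mc (Mic.run l) 0 p (Sy.lab γ :: (dig q k ++ s))) := by
  induction d generalizing n with
  | zero =>
    have hk : n = k := by omega
    subst hk
    refine one_sty M w (op := Op.push (Sy.lab γ)) ?_
    simp [FM.mic]
  | succ d ih =>
    have hk : n < k := by omega
    have e1 := one_sty M w (m := Mic.rs γ l ⟨n, by omega⟩) (m' := Mic.rsD γ l ⟨n, hk⟩)
      (op := Op.push Sy.hash) (e := 0) (p := p) (s := dig q n ++ s) (by
        simp [FM.mic, hk])
    refine e1.trans ?_
    have e2 := loop1 M w γ l ⟨n, hk⟩ (Sy.hash :: (dig q n ++ s)) (p ⟨n, hk⟩) 0 0 p rfl (by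
      rw [zero_add]
      exact hp _)
    rw [zero_add, h1 ⟨n, hk⟩ (le_refl _), ← dig_succ q n hk, ← h1 ⟨n, hk⟩ (le_refl _)] at e2
    refine Relation.ReflTransGen.trans e2 ?_
    have e3 := loop2 M w γ l ⟨n, hk⟩ (dig q (n + 1) ++ s) (p ⟨n, hk⟩)
      (Function.update p ⟨n, hk⟩ 0) (by
        rw [Function.update_self, zero_add]
        exact hp _)
    rw [Function.update_idem, Function.update_self, zero_add, update_self'] at e3
    exact e3.trans (ih (n + 1) (by omega) fun i hi => h1 i (by omega))

end RS

theorem t_RS : S_RS := by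
  intro α k M w γ l p q s n hp h
  have hn := n.isLt
  exact RS.main M w γ l p q hp s (k - n.val) n.val (by omega) h

end Pool.Agent.AFH
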