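import Pool.Agent.AFH.St
import Pool.Agent.AFH.Bas

/-!
Module SCN: the search for the node after `v i`.
-/

set_option autoImplicit false

namespace Pool.Agent.AFH

open Pool.Agent.Heads

namespace SCN

variable {α : Type} {k : ℕ} {S : LS α k} {w : List α}

/-- The goal of the search, from the configuration `X`. -/
def G (l : S.Listing w) (i : ℕ) (stk : List (Frm S.Q k S.M × (Fin k → ℕ)))
    (X : FC S.fm.L S.fm.Γ k) : Prop :=
  (i + 1 < l.R → S.fm.Run w X ⟨Lab.ret (l.v (i + 1)).1, (l.v (i + 1)).2, stk⟩) ∧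
  (i + 1 = l.R → ∃ p, S.fm.Run w X ⟨Lab.retE, p, stk⟩)

theorem G.run {l : S.Listing w} {i : ℕ} {stk : List (Frm S.Q k S.M × (Fin k → ℕ))}
    {X Y : FC S.fm.L S.fm.Γ k} (h : S.fm.Run w X Y) (h' : G l i stk Y) : G l i stk X := by
  refine ⟨fun h1 => h.trans (h'.1 h1), fun h1 => ?_⟩
  obtain ⟨p, h2⟩ := h'.2 h1
  exact ⟨p, h.trans h2⟩

/-! ### steps -/

theorem stp_of {X Y : FC S.fm.L S.fm.Γ k} {I : Ins S.fm.L S.fm.Γ k} (h : S.fm.ins w X = I)
    (h' : I.exec (w.length + 1) X.reg X.stk = some Y) : S.fm.Stp w X Y := by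
  unfold FM.Stp
  rw [h]
  exact h'

theorem step_go {q : S.Q} {c : S.Q} {y p : Fin k → ℕ} {m : Fin (S.M + 1)}
    {stk : List (Frm S.Q k S.M × (Fin k → ℕ))} (h : m.val < S.M)
    (hO : Ok (w.length + 1) y (S.off m).2) :
    S.fm.Stp w ⟨Lab.scan q m, y, (Frm.B c, p) :: stk⟩
      ⟨Lab.cnd q ⟨m.val, h⟩, mvs (w.length + 1) y (S.off m).2, (Frm.B c, p) :: stk⟩ := by
  refine stp_of (I := Ins.go (S.off m).2 (Lab.cnd q ⟨m.val, h⟩)) ?_ rfl
  show S.prog (Lab.scan q m) (fun i => tape w (y i)) (some (Frm.B c)) = _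
  unfold LS.prog
  simp only
  rw [dif_pos h, if_pos (okx_iff.2 hO)]
  rfl

theorem step_skip {q : S.Q} {c : S.Q} {y p : Fin k → ℕ} {m : Fin (S.M + 1)}
    {stk : List (Frm S.Q k S.M × (Fin k → ℕ))} (h : m.val < S.M)
    (hO : ¬ Ok (w.length + 1) y (S.off m).2) :
    S.fm.Stp w ⟨Lab.scan q m, y, (Frm.B c, p) :: stk⟩
      ⟨Lab.scan q ⟨m.val + 1, Nat.succ_lt_succ h⟩, y, (Frm.B c, p) :: stk⟩ := by
  refine stp_of (I := Ins.go Stay (Lab.scan q ⟨m.val + 1, Nat.succ_lt_succ h⟩)) ?_ rfl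
  show S.prog (Lab.scan q m) (fun i => tape w (y i)) (some (Frm.B c)) = _
  unfold LS.prog
  simp only
  rw [dif_pos h, if_neg (fun h1 => hO (okx_iff.1 h1))]
  rfl

theorem step_cnd {q : S.Q} {y : Fin k → ℕ} {m : Fin S.M}
    {stk : List (Frm S.Q k S.M × (Fin k → ℕ))} :
    S.fm.Stp w ⟨Lab.cnd q m, y, stk⟩
      ⟨Lab.fnd S.q0 0, fun _ => 0,
        (Frm.C (S.off m).1 (S.tr w ((S.off m).1, y)) q m, y) :: stk⟩ :=
  stp_of (I := Ins.push (Frm.C (S.off m).1 (S.tr w ((S.off m).1, y)) q m) (Lab.fnd S.q0 0)) rfl rfl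

theorem step_new1 {y : Fin k → ℕ} {m : Fin S.M} {f : Frm S.Q k S.M × (Fin k → ℕ)}
    {stk : List (Frm S.Q k S.M × (Fin k → ℕ))} :
    S.fm.Stp w ⟨Lab.new1 m, y, f :: stk⟩ ⟨Lab.new2 m, y, stk⟩ :=
  stp_of (I := Ins.drop (Lab.new2 m)) rfl rfl

theorem step_new2 {y : Fin k → ℕ} {m : Fin S.M} {f : Frm S.Q k S.M × (Fin k → ℕ)}
    {stk : List (Frm S.Q k S.M × (Fin k → ℕ))} :
    S.fm.Stp w ⟨Lab.new2 m, y, f :: stk⟩ ⟨Lab.new3 m, y, stk⟩ :=
  stp_of (I := Ins.drop (Lab.new3 m)) rfl rfl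

theorem step_new3 {y : Fin k → ℕ} {m : Fin S.M}
    {stk : List (Frm S.Q k S.M × (Fin k → ℕ))} :
    S.fm.Stp w ⟨Lab.new3 m, y, stk⟩
      ⟨Lab.ret (S.off m).1, mvs (w.length + 1) y (S.off m).2, stk⟩ :=
  stp_of (I := Ins.go (S.off m).2 (Lab.ret (S.off m).1)) rfl rfl

theorem step_old {q : S.Q} {y : Fin k → ℕ} {m : Fin S.M}
    {stk : List (Frm S.Q k S.M × (Fin k → ℕ))} :
    S.fm.Stp w ⟨Lab.old q m, y, stk⟩
      ⟨Lab.scan q m.succ, mvs (w.length + 1) y (opv (S.off m).2), stk⟩ :=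
  stp_of (I := Ins.go (opv (S.off m).2) (Lab.scan q m.succ)) rfl rfl

theorem step_fin {y : Fin k → ℕ} {f : Frm S.Q k S.M × (Fin k → ℕ)}
    {stk : List (Frm S.Q k S.M × (Fin k → ℕ))} :
    S.fm.Stp w ⟨Lab.fin, y, f :: stk⟩ ⟨Lab.retE, y, stk⟩ :=
  stp_of (I := Ins.drop Lab.retE) rfl rfl

theorem step_ret {q c : S.Q} {y p : Fin k → ℕ}
    {stk : List (Frm S.Q k S.M × (Fin k → ℕ))} :
    S.fm.Stp w ⟨Lab.ret q, y, (Frm.B c, p) :: stk⟩ ⟨Lab.scan q 0, y, (Frm.B c, p) :: stk⟩ :=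
  stp_of (I := Ins.go Stay (Lab.scan q 0)) rfl rfl

theorem step_eq {q : S.Q} {y : Fin k → ℕ} {m : Fin (S.M + 1)}
    {stk : List (Frm S.Q k S.M × (Fin k → ℕ))} (h : ¬ m.val < S.M) :
    S.fm.Stp w ⟨Lab.scan q m, y, (Frm.B q, y) :: stk⟩ ⟨Lab.fin, y, (Frm.B q, y) :: stk⟩ := by
  refine stp_of (I := Ins.test Lab.fin (Lab.next q)) ?_ ?_
  · show S.prog (Lab.scan q m) (fun i => tape w (y i)) (some (Frm.B q)) = _
    unfold LS.prog
    simp only
    rw [dif_neg h, if_pos trivial]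
    rfl
  · show some (FC.mk (if y = y then Lab.fin else Lab.next q) y ((Frm.B q, y) :: stk)) = _
    rw [if_pos rfl]
    rfl

theorem step_ne {q c : S.Q} {y p : Fin k → ℕ} {m : Fin (S.M + 1)}
    {stk : List (Frm S.Q k S.M × (Fin k → ℕ))} (h : ¬ m.val < S.M) (hne : (q, y) ≠ (c, p)) :
    S.fm.Stp w ⟨Lab.scan q m, y, (Frm.B c, p) :: stk⟩
      ⟨Lab.next q, y, (Frm.B c, p) :: stk⟩ := by
  by_cases hq : q = c
  · subst hq
    refine stp_of (I := Ins.test Lab.fin (Lab.next q)) ?_ ?_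
    · show S.prog (Lab.scan q m) (fun i => tape w (y i)) (some (Frm.B q)) = _
      unfold LS.prog
      simp only
      rw [dif_neg h, if_pos trivial]
      rfl
    · show some (FC.mk (if y = p then Lab.fin else Lab.next q) y ((Frm.B q, p) :: stk)) = _
      rw [if_neg (fun h1 => hne (by rw [h1]))]
      rfl
  · refine stp_of (I := Ins.go Stay (Lab.next q)) ?_ rfl
    show S.prog (Lab.scan q m) (fun i => tape w (y i)) (some (Frm.B c)) = _
    unfold LS.prog
    simp only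
    rw [dif_neg h, if_neg hq]
    rfl

/-! ### the search -/

theorem main (hFDC : S_FDC) (l : S.Listing w) {i : ℕ}
    (stk : List (Frm S.Q k S.M × (Fin k → ℕ))) (hi : i < l.R)
    (hN : ∀ a < i, NextOK S w l a) : ∀ d j : ℕ, j + d = i → ∀ e : ℕ, ∀ m : Fin (S.M + 1),
      m.val + e = S.M → l.pos j m = i + 1 →
      G l i stk ⟨Lab.scan (l.v j).1 m, (l.v j).2, (Frm.B (l.v i).1, (l.v i).2) :: stk⟩ := by
  intro d
  induction d with
  | zero =>
    intro j hj e
    obtain rfl : j = i := by omega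
    induction e with
    | zero =>
      intro m hm hpos
      have h1 : ¬ m.val < S.M := by omega
      have h2 : ¬ j + 1 < l.R := by
        intro h3
        have h4 := l.pos_gt (j + 1) h3
        have h5 := l.pos_stage j hi
        have h6 : m.val = S.M := by omega
        rw [h6] at hpos
        omega
      refine ⟨fun h => absurd h h2, fun _ => ⟨(l.v j).2, ?_⟩⟩
      exact FM.Run.head (step_eq h1) (FM.Run.head step_fin (FM.Run.refl _))
    | succ e ih =>
      intro m hm hpos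
      exact inner hFDC l stk hi hN hi (le_refl j) hpos (by omega)
        (fun h1 h2 => ih _ (by simp only; omega) h2)
  | succ d ihd =>
    intro j hj e
    have hji : j < i := by omega
    have hjR : j < l.R := by omega
    induction e with
    | zero =>
      intro m hm hpos
      have h1 : ¬ m.val < S.M := by omega
      have h2 : l.v j ≠ l.v i := fun h => by
        have := l.inj j hjR i hi h
        omega
      have h3 := (hN j hji ((Frm.B (l.v i).1, (l.v i).2) :: stk)).1 (by omega)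
      have h4 : l.pos (j + 1) (0 : Fin (S.M + 1)) = i + 1 := by
        have h5 := l.pos_stage j hjR
        have h6 : m.val = S.M := by omega
        rw [h6] at hpos
        simp only [Fin.val_zero]
        omega
      have h5 := ihd (j + 1) (by omega) S.M 0 (by simp) h4
      exact G.run ((FM.Run.head (step_ne h1 h2) h3).trans (FM.Run.head step_ret (FM.Run.refl _))) h5
    | succ e ih =>
      intro m hm hpos
      exact inner hFDC l stk hi hN hjR hji.le hpos (by omega)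
        (fun h1 h2 => ih _ (by simp only; omega) h2)
where
  inner (hFDC : S_FDC) (l : S.Listing w) {i j : ℕ}
    (stk : List (Frm S.Q k S.M × (Fin k → ℕ))) (hi : i < l.R)
    (hN : ∀ a < i, NextOK S w l a) (hjR : j < l.R) (hji : j ≤ i) {m : Fin (S.M + 1)}
    (hpos : l.pos j m = i + 1) (hm : m.val < S.M)
    (ih : ∀ h : m.val + 1 < S.M + 1, l.pos j (m.val + 1) = i + 1 →
      G l i stk ⟨Lab.scan (l.v j).1 ⟨m.val + 1, h⟩, (l.v j).2,
        (Frm.B (l.v i).1, (l.v i).2) :: stk⟩) :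
      G l i stk ⟨Lab.scan (l.v j).1 m, (l.v j).2, (Frm.B (l.v i).1, (l.v i).2) :: stk⟩ := by
    by_cases hO : Ok (w.length + 1) (l.v j).2 (S.off m).2
    · set c : S.Node := ((S.off m).1, mvs (w.length + 1) (l.v j).2 (S.off m).2) with hc
      have hC : S.Cand w (l.v j) m c := ⟨hm, hO, rfl⟩
      obtain ⟨hf1, hf2⟩ := hFDC S w l j ⟨m.val, hm⟩ c ((Frm.B (l.v i).1, (l.v i).2) :: stk) hjR hC
        (fun a ha => hN a (by omega))
      have hrun : S.fm.Run w
          ⟨Lab.scan (l.v j).1 m, (l.v j).2, (Frm.B (l.v i).1, (l.v i).2) :: stk⟩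
          ⟨Lab.fnd S.q0 0, fun _ => 0, (Frm.C c.1 (S.tr w c) (l.v j).1 ⟨m.val, hm⟩, c.2) ::
            (Frm.B (l.v i).1, (l.v i).2) :: stk⟩ :=
        FM.Run.head (step_go hm hO) (FM.Run.head step_cnd (FM.Run.refl _))
      by_cases hnew : S.New w {d | ∃ a < j, l.v a = d} (l.v j) c
      · obtain ⟨f, h1⟩ := hf1 hnew
        obtain ⟨h2, h3, h4⟩ := l.pos_new j hjR m c hC hnew
        rw [hpos] at h3 h4
        refine ⟨fun _ => ?_, fun h5 => by omega⟩
        rw [h4]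
        exact (hrun.trans h1).trans (FM.Run.head step_new1 (FM.Run.head step_new2
          (FM.Run.head step_new3 (FM.Run.refl _))))
      · have h1 := hf2 hnew
        have h2 := l.pos_old j hjR m hm (fun c' hc' => by rw [LS.cand_unique hc' hC]; exact hnew)
        have h3 := ih (Nat.succ_lt_succ hm) (h2.trans hpos)
        obtain ⟨hb1, hb2, hb3⟩ := hC.back (l.bd j hjR)
        refine G.run ((hrun.trans h1).trans (FM.Run.head step_old (FM.Run.refl _))) ?_
        have h4 : mvs (w.length + 1) c.2 (opv (S.off (⟨m.val, hm⟩ : Fin S.M)).2) = (l.v j).2 :=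
          hb2.symm
        rw [h4]
        exact h3
    · have h2 := l.pos_old j hjR m hm (fun c' hc' => absurd hc'.2.1 hO)
      have h3 := ih (Nat.succ_lt_succ hm) (h2.trans hpos)
      exact G.run (FM.Run.head (step_skip hm hO) (FM.Run.refl _)) h3

end SCN

theorem t_SCN (hFDC : S_FDC) : S_SCN := by
  intro α k S w l i j m stk hi hji hpos hN
  exact SCN.main hFDC l stk hi hN (i - j) j (by omega) (S.M - m.val) m (by have := m.2; omega) hpos

end Pool.Agent.AFH
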