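import Pool.Agent.AFH.St

/-!
# Project AFH, module SIM: one step of the frame machine
-/

set_option autoImplicit false

namespace Pool.Agent.AFH

open Pool.Agent.Heads

namespace SIM

variable {α : Type} {k : ℕ}

lemma move_le (N x : ℕ) (d : Dir) (h : x ≤ N) : move N x d ≤ N := by
  cases d
  · exact (Nat.sub_le _ _).trans h
  · exact h
  · exact min_le_right _ _

lemma get_enc {Γ : Type} (S : List (Γ × (Fin k → ℕ))) :
    Sy.get (enc S).head? = S.head?.map Prod.fst := by
  cases S with
  | nil => rfl
  | cons f S => rfl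

lemma pos_sty (N : ℕ) (p : Fin k → ℕ) :
    (fun i => move N ((Fin.cons 0 p : Fin (k + 1) → ℕ) i) ((sty : Fin (k + 1) → Dir) i)) =
      Fin.cons 0 p := by
  funext i
  rfl

lemma pos_go (N : ℕ) (p : Fin k → ℕ) (v : Fin k → Dir) :
    (fun i => move N ((Fin.cons 0 p : Fin (k + 1) → ℕ) i)
      ((Fin.cons Dir.S v : Fin (k + 1) → Dir) i)) =
      Fin.cons 0 (fun i => move N (p i) (v i)) := by
  funext i
  refine Fin.cases ?_ (fun j => ?_) i
  · rfl
  · rfl

/-- the first step, without moves -/
lemma head_sty (M : FM α k) (w : List α) (l : M.L) (p : Fin k → ℕ) (s : List (Sy M.Γ))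
    (m : Mic M.L M.Γ k) (o : Op (Sy M.Γ)) (c : Cfg (Mic M.L M.Γ k) (Fin (k + 1) → ℕ) (Sy M.Γ))
    (h : M.mic (Mic.run l) (fun i => tape w ((Fin.cons 0 p : Fin (k + 1) → ℕ) i)) s.head? =
      some (m, sty, o))
    (h2 : M.MR w (mc m 0 p (o.apply s)) c) : M.MR w (mc (Mic.run l) 0 p s) c := by
  refine Relation.ReflTransGen.head ?_ h2
  refine ⟨(m, sty, o), h, ?_⟩
  unfold mc
  rw [← pos_sty (w.length + 1) p]
  rfl

end SIM

open SIM in
theorem t_SIM (hPU : S_PU) (hPO : S_PO) (hDR : S_DR) (hTE : S_TE) : S_SIM := by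
  intro α k M w c c' hr hS hst
  obtain ⟨l, p, S⟩ := c
  have hst' : (M.prog l (fun i => tape w (p i)) (S.head?.map Prod.fst)).exec (w.length + 1) p S =
      some c' := hst
  have hprog : M.prog l (fun j => tape w ((Fin.cons 0 p : Fin (k + 1) → ℕ) j.succ))
      (Sy.get (enc S).head?) = M.prog l (fun i => tape w (p i)) (S.head?.map Prod.fst) := by
    rw [get_enc]
    rfl
  generalize hI : M.prog l (fun i => tape w (p i)) (S.head?.map Prod.fst) = I at hst' hprog
  have hr' : ∀ i, p i ≤ w.length + 1 := hr
  cases I with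
  | go v l' =>
    have h1 : (⟨l', fun i => move (w.length + 1) (p i) (v i), S⟩ : FC M.L M.Γ k) = c' :=
      Option.some.inj hst'
    subst h1
    refine ⟨fun i => move_le _ _ _ (hr' i), hS, ?_⟩
    refine Relation.ReflTransGen.single ⟨(Mic.run l', Fin.cons Dir.S v, Op.none), ?_, ?_⟩
    · show M.mic (Mic.run l) (fun i => tape w ((Fin.cons 0 p : Fin (k + 1) → ℕ) i))
        (enc S).head? = _
      simp only [FM.mic]
      rw [hprog]
    · unfold mc
      rw [← pos_go (w.length + 1) p v]
      rfl
  | push γ l' =>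
    have h1 : (⟨l', fun _ => 0, (γ, p) :: S⟩ : FC M.L M.Γ k) = c' := Option.some.inj hst'
    subst h1
    refine ⟨fun _ => Nat.zero_le _, ?_, ?_⟩
    · intro f hf i
      rcases List.mem_cons.mp hf with h2 | h2
      · rw [h2]
        exact hr' i
      · exact hS f h2 i
    · refine head_sty M w l p (enc S) (Mic.pu γ l' 0) Op.none _ ?_ ?_
      · simp only [FM.mic]
        rw [hprog]
      · exact hPU M w γ l' p (enc S) hr'
  | pop l' =>
    cases S with
    | nil => cases hst'
    | cons f S =>
      have h1 : (⟨l', f.2, S⟩ : FC M.L M.Γ k) = c' := Option.some.inj hst'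
      subst h1
      have hf : ∀ i, f.2 i ≤ w.length + 1 := hS f List.mem_cons_self
      refine ⟨hf, fun g hg => hS g (List.mem_cons_of_mem _ hg), ?_⟩
      refine head_sty M w l p (enc (f :: S)) (Mic.po l' (Fin.last k)) Op.pop _ ?_ ?_
      · simp only [FM.mic]
        rw [hprog]
      · exact hPO M w l' p f.2 (enc S) hr' hf
  | drop l' =>
    cases S with
    | nil => cases hst'
    | cons f S =>
      have h1 : (⟨l', p, S⟩ : FC M.L M.Γ k) = c' := Option.some.inj hst'
      subst h1
      refine ⟨hr', fun g hg => hS g (List.mem_cons_of_mem _ hg), ?_⟩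
      refine head_sty M w l p (enc (f :: S)) (Mic.dr l' (Fin.last k)) Op.pop _ ?_ ?_
      · simp only [FM.mic]
        rw [hprog]
      · exact hDR M w l' p f.2 (enc S) hr'
  | rel γ l' =>
    cases S with
    | nil => cases hst'
    | cons f S =>
      have h1 : (⟨l', p, (γ, f.2) :: S⟩ : FC M.L M.Γ k) = c' := Option.some.inj hst'
      subst h1
      refine ⟨hr', ?_, ?_⟩
      · intro g hg i
        rcases List.mem_cons.mp hg with h2 | h2
        · rw [h2]
          exact hS f List.mem_cons_self i
        · exact hS g (List.mem_cons_of_mem _ h2) i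
      refine head_sty M w l p (enc (f :: S)) (Mic.rl γ l') Op.pop _ ?_ ?_
      · simp only [FM.mic]
        rw [hprog]
      · refine Relation.ReflTransGen.single ⟨(Mic.run l', sty, Op.push (Sy.lab γ)), rfl, ?_⟩
        unfold mc
        rw [← pos_sty (w.length + 1) p]
        rfl
  | test lt lf =>
    cases S with
    | nil => cases hst'
    | cons f S =>
      classical
      have h1 : (⟨if p = f.2 then lt else lf, p, f :: S⟩ : FC M.L M.Γ k) = c' := by
        have h2 := Option.some.inj hst'
        rw [← h2]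
      subst h1
      have hf : ∀ i, f.2 i ≤ w.length + 1 := hS f List.mem_cons_self
      refine ⟨hr', hS, ?_⟩
      refine head_sty M w l p (enc (f :: S)) (Mic.te f.1 lt lf (Fin.last k)) Op.pop _ ?_ ?_
      · simp only [FM.mic]
        rw [hprog]
        rfl
      · have h2 := hTE M w f.1 lt lf p f.2 (enc S) hr' hf
        have h3 : Op.pop.apply (enc (f :: S)) = dig f.2 k ++ enc S := rfl
        rw [h3]
        exact h2
  | halt => cases hst'

end Pool.Agent.AFH
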