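import Pool.Agent.AFH.MicLib

set_option autoImplicit false

namespace Pool.Agent.AFH

open Pool.Agent.Heads

namespace TE

open ML

variable {α : Type} {k : ℕ} (M : FM α k) (w : List α)

/-- Equal digits: the register is restored and the `hash` is removed. -/
lemma loopE (γ : M.Γ) (lt lf : M.L) (j : Fin k) (t : List (Sy M.Γ)) (e : ℕ) (r : Fin k → ℕ)
    (he : r j + e ≤ w.length + 1) :
    M.MR w (mc (Mic.teE γ lt lf j) e r (Sy.hash :: t))
      (mc (Mic.te γ lt lf j.castSucc) 0 (Function.update r j (r j + e)) t) := by
  induction e generalizing r with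
  | zero =>
    rw [add_zero, update_self']
    refine one_sty M w (op := Op.pop) (s := Sy.hash :: t) ?_
    simp [FM.mic, sc_zero, isL_zero]
  | succ e ih =>
    have h1 : isL (sc w (e + 1) r 0) = false := by
      rw [sc_zero]
      exact isL_false w (by omega)
    have h2 := one_mv M w (m := Mic.teE γ lt lf j) (m' := Mic.teE γ lt lf j) (op := Op.none)
      (e := e + 1) (p := r) (s := Sy.hash :: t) (d := Dir.L) (d' := Dir.R) (j := j) (by
        simp [FM.mic, h1])
    refine h2.trans ?_
    rw [move_R (by omega), move_L, Nat.add_sub_cancel]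
    have h3 := ih (Function.update r j (r j + 1)) (by
      rw [Function.update_self]
      omega)
    rw [Function.update_idem, Function.update_self, show r j + 1 + e = r j + (e + 1) by ring] at h3
    exact h3

/-- Different digits: the register and the digit are restored. -/
lemma loopN (γ : M.Γ) (lf : M.L) (j : Fin k) (t : List (Sy M.Γ)) (e a : ℕ) (r : Fin k → ℕ)
    (he : r j + e ≤ w.length + 1) :
    M.MR w (mc (Mic.teN γ lf j) e r (List.replicate a Sy.one ++ t))
      (mc (Mic.rs γ lf j.succ) 0 (Function.update r j (r j + e))
        (List.replicate (a + e) Sy.one ++ t)) := by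
  induction e generalizing a r with
  | zero =>
    rw [add_zero, update_self', add_zero]
    refine one_sty M w (op := Op.none) ?_
    simp [FM.mic, sc_zero, isL_zero]
  | succ e ih =>
    have h1 : isL (sc w (e + 1) r 0) = false := by
      rw [sc_zero]
      exact isL_false w (by omega)
    have h2 := one_mv M w (m := Mic.teN γ lf j) (m' := Mic.teN γ lf j) (op := Op.push Sy.one)
      (e := e + 1) (p := r) (s := List.replicate a Sy.one ++ t) (d := Dir.L) (d' := Dir.R)
      (j := j) (by simp [FM.mic, h1])
    refine h2.trans ?_
    rw [move_R (by omega), move_L, Nat.add_sub_cancel]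
    have h3 := ih (a + 1) (Function.update r j (r j + 1)) (by
      rw [Function.update_self]
      omega)
    rw [Function.update_idem, Function.update_self, show r j + 1 + e = r j + (e + 1) by ring,
      show a + 1 + e = a + (e + 1) by ring] at h3
    exact h3

/-- The comparison of the digit `j` with the register `j`. -/
lemma loopT (γ : M.Γ) (lt lf : M.L) (j : Fin k) (t : List (Sy M.Γ)) (b e : ℕ) (r : Fin k → ℕ)
    (he : e + r j ≤ w.length + 1) :
    (r j = b → M.MR w (mc (Mic.te γ lt lf j.succ) e r (List.replicate b Sy.one ++ Sy.hash :: t))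
      (mc (Mic.te γ lt lf j.castSucc) 0 (Function.update r j (e + r j)) t)) ∧
    (r j ≠ b → M.MR w (mc (Mic.te γ lt lf j.succ) e r (List.replicate b Sy.one ++ Sy.hash :: t))
      (mc (Mic.rs γ lf j.succ) 0 (Function.update r j (e + r j))
        (List.replicate (b + e) Sy.one ++ Sy.hash :: t))) := by
  induction b generalizing e r with
  | zero =>
    constructor
    · intro h
      have h1 : isL (sc w e r j.succ) = true := by rw [sc_succ, h, isL_zero]
      have h2 := one_sty M w (m := Mic.te γ lt lf j.succ) (m' := Mic.teE γ lt lf j) (op := Op.none)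
        (e := e) (p := r) (s := Sy.hash :: t) (by
          simp [FM.mic, Fin.succ_ne_zero, h1])
      refine h2.trans ?_
      have h3 := loopE M w γ lt lf j t e r (by omega)
      rw [add_comm (r j) e] at h3
      exact h3
    · intro h
      have h1 : isL (sc w e r j.succ) = false := by
        rw [sc_succ]
        exact isL_false w h
      have h2 := one_sty M w (m := Mic.te γ lt lf j.succ) (m' := Mic.teN γ lf j) (op := Op.none)
        (e := e) (p := r) (s := Sy.hash :: t) (by
          simp [FM.mic, Fin.succ_ne_zero, h1])
      refine h2.trans ?_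
      have h3 := loopN M w γ lf j (Sy.hash :: t) e 0 r (by omega)
      rw [add_comm (r j) e] at h3
      exact h3
  | succ b ih =>
    rcases Nat.eq_zero_or_pos (r j) with h0 | h0
    · refine ⟨fun h => by omega, fun _ => ?_⟩
      have h1 : isL (sc w e r j.succ) = true := by rw [sc_succ, h0, isL_zero]
      have h2 := one_sty M w (m := Mic.te γ lt lf j.succ) (m' := Mic.teN γ lf j) (op := Op.none)
        (e := e) (p := r) (s := List.replicate (b + 1) Sy.one ++ Sy.hash :: t) (by
          simp [FM.mic, Fin.succ_ne_zero, h1, List.replicate_succ])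
      refine h2.trans ?_
      have h3 := loopN M w γ lf j (Sy.hash :: t) e (b + 1) r (by omega)
      rw [add_comm (r j) e] at h3
      exact h3
    · have h1 : isL (sc w e r j.succ) = false := by
        rw [sc_succ]
        exact isL_false w (by omega)
      have h2 := one_mv M w (m := Mic.te γ lt lf j.succ) (m' := Mic.te γ lt lf j.succ)
        (op := Op.pop) (e := e) (p := r) (s := List.replicate (b + 1) Sy.one ++ Sy.hash :: t)
        (d := Dir.R) (d' := Dir.L) (j := j) (by
          simp [FM.mic, Fin.succ_ne_zero, h1, List.replicate_succ])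
      rw [move_R (by omega), move_L] at h2
      obtain ⟨i1, i2⟩ := ih (e + 1) (Function.update r j (r j - 1)) (by
        rw [Function.update_self]
        omega)
      rw [Function.update_self, Function.update_idem, show e + 1 + (r j - 1) = e + r j by omega]
        at i1 i2
      refine ⟨fun h => h2.trans (i1 (by omega)), fun h => h2.trans ?_⟩
      have h3 := i2 (by omega)
      rw [show b + (e + 1) = b + 1 + e by ring] at h3
      exact h3

open Classical in
lemma main (hRS : S_RS) (γ : M.Γ) (lt lf : M.L) (p q : Fin k → ℕ)
    (hp : ∀ i, p i ≤ w.length + 1) (s : List (Sy M.Γ)) (n : ℕ) (hn : n < k + 1)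
    (h : ∀ i : Fin k, n ≤ i.val → p i = q i) :
    M.MR w (mc (Mic.te γ lt lf ⟨n, hn⟩) 0 p (dig q n ++ s))
      (mc (Mic.run (if p = q then lt else lf)) 0 p (Sy.lab γ :: (dig q k ++ s))) := by
  induction n with
  | zero =>
    have h1 : p = q := funext fun i => h i (Nat.zero_le _)
    rw [if_pos h1]
    have h2 := one_sty M w (m := Mic.te γ lt lf ⟨0, hn⟩) (m' := Mic.rs γ lt 0) (op := Op.none)
      (e := 0) (p := p) (s := dig q 0 ++ s) (by simp [FM.mic])
    exact h2.trans (hRS M w γ lt p q s 0 hp fun i _ => congrFun h1 i)
  | succ n ih =>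
    have hk : n < k := by omega
    rw [dig_succ q n hk]
    obtain ⟨l1, l2⟩ := loopT M w γ lt lf ⟨n, hk⟩ (dig q n ++ s) (q ⟨n, hk⟩) 0 p (by
      rw [zero_add]
      exact hp _)
    rw [zero_add, update_self'] at l1 l2
    by_cases hj : p ⟨n, hk⟩ = q ⟨n, hk⟩
    · refine (l1 hj).trans (ih (by omega) fun i hi => ?_)
      rcases Nat.lt_or_ge n i.val with h' | h'
      · exact h i h'
      · have : i = ⟨n, hk⟩ := Fin.ext (by simp only; omega)
        rw [this, hj]
    · have hne : p ≠ q := fun h' => hj (congrFun h' _)
      rw [if_neg hne]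
      refine Relation.ReflTransGen.trans (l2 hj) ?_
      rw [add_zero, ← dig_succ q n hk]
      exact hRS M w γ lf p q s ⟨n + 1, hn⟩ hp h

end TE

theorem t_TE (hRS : S_RS) : S_TE := by
  intro α k M w γ lt lf p q s hp _
  exact TE.main M w hRS γ lt lf p q hp s k (by omega) (fun i hi => by omega)

end Pool.Agent.AFH
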