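import Pool.Agent.AFH.Bas

/-!
Module TOP: the whole program.
-/

set_option autoImplicit false

namespace Pool.Agent.AFH

open Pool.Agent.Heads

namespace TOP

variable {α : Type} {k : ℕ} {S : LS α k} {w : List α}

/-! ### steps -/

theorem step_acc {q : S.Q} {p : Fin k → ℕ} (h : ((q, p) : S.Node) = (S.start, fun _ => 0)) :
    S.fm.Stp w ⟨Lab.main q, p, []⟩ ⟨Lab.acc, p, []⟩ := by
  have h3 : S.fm.ins w ⟨Lab.main q, p, []⟩ = Ins.go Stay Lab.acc := by
    show S.prog (Lab.main q) (fun i => tape w (p i)) none = _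
    have h1 := congrArg Prod.fst h
    have h2 := congrArg Prod.snd h
    simp only at h1 h2
    have h4 : q = S.start ∧ ∀ i, (fun i => tape w (p i)) i = Sym.left := by
      refine ⟨h1, fun i => ?_⟩
      rw [h2]
      rfl
    unfold LS.prog
    exact if_pos h4
  unfold FM.Stp
  rw [h3]
  rfl

theorem step_next {q : S.Q} {p : Fin k → ℕ} (h : ((q, p) : S.Node) ≠ (S.start, fun _ => 0)) :
    S.fm.Stp w ⟨Lab.main q, p, []⟩ ⟨Lab.next q, p, []⟩ := by
  have h3 : S.fm.ins w ⟨Lab.main q, p, []⟩ = Ins.go Stay (Lab.next q) := by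
    show S.prog (Lab.main q) (fun i => tape w (p i)) none = _
    have h4 : ¬ (q = S.start ∧ ∀ i, (fun i => tape w (p i)) i = Sym.left) := by
      rintro ⟨h1, h2⟩
      apply h
      refine Prod.ext h1 (funext fun i => ?_)
      exact tape_eq_left.1 (h2 i)
    unfold LS.prog
    exact if_neg h4
  unfold FM.Stp
  rw [h3]
  rfl

theorem step_ret {q : S.Q} {p : Fin k → ℕ} :
    S.fm.Stp w ⟨Lab.ret q, p, []⟩ ⟨Lab.main q, p, []⟩ := by
  have h3 : S.fm.ins w ⟨Lab.ret q, p, []⟩ = Ins.go Stay (Lab.main q) := by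
    show S.prog (Lab.ret q) (fun i => tape w (p i)) none = _
    unfold LS.prog
    rfl
  unfold FM.Stp
  rw [h3]
  rfl

theorem step_retE {p : Fin k → ℕ} :
    S.fm.Stp w ⟨Lab.retE, p, []⟩ ⟨Lab.rej, p, []⟩ := by
  have h3 : S.fm.ins w ⟨Lab.retE, p, []⟩ = Ins.go Stay Lab.rej := by
    show S.prog Lab.retE (fun i => tape w (p i)) none = _
    unfold LS.prog
    rfl
  unfold FM.Stp
  rw [h3]
  rfl

/-! ### the run -/

theorem reach (hNXT : S_NXT) (l : S.Listing w) : ∀ i, i < l.R →
    (∀ j < i, l.v j ≠ (S.start, fun _ => 0)) →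
    S.fm.Run w S.fm.init ⟨Lab.main (l.v i).1, (l.v i).2, []⟩ := by
  intro i
  induction i with
  | zero =>
    intro _ _
    rw [l.v_zero]
    exact FM.Run.refl _
  | succ i ih =>
    intro hi hj
    have h1 := ih (by omega) (fun j hj' => hj j (by omega))
    have h2 := ((hNXT S w l i (by omega)) []).1 hi
    exact h1.trans (FM.Run.head (step_next (hj i (by omega)))
      (h2.trans (FM.Run.head step_ret (FM.Run.refl _))))

end TOP

open TOP in
theorem t_TOP (hNXT : S_NXT) : S_TOP := by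
  intro α k S w l
  constructor
  · intro hA
    classical
    have hex : ∃ i, i < l.R ∧ l.v i = (S.start, fun _ => 0) := by
      obtain ⟨i, h1, h2⟩ := (l.acc _).1 hA
      exact ⟨i, h1, h2⟩
    have h1 := Nat.find_spec hex
    have h2 := reach hNXT l (Nat.find hex) h1.1 (by
      intro j hj h3
      exact Nat.find_min hex hj ⟨hj.trans h1.1, h3⟩)
    exact ⟨_, _, h2.trans (FM.Run.head (step_acc h1.2) (FM.Run.refl _))⟩
  · intro hA
    have hne : ∀ j < l.R, l.v j ≠ (S.start, fun _ => 0) := by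
      intro j hj h3
      exact hA ((l.acc _).2 ⟨j, hj, h3⟩)
    have hR := l.R_pos
    have h1 : l.R - 1 < l.R := by omega
    have h2 := reach hNXT l (l.R - 1) h1 (fun j hj => hne j (by omega))
    obtain ⟨p, h3⟩ := ((hNXT S w l (l.R - 1) h1) []).2 (by omega)
    exact ⟨p, [], h2.trans (FM.Run.head (step_next (hne _ h1))
      (h3.trans (FM.Run.head step_retE (FM.Run.refl _))))⟩

end Pool.Agent.AFH
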