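import Pool.Agent.AFH.Main
import Pool.Agent.AFH.NP
import Pool.Agent.AFH.P_CMP
import Pool.Agent.AFH.P_DR
import Pool.Agent.AFH.P_FAA
import Pool.Agent.AFH.P_FDA
import Pool.Agent.AFH.P_FDC
import Pool.Agent.AFH.P_LCL
import Pool.Agent.AFH.P_LFI
import Pool.Agent.AFH.P_LND
import Pool.Agent.AFH.P_LPR
import Pool.Agent.AFH.P_LST
import Pool.Agent.AFH.P_NPB
import Pool.Agent.AFH.P_NPE
import Pool.Agent.AFH.P_NPF
import Pool.Agent.AFH.P_NPG
import Pool.Agent.AFH.P_NPR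
import Pool.Agent.AFH.P_NRM
import Pool.Agent.AFH.P_NXT
import Pool.Agent.AFH.P_PO
import Pool.Agent.AFH.P_PU
import Pool.Agent.AFH.P_REL
import Pool.Agent.AFH.P_RS
import Pool.Agent.AFH.P_SCN
import Pool.Agent.AFH.P_SIM
import Pool.Agent.AFH.P_TE
import Pool.Agent.AFH.P_TOP

/-!
The two theorems, with all modules plugged in.
-/

set_option autoImplicit false

namespace Pool.Agent.AFH

open Pool.Agent.Heads

theorem t_MAIN : S_MAIN :=
  main_of (t_CMP (t_SIM t_PU t_PO t_DR (t_TE t_RS))) t_NRM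
    (t_LST t_LPR (t_LND t_LPR) (t_LFI t_LPR (t_LND t_LPR)) (t_LCL t_LPR))
    (t_TOP (t_NXT (t_FDA t_REL) (t_SCN (t_FDC t_REL))))

theorem alternating (α : Type) (k : ℕ) (M : AFA α k) :
    ∃ P : PDA α (k + 1), P.Det ∧ P.lang = M.lang := t_MAIN M

theorem finiteAut (α : Type) (k : ℕ) (M : FA α k) :
    ∃ P : PDA α (k + 1), P.Det ∧ P.lang = M.lang := main_fa t_MAIN t_FAA M

theorem pushdown (α : Type) (k : ℕ) (M : PDA α k) :
    ∃ P : PDA α (3 * k + 1), P.Det ∧ P.lang = M.lang :=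
  np_main t_MAIN t_NPB (t_NPF t_NPE t_NPG) t_NPR M

end Pool.Agent.AFH
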