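import Pool.Agent.AFH.FM

/-!
The pushdown automaton with `k + 1` heads of a frame machine with `k` registers. Head `0` is the
auxiliary head, head `j.succ` is the register `j`. A frame `(γ, p)` is stored as the stack word
`lab γ, 1 ^ p (k - 1), #, …, 1 ^ p 0, #` (top first).
-/

set_option autoImplicit false

namespace Pool.Agent.AFH

open Pool.Agent.Heads

/-- Stack symbols. -/
inductive Sy (Γ : Type) where
  | one
  | hash
  | lab (γ : Γ)

/-- States. In the states with `n : Fin (k + 1)` the digits `< n` are on the stack. -/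
inductive Mic (L Γ : Type) (k : ℕ) where
  | run (l : L)
  /-- store: the digits `< n` are stored -/
  | pu (γ : Γ) (l : L) (n : Fin (k + 1))
  | puD (γ : Γ) (l : L) (j : Fin k)
  /-- load: the digits `≥ n` are loaded -/
  | po (l : L) (n : Fin (k + 1))
  | poD (l : L) (j : Fin k)
  /-- remove -/
  | dr (l : L) (n : Fin (k + 1))
  | rl (γ : Γ) (l : L)
  /-- test: the digits `≥ n` are equal and have been removed -/
  | te (γ : Γ) (lt lf : L) (n : Fin (k + 1))
  /-- the digit `j` is equal: restore the head -/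
  | teE (γ : Γ) (lt lf : L) (j : Fin k)
  /-- the digit `j` is not equal: restore the head and the digit -/
  | teN (γ : Γ) (lf : L) (j : Fin k)
  /-- restore the digits `≥ n` from the registers -/
  | rs (γ : Γ) (l : L) (n : Fin (k + 1))
  | rsD (γ : Γ) (l : L) (j : Fin k)
  | rsE (γ : Γ) (l : L) (j : Fin k)

variable {α : Type} {k : ℕ}

open Classical in
/-- Moves of the auxiliary head (`e`) and of the head `j` (`d`). -/
noncomputable def mv2 (e : Dir) (j : Fin k) (d : Dir) : Fin (k + 1) → Dir :=
  Fin.cons e (Function.update (fun _ => Dir.S) j d)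

/-- No head moves. -/
def sty : Fin (k + 1) → Dir := fun _ => Dir.S

/-- The label on top of the stack. -/
def Sy.get {Γ : Type} : Option (Sy Γ) → Option Γ
  | some (Sy.lab γ) => some γ
  | _ => none

/-- Is it the left endmarker? -/
def isL : Sym α → Bool
  | Sym.left => true
  | _ => false

/-- The transition function. -/
noncomputable def FM.mic (M : FM α k) : Mic M.L M.Γ k → (Fin (k + 1) → Sym α) → Option (Sy M.Γ) →
    Option (Mic M.L M.Γ k × (Fin (k + 1) → Dir) × Op (Sy M.Γ))
  | Mic.run l, x, g =>
      match M.prog l (fun j => x j.succ) (Sy.get g) with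
      | Ins.go v l' => some (Mic.run l', Fin.cons Dir.S v, Op.none)
      | Ins.push γ l' => some (Mic.pu γ l' 0, sty, Op.none)
      | Ins.pop l' => some (Mic.po l' (Fin.last k), sty, Op.pop)
      | Ins.drop l' => some (Mic.dr l' (Fin.last k), sty, Op.pop)
      | Ins.rel γ l' => some (Mic.rl γ l', sty, Op.pop)
      | Ins.test lt lf => match Sy.get g with
        | some γ => some (Mic.te γ lt lf (Fin.last k), sty, Op.pop)
        | none => none
      | Ins.halt => none
  | Mic.pu γ l n, _, _ =>
      if h : n.val < k then some (Mic.puD γ l ⟨n.val, h⟩, sty, Op.push Sy.hash)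
      else some (Mic.run l, sty, Op.push (Sy.lab γ))
  | Mic.puD γ l j, x, _ =>
      if isL (x j.succ) then some (Mic.pu γ l j.succ, sty, Op.none)
      else some (Mic.puD γ l j, mv2 Dir.S j Dir.L, Op.push Sy.one)
  | Mic.po l n, x, _ =>
      if h : n = 0 then some (Mic.run l, sty, Op.none)
      else if isL (x (n.pred h).succ) then some (Mic.poD l (n.pred h), sty, Op.none)
      else some (Mic.po l n, mv2 Dir.S (n.pred h) Dir.L, Op.none)
  | Mic.poD l j, _, g =>
      match g with
      | some Sy.one => some (Mic.poD l j, mv2 Dir.S j Dir.R, Op.pop)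
      | some Sy.hash => some (Mic.po l j.castSucc, sty, Op.pop)
      | _ => none
  | Mic.dr l n, _, g =>
      if h : n = 0 then some (Mic.run l, sty, Op.none)
      else match g with
      | some Sy.one => some (Mic.dr l n, sty, Op.pop)
      | some Sy.hash => some (Mic.dr l (n.pred h).castSucc, sty, Op.pop)
      | _ => none
  | Mic.rl γ l, _, _ => some (Mic.run l, sty, Op.push (Sy.lab γ))
  | Mic.te γ lt lf n, x, g =>
      if h : n = 0 then some (Mic.rs γ lt 0, sty, Op.none)
      else match g, isL (x (n.pred h).succ) with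
      | some Sy.one, false => some (Mic.te γ lt lf n, mv2 Dir.R (n.pred h) Dir.L, Op.pop)
      | some Sy.hash, true => some (Mic.teE γ lt lf (n.pred h), sty, Op.none)
      | _, _ => some (Mic.teN γ lf (n.pred h), sty, Op.none)
  | Mic.teE γ lt lf j, x, _ =>
      if isL (x 0) then some (Mic.te γ lt lf j.castSucc, sty, Op.pop)
      else some (Mic.teE γ lt lf j, mv2 Dir.L j Dir.R, Op.none)
  | Mic.teN γ lf j, x, _ =>
      if isL (x 0) then some (Mic.rs γ lf j.succ, sty, Op.none)
      else some (Mic.teN γ lf j, mv2 Dir.L j Dir.R, Op.push Sy.one)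
  | Mic.rs γ l n, _, _ =>
      if h : n.val < k then some (Mic.rsD γ l ⟨n.val, h⟩, sty, Op.push Sy.hash)
      else some (Mic.run l, sty, Op.push (Sy.lab γ))
  | Mic.rsD γ l j, x, _ =>
      if isL (x j.succ) then some (Mic.rsE γ l j, sty, Op.none)
      else some (Mic.rsD γ l j, mv2 Dir.R j Dir.L, Op.push Sy.one)
  | Mic.rsE γ l j, x, _ =>
      if isL (x 0) then some (Mic.rs γ l j.succ, sty, Op.none)
      else some (Mic.rsE γ l j, mv2 Dir.L j Dir.R, Op.none)

/-- One step of the pushdown automaton, for the positions `e` of the auxiliary head and `p` of the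
registers. -/
def FM.MS (M : FM α k) (w : List α) (c c' : Cfg (Mic M.L M.Γ k) (Fin (k + 1) → ℕ) (Sy M.Γ)) : Prop :=
  ∃ t, M.mic c.state (fun i => tape w (c.pos i)) c.stack.head? = some t ∧
    c' = ⟨t.1, fun i => move (w.length + 1) (c.pos i) (t.2.1 i), t.2.2.apply c.stack⟩

/-- Runs of the pushdown automaton. -/
def FM.MR (M : FM α k) (w : List α) :
    Cfg (Mic M.L M.Γ k) (Fin (k + 1) → ℕ) (Sy M.Γ) →
    Cfg (Mic M.L M.Γ k) (Fin (k + 1) → ℕ) (Sy M.Γ) → Prop := Relation.ReflTransGen (M.MS w)

/-- A configuration with the auxiliary head on cell `e` and the registers `p`. -/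
def mc {L Γ : Type} (m : Mic L Γ k) (e : ℕ) (p : Fin k → ℕ) (s : List (Sy Γ)) :
    Cfg (Mic L Γ k) (Fin (k + 1) → ℕ) (Sy Γ) := ⟨m, Fin.cons e p, s⟩

/-- The digits `< n` of `p`, as a stack word. -/
def dig {Γ : Type} (p : Fin k → ℕ) : ℕ → List (Sy Γ)
  | 0 => []
  | n + 1 => if h : n < k then List.replicate (p ⟨n, h⟩) Sy.one ++ Sy.hash :: dig p n else dig p n

/-- The stack word of a list of frames. -/
def enc {Γ : Type} : List (Γ × (Fin k → ℕ)) → List (Sy Γ)
  | [] => []
  | f :: S => Sy.lab f.1 :: (dig f.2 k ++ enc S)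

/-- All numbers in the frames are on the tape. -/
def BdS {Γ : Type} (N : ℕ) (S : List (Γ × (Fin k → ℕ))) : Prop := ∀ f ∈ S, ∀ i, f.2 i ≤ N

end Pool.Agent.AFH
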