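import Pool.Agent.AFH.Prg
import Pool.Agent.AFH.Mic

/-!
Finiteness of the sets of labels, states and stack symbols; the frame machine of a local system.
-/

set_option autoImplicit false

namespace Pool.Agent.AFH

open Pool.Agent.Heads

instance : Finite Dir := Finite.of_injective
    (fun d : Dir => match d with | Dir.L => (0 : Fin 3) | Dir.S => 1 | Dir.R => 2)
    (by intro a b h; cases a <;> cases b <;> simp_all)

theorem finLab (Q : Type) (k M : ℕ) [Finite Q] : Finite (Lab Q k M) := by
  let f : Lab Q k M → Fin 18 × Option Q × Option (Fin (VM k + 1)) × Option (Fin (M + 1)) := fun l =>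
    match l with
    | Lab.main q => (0, some q, none, none)
    | Lab.acc => (1, none, none, none)
    | Lab.rej => (2, none, none, none)
    | Lab.next q => (3, some q, none, none)
    | Lab.ret q => (4, some q, none, none)
    | Lab.retE => (5, none, none, none)
    | Lab.fnd q n => (6, some q, some n, none)
    | Lab.tst q n => (7, some q, some n.castSucc, none)
    | Lab.hit q n => (8, some q, some n.castSucc, none)
    | Lab.mis q n => (9, some q, some n.castSucc, none)
    | Lab.pro q n => (10, some q, some n.castSucc, none)
    | Lab.scan q m => (11, some q, none, some m)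
    | Lab.cnd q m => (12, some q, none, some m.castSucc)
    | Lab.new1 m => (13, none, none, some m.castSucc)
    | Lab.new2 m => (14, none, none, some m.castSucc)
    | Lab.new3 m => (15, none, none, some m.castSucc)
    | Lab.old q m => (16, some q, none, some m.castSucc)
    | Lab.fin => (17, none, none, none)
  refine Finite.of_injective f ?_
  intro a b h
  cases a <;> cases b <;> simp_all [f]

theorem finFrm (Q : Type) (k M : ℕ) [Finite Q] : Finite (Frm Q k M) := by
  let f : Frm Q k M → Fin 3 × Option Q × Option (Set (Q × (Fin k → Dir))) × Option Q × Option (Fin M) :=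
    fun l => match l with
    | Frm.A q T => (0, some q, some T, none, none)
    | Frm.B q => (1, some q, none, none, none)
    | Frm.C q T s m => (2, some q, some T, some s, some m)
  refine Finite.of_injective f ?_
  intro a b h
  cases a <;> cases b <;> simp_all [f]

theorem finSy (Γ : Type) [Finite Γ] : Finite (Sy Γ) := by
  let f : Sy Γ → Option (Option Γ) := fun l => match l with
    | Sy.one => none
    | Sy.hash => some none
    | Sy.lab γ => some (some γ)
  refine Finite.of_injective f ?_
  intro a b h
  cases a <;> cases b <;> simp_all [f]

theorem finMic (L Γ : Type) (k : ℕ) [Finite L] [Finite Γ] : Finite (Mic L Γ k) := by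
  let f : Mic L Γ k → Fin 13 × Option Γ × Option L × Option L × Option (Fin (k + 1)) := fun l =>
    match l with
    | Mic.run l => (0, none, some l, none, none)
    | Mic.pu γ l n => (1, some γ, some l, none, some n)
    | Mic.puD γ l j => (2, some γ, some l, none, some j.castSucc)
    | Mic.po l n => (3, none, some l, none, some n)
    | Mic.poD l j => (4, none, some l, none, some j.castSucc)
    | Mic.dr l n => (5, none, some l, none, some n)
    | Mic.rl γ l => (6, some γ, some l, none, none)
    | Mic.te γ lt lf n => (7, some γ, some lt, some lf, some n)
    | Mic.teE γ lt lf j => (8, some γ, some lt, some lf, some j.castSucc)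
    | Mic.teN γ lf j => (9, some γ, none, some lf, some j.castSucc)
    | Mic.rs γ l n => (10, some γ, some l, none, some n)
    | Mic.rsD γ l j => (11, some γ, some l, none, some j.castSucc)
    | Mic.rsE γ l j => (12, some γ, some l, none, some j.castSucc)
  refine Finite.of_injective f ?_
  intro a b h
  cases a <;> cases b <;> simp_all [f]


/-- The frame machine of a local system. -/
noncomputable def LS.fm {α : Type} {k : ℕ} (S : LS α k) : FM α k where
  L := Lab S.Q k S.M
  Γ := Frm S.Q k S.M
  finL := by have := S.finQ; exact finLab S.Q k S.M
  finΓ := by have := S.finQ; exact finFrm S.Q k S.M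
  start := Lab.main S.q0
  acc := {Lab.acc}
  prog := S.prog

end Pool.Agent.AFH
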