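import Pool.Agent.AFH.Defs

/-!
Local systems: the normal form of alternating automata. The accepting nodes are generated from one
node `(q0, 0)`. The canonical list of the accepting nodes.
-/

set_option autoImplicit false

namespace Pool.Agent.AFH

open Pool.Agent.Heads

variable {k : ℕ}

/-- The positions after the moves `v`. -/
def mvs (N : ℕ) (p : Fin k → ℕ) (v : Fin k → Dir) : Fin k → ℕ := fun i => move N (p i) (v i)

/-- The opposite direction. -/
def opd : Dir → Dir
  | Dir.L => Dir.R
  | Dir.S => Dir.S
  | Dir.R => Dir.L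

/-- The opposite moves. -/
def opv (v : Fin k → Dir) : Fin k → Dir := fun i => opd (v i)

/-- No move without effect. -/
def Stay : Fin k → Dir := fun _ => Dir.S

/-- No move of `v` leaves the tape `0, …, N`. -/
def Ok (N : ℕ) (p : Fin k → ℕ) (v : Fin k → Dir) : Prop :=
  ∀ i, (v i = Dir.L → 0 < p i) ∧ (v i = Dir.R → p i < N)

/-- The same, expressed by the scanned symbols. -/
def Okx {α : Type} (x : Fin k → Sym α) (v : Fin k → Dir) : Prop :=
  ∀ i, (v i = Dir.L → x i ≠ Sym.left) ∧ (v i = Dir.R → x i ≠ Sym.right)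

/-- A local system: universal and existential states, the node `(q0, 0)` is accepting, it has no
successors. -/
structure LS (α : Type) (k : ℕ) where
  Q : Type
  finQ : Finite Q
  q0 : Q
  start : Q
  uni : Set Q
  succ : Q → (Fin k → Sym α) → Set (Q × (Fin k → Dir))
  okx : ∀ q x t, t ∈ succ q x → Okx x t.2
  q0_succ : ∀ x, succ q0 x = ∅

namespace LS

variable {α : Type} (S : LS α k) (w : List α)

/-- Nodes: state and positions. -/
abbrev Node : Type := S.Q × (Fin k → ℕ)

/-- The node with which everything starts. -/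
def a0 : S.Node := (S.q0, fun _ => 0)

/-- The rules for the node `c`. -/
def tr (c : S.Node) : Set (S.Q × (Fin k → Dir)) := S.succ c.1 (fun i => tape w (c.2 i))

/-- The successor of `c` given by `t`. -/
def tgt (c : S.Node) (t : S.Q × (Fin k → Dir)) : S.Node := (t.1, mvs (w.length + 1) c.2 t.2)

/-- The positions are on the tape. -/
def Bd (c : S.Node) : Prop := ∀ i, c.2 i ≤ w.length + 1

/-- `c` is justified by the nodes in `D`. -/
def Just (c : S.Node) (D : Set S.Node) : Prop :=
  (c.1 ∈ S.uni ∧ (S.tr w c).Nonempty ∧ ∀ t ∈ S.tr w c, S.tgt w c t ∈ D) ∨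
  (c.1 ∉ S.uni ∧ ∃ t ∈ S.tr w c, S.tgt w c t ∈ D)

/-- The accepting nodes. -/
inductive Acc : S.Node → Prop
  | base : Acc S.a0
  | step (c : S.Node) (D : Set S.Node) : S.Bd w c → (∀ d ∈ D, Acc d) → S.Just w c D → Acc c

/-- The number of pairs (state, moves). -/
noncomputable def M : ℕ := Nat.card (S.Q × (Fin k → Dir))

/-- An enumeration of the pairs (state, moves). -/
noncomputable def off (m : ℕ) : S.Q × (Fin k → Dir) :=
  have := S.finQ
  have : Finite Dir := Finite.of_injective
    (fun d : Dir => match d with | Dir.L => (0 : Fin 3) | Dir.S => 1 | Dir.R => 2)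
    (by intro a b h; cases a <;> cases b <;> simp_all)
  if h : m < S.M then (Finite.equivFin (S.Q × (Fin k → Dir))).symm ⟨m, h⟩ else (S.q0, Stay)

/-- The node `c` is newly justified at the node `s`, after the nodes in `D`. -/
def New (D : Set S.Node) (s c : S.Node) : Prop := S.Just w c (insert s D) ∧ ¬ S.Just w c D

/-- The candidate number `m` at the node `s` is the node `c`: `c = s + off m`. -/
def Cand (s : S.Node) (m : ℕ) (c : S.Node) : Prop :=
  m < S.M ∧ Ok (w.length + 1) s.2 (S.off m).2 ∧
    c = ((S.off m).1, mvs (w.length + 1) s.2 (S.off m).2)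

open Classical in
/-- The newly justified candidates with the numbers `< m` at the node `s`, after the nodes
in `D`. -/
noncomputable def ext (D : Set S.Node) (s : S.Node) : ℕ → List S.Node
  | 0 => []
  | m + 1 => ext D s m ++ (if ∃ c, S.Cand w s m c ∧ S.New w D s c then
      [((S.off m).1, mvs (w.length + 1) s.2 (S.off m).2)] else [])

/-- The list before the stage `j` (in which the node number `j` of the list is treated). -/
noncomputable def lst : ℕ → List S.Node
  | 0 => [S.a0]
  | j + 1 => match (lst j)[j]? with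
    | none => lst j
    | some s => lst j ++ S.ext w {d | d ∈ (lst j).take j} s S.M

/-- The canonical list `v 0, v 1, …, v (R - 1)` of the accepting nodes: for `j = 0, 1, …` and
`m = 0, …, M - 1` the candidate number `m` at `v j` is appended if it is newly justified by
`v 0, …, v j`. The number of the nodes in the list before the candidate `(j, m)` is considered
is `pos j m`. -/
structure Listing where
  R : ℕ
  v : ℕ → S.Node
  pos : ℕ → ℕ → ℕ
  R_pos : 0 < R
  v_zero : v 0 = S.a0
  inj : ∀ i < R, ∀ j < R, v i = v j → i = j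
  bd : ∀ i < R, S.Bd w (v i)
  acc : ∀ c, S.Acc w c ↔ ∃ i < R, v i = c
  pos_zero : pos 0 0 = 1
  pos_gt : ∀ j < R, j < pos j 0
  pos_stage : ∀ j < R, pos (j + 1) 0 = pos j S.M
  pos_new : ∀ j < R, ∀ m c, S.Cand w (v j) m c → S.New w {d | ∃ a < j, v a = d} (v j) c →
    pos j (m + 1) = pos j m + 1 ∧ pos j m < R ∧ v (pos j m) = c
  pos_old : ∀ j < R, ∀ m < S.M,
    (∀ c, S.Cand w (v j) m c → ¬ S.New w {d | ∃ a < j, v a = d} (v j) c) →
    pos j (m + 1) = pos j m
  par : ∀ i, 0 < i → i < R → ∃ j m, j < i ∧ S.Cand w (v j) m (v i) ∧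
    S.New w {d | ∃ a < j, v a = d} (v j) (v i) ∧ pos j m = i

end LS

end Pool.Agent.AFH
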