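import Pool.Agent.AFH.St

/-!
The main theorem, from the modules.
-/

set_option autoImplicit false

namespace Pool.Agent.AFH

open Pool.Agent.Heads

theorem main_of (hCMP : S_CMP) (hNRM : S_NRM) (hLST : S_LST) (hTOP : S_TOP) : S_MAIN := by
  intro α k M
  obtain ⟨S, hS⟩ := hNRM M
  obtain ⟨P, hdet, h1, h2⟩ := hCMP S.fm (by
    intro l hl x g
    have : l = Lab.acc := hl
    subst this
    rfl)
  refine ⟨P, hdet, ?_⟩
  ext w
  obtain ⟨l⟩ := hLST S w
  obtain ⟨h3, h4⟩ := hTOP S w l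
  constructor
  · intro hw
    rw [← hS w]
    by_contra hcon
    obtain ⟨p, stk, hr⟩ := h4 hcon
    refine h2 w _ hr ?_ rfl hw
    intro h
    have h5 : (Lab.rej : Lab S.Q k S.M) = Lab.acc := h
    cases h5
  · intro hw
    obtain ⟨p, stk, hr⟩ := h3 ((hS w).2 hw)
    exact h1 w _ hr rfl

theorem main_fa (hM : S_MAIN) (hFAA : S_FAA) {α : Type} {k : ℕ} (M : FA α k) :
    ∃ P : PDA α (k + 1), P.Det ∧ P.lang = M.lang := by
  obtain ⟨M', h⟩ := hFAA M
  obtain ⟨P, h1, h2⟩ := hM M'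
  exact ⟨P, h1, h2.trans h⟩

end Pool.Agent.AFH
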