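import Pool.Agent.AFH.Bas

/-!
Steps of the pushdown automaton of a frame machine (lemmas for the modules PU, PO, DR, RS, TE).
-/

set_option autoImplicit false

namespace Pool.Agent.AFH

open Pool.Agent.Heads

namespace ML

variable {α : Type} {k : ℕ} (M : FM α k) (w : List α)

/-- The scanned symbols. -/
def sc (e : ℕ) (p : Fin k → ℕ) : Fin (k + 1) → Sym α :=
  fun i => tape w ((Fin.cons e p : Fin (k + 1) → ℕ) i)

lemma sc_zero (e : ℕ) (p : Fin k → ℕ) : sc w e p 0 = tape w e := rfl

lemma sc_succ (e : ℕ) (p : Fin k → ℕ) (j : Fin k) : sc w e p j.succ = tape w (p j) := rfl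

/-- A step which moves no head. -/
lemma one_sty {m m' : Mic M.L M.Γ k} {op : Op (Sy M.Γ)} {e : ℕ} {p : Fin k → ℕ}
    {s : List (Sy M.Γ)} (h : M.mic m (sc w e p) s.head? = some (m', sty, op)) :
    M.MR w (mc m e p s) (mc m' e p (op.apply s)) := by
  refine Relation.ReflTransGen.single ⟨_, h, ?_⟩
  rfl

/-- A step which moves the auxiliary head and one other head. -/
lemma one_mv {m m' : Mic M.L M.Γ k} {op : Op (Sy M.Γ)} {e : ℕ} {p : Fin k → ℕ}
    {s : List (Sy M.Γ)} {d d' : Dir} {j : Fin k}
    (h : M.mic m (sc w e p) s.head? = some (m', mv2 d j d', op)) :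
    M.MR w (mc m e p s) (mc m' (move (w.length + 1) e d)
      (Function.update p j (move (w.length + 1) (p j) d')) (op.apply s)) := by
  refine Relation.ReflTransGen.single ⟨_, h, ?_⟩
  unfold mc
  congr 1
  funext i
  refine Fin.cases ?_ (fun i => ?_) i
  · rfl
  · simp only [Fin.cons_succ, mv2]
    by_cases hi : i = j
    · subst hi
      simp
    · rw [Function.update_of_ne hi, Function.update_of_ne hi]
      rfl

lemma dig_succ {Γ : Type} (p : Fin k → ℕ) (n : ℕ) (h : n < k) (s : List (Sy Γ)) :
    dig p (n + 1) ++ s = List.replicate (p ⟨n, h⟩) Sy.one ++ Sy.hash :: (dig p n ++ s) := by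
  rw [dig, dif_pos h, List.append_assoc, List.cons_append]

lemma isL_false {p : ℕ} (h : p ≠ 0) : isL (tape w p) = false := by
  by_contra h1
  rw [Bool.not_eq_false] at h1
  exact h (isL_tape.mp h1)

lemma isL_zero : isL (tape w 0) = true := rfl

lemma update_self' (p : Fin k → ℕ) (j : Fin k) : Function.update p j (p j) = p :=
  Function.update_eq_self j p

lemma replicate_one {Γ : Type} (a : ℕ) (t : List (Sy Γ)) :
    Sy.one :: (List.replicate a Sy.one ++ t) = List.replicate (a + 1) Sy.one ++ t := rfl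

end ML

end Pool.Agent.AFH
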