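import Pool.Agent.AFH.NP

/-!
# NPR: from the alternating automaton to the big steps
-/

set_option autoImplicit false

namespace Pool.Agent.AFH

open Pool.Agent.Heads

variable {α : Type} {k : ℕ}

namespace NPR

/-- The meaning of a goal. -/
def Gv (M : PDA α k) (w : List α) : Gl M.Q M.Γ → (Fin (3 * k) → ℕ) → Prop
  | Gl.A γ q a, p => Aa M w γ q (gr p a)
  | Gl.P g q q2 a b, p => a ≠ b → Pp M w g q (gr p a) q2 (gr p b)

/-- The meaning of a state. -/
def Inv (M : PDA α k) (w : List α) : NS M.Q M.Γ → (Fin (3 * k) → ℕ) → Prop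
  | NS.goal s, p => Gv M w s p
  | NS.G c s s', p => ∃ z : Fin (3 * k) → ℕ, (∀ a, a ≠ c → gr z a = gr p a) ∧ Gv M w s z ∧
      Gv M w s' z
  | NS.U s s', p => Gv M w s p ∧ Gv M w s' p
  | NS.E a b, p => gr p a = gr p b
  | NS.acc, _ => True

lemma gr_gmv (N : ℕ) (p : Fin (3 * k) → ℕ) (a : Fin 3) (v : Fin k → Dir) :
    gr (fun h => move N (p h) (gmv a v h)) a = mvs N (gr p a) v := by
  funext i
  simp only [gr, gmv, mvs, Equiv.symm_apply_apply, if_true]

lemma gr_gmv_ne (N : ℕ) (p : Fin (3 * k) → ℕ) {a b : Fin 3} (h : b ≠ a) (v : Fin k → Dir) :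
    gr (fun h => move N (p h) (gmv a v h)) b = gr p b := by
  funext i
  simp only [gr, gmv, Equiv.symm_apply_apply, if_neg h]
  rfl

lemma gr_gml (N : ℕ) (p : Fin (3 * k) → ℕ) {a b c : Fin 3} (h : c = a ∨ c = b) (i : Fin k) :
    gr (fun h => move N (p h) (gml a b h)) c i = gr p c i - 1 := by
  simp only [gr, gml, Equiv.symm_apply_apply, if_pos h]
  rfl

lemma gr_tape (w : List α) (p : Fin (3 * k) → ℕ) (a : Fin 3) :
    gr (fun h => tape w (p h)) a = fun i => tape w (gr p a i) := rfl

lemma fr_ne {a b : Fin 3} (h : a ≠ b) : a ≠ fr a b ∧ fr a b ≠ b := by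
  revert h
  revert a b
  decide

lemma ne_add_one (a : Fin 3) : a ≠ a + 1 := by
  revert a
  decide

theorem main (M : PDA α k) (w : List α) (c : (npA M).Q × (Fin (3 * k) → ℕ))
    (h : (npA M).Wins w c) : Inv M w c.1 c.2 := by
  induction h with
  | final c hc =>
    obtain ⟨s, p⟩ := c
    have hs : s = NS.acc := hc
    subst hs
    trivial
  | some c c' hu hs _ ih =>
    obtain ⟨s, p⟩ := c
    obtain ⟨t, ht, rfl⟩ := hs
    cases s with
    | goal g =>
      cases g with
      | A γ q a =>
        change Aa M w γ q (gr p a)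
        rcases ht with ⟨hq, rfl⟩ | ⟨q', v, hm, rfl⟩ | ⟨q', v, hγ, hm, rfl⟩ | ⟨q', v, g, hm, rfl⟩ |
          ⟨q', v, g, q2, hm, rfl⟩
        · exact Aa.acc hq
        · have ih' : Aa M w γ q' (gr (fun h => move (w.length + 1) (p h) (gmv a v h)) a) := ih
          rw [gr_gmv] at ih'
          exact Aa.none hm ih'
        · have ih' : Aa M w γ q' (gr (fun h => move (w.length + 1) (p h) (gmv a v h)) a) := ih
          rw [gr_gmv] at ih'
          subst hγ
          exact Aa.pop0 hm ih'
        · have ih' : Aa M w (some g) q' (gr (fun h => move (w.length + 1) (p h) (gmv a v h)) a) :=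
            ih
          rw [gr_gmv] at ih'
          exact Aa.push hm ih'
        · obtain ⟨z, hz, h1, h2⟩ := ih
          have h3 : Pp M w g q' (gr z a) q2 (gr z (a + 1)) := h1 (ne_add_one a)
          have h4 : Aa M w γ q2 (gr z (a + 1)) := h2
          have h5 : gr z a = gr (fun h => move (w.length + 1) (p h) (gmv a v h)) a :=
            hz a (ne_add_one a)
          rw [h5, gr_gmv] at h3
          exact Aa.pushpop hm h3 h4
      | P g q q2 a b =>
        intro hab
        rcases ht with ⟨v, hm, rfl⟩ | ⟨q', v, hm, rfl⟩ | ⟨q', v, g', q3, hm, rfl⟩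
        · have ih' : gr (fun h => move (w.length + 1) (p h) (gmv a v h)) a =
              gr (fun h => move (w.length + 1) (p h) (gmv a v h)) b := ih
          rw [gr_gmv, gr_gmv_ne _ _ (Ne.symm hab)] at ih'
          rw [← ih']
          exact Pp.pop hm
        · have ih' : Pp M w g q' (gr (fun h => move (w.length + 1) (p h) (gmv a v h)) a) q2
              (gr (fun h => move (w.length + 1) (p h) (gmv a v h)) b) := ih hab
          rw [gr_gmv, gr_gmv_ne _ _ (Ne.symm hab)] at ih'
          exact Pp.none hm ih'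
        · obtain ⟨z, hz, h1, h2⟩ := ih
          obtain ⟨n1, n2⟩ := fr_ne hab
          have h3 : Pp M w g' q' (gr z a) q3 (gr z (fr a b)) := h1 n1
          have h4 : Pp M w g q3 (gr z (fr a b)) q2 (gr z b) := h2 n2
          have h5 : gr z a = gr (fun h => move (w.length + 1) (p h) (gmv a v h)) a := hz a n1
          have h6 : gr z b = gr (fun h => move (w.length + 1) (p h) (gmv a v h)) b :=
            hz b (Ne.symm n2)
          rw [h5, gr_gmv] at h3
          rw [h6, gr_gmv_ne _ _ (Ne.symm hab)] at h4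
          exact Pp.push hm h3 h4
    | G c s s' =>
      rcases ht with ⟨v, rfl⟩ | rfl
      · obtain ⟨z, hz, h1, h2⟩ := ih
        refine ⟨z, fun a ha => ?_, h1, h2⟩
        have h5 : gr z a = gr (fun h => move (w.length + 1) (p h) (gmv c v h)) a := hz a ha
        rw [h5, gr_gmv_ne _ _ ha]
      · obtain ⟨h1, h2⟩ := ih
        exact ⟨p, fun _ _ => rfl, h1, h2⟩
    | U s s' => exact absurd ⟨s, s', rfl⟩ hu
    | E a b =>
      rcases ht with ⟨hl, rfl⟩ | ⟨hl, rfl⟩
      · funext i
        have h1 := (hl i).1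
        have h2 := (hl i).2
        change tape w (gr p a i) = Sym.left at h1
        change tape w (gr p b i) = Sym.left at h2
        change gr p a i = gr p b i
        rw [tape_eq_left] at h1 h2
        rw [h1, h2]
      · funext i
        have h1 := hl i
        change tape w (gr p a i) = Sym.left ↔ tape w (gr p b i) = Sym.left at h1
        rw [tape_eq_left, tape_eq_left] at h1
        have ih' : gr (fun h => move (w.length + 1) (p h) (gml a b h)) a =
            gr (fun h => move (w.length + 1) (p h) (gml a b h)) b := ih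
        have h2 := congrFun ih' i
        rw [gr_gml _ _ (Or.inl rfl), gr_gml _ _ (Or.inr rfl)] at h2
        change gr p a i = gr p b i
        omega
    | acc => exact absurd ht (Set.notMem_empty _)
  | all c hu _ ih =>
    obtain ⟨s, p⟩ := c
    obtain ⟨s1, s2, hs⟩ : ∃ a b, s = NS.U a b := hu
    subst hs
    have h1 : Inv M w (NS.goal s1) p := ih (NS.goal s1, p) ⟨(NS.goal s1, Stay), Or.inl rfl, rfl⟩
    have h2 : Inv M w (NS.goal s2) p := ih (NS.goal s2, p) ⟨(NS.goal s2, Stay), Or.inr rfl, rfl⟩
    exact ⟨h1, h2⟩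

end NPR

theorem t_NPR : S_NPR := by
  intro α k M w p _
  exact ⟨fun g q q2 a b hab h => NPR.main M w _ h hab, fun γ q a h => NPR.main M w _ h⟩

end Pool.Agent.AFH
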