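import Pool.Agent.AFH.LS
import Pool.Agent.AFH.FM

/-!
The frame machine which enumerates the accepting nodes of a local system.
-/

set_option autoImplicit false

namespace Pool.Agent.AFH

open Pool.Agent.Heads

/-- The number of vectors of moves. -/
noncomputable def VM (k : ℕ) : ℕ := Nat.card (Fin k → Dir)

/-- An enumeration of the vectors of moves. -/
noncomputable def vec (k n : ℕ) : Fin k → Dir :=
  have : Finite Dir := Finite.of_injective
    (fun d : Dir => match d with | Dir.L => (0 : Fin 3) | Dir.S => 1 | Dir.R => 2)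
    (by intro a b h; cases a <;> cases b <;> simp_all)
  if h : n < VM k then (Finite.equivFin (Fin k → Dir)).symm ⟨n, h⟩ else Stay

/-- Labels of the program. The registers hold the positions of a node, its state is `q`. -/
inductive Lab (Q : Type) (k M : ℕ) where
  /-- a node of the list, the stack is empty -/
  | main (q : Q)
  | acc
  | rej
  /-- find the next node of the list after `(q, registers)` -/
  | next (q : Q)
  /-- return with the node `(q, registers)` -/
  | ret (q : Q)
  /-- return: there is no next node -/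
  | retE
  /-- `y = (q, registers)` is compared with the node of the top frame: test number `n` -/
  | fnd (q : Q) (n : Fin (VM k + 1))
  | tst (q : Q) (n : Fin (VM k))
  | hit (q : Q) (n : Fin (VM k))
  | mis (q : Q) (n : Fin (VM k))
  /-- `y` is the node of the top frame plus `vec n` -/
  | pro (q : Q) (n : Fin (VM k))
  /-- candidate number `m` at the node `(q, registers)` -/
  | scan (q : Q) (m : Fin (M + 1))
  | cnd (q : Q) (m : Fin M)
  | new1 (m : Fin M)
  | new2 (m : Fin M)
  | new3 (m : Fin M)
  | old (q : Q) (m : Fin M)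
  | fin

/-- Labels of the frames. -/
inductive Frm (Q : Type) (k M : ℕ) where
  /-- the node `(q, ·)`, looking for the node where it was justified; `T` are the successors which
  have not been met -/
  | A (q : Q) (T : Set (Q × (Fin k → Dir)))
  /-- the node `(q, ·)`, looking for the next node -/
  | B (q : Q)
  /-- the node `(q, ·)` is the candidate number `m` at a node with the state `s` -/
  | C (q : Q) (T : Set (Q × (Fin k → Dir))) (s : Q) (m : Fin M)

variable {α : Type} {k : ℕ}

open Classical in
/-- The set `T` after the target `t` has been met (a node with the state `q`). -/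
noncomputable def LS.cut (S : LS α k) (q : S.Q) (T : Set (S.Q × (Fin k → Dir)))
    (t : S.Q × (Fin k → Dir)) : Set (S.Q × (Fin k → Dir)) := if q ∈ S.uni then T \ {t} else T

/-- The target `t` completes the justification of a node with the state `q`. -/
def LS.full (S : LS α k) (q : S.Q) (T : Set (S.Q × (Fin k → Dir)))
    (t : S.Q × (Fin k → Dir)) : Prop := t ∈ T ∧ (q ∈ S.uni → T \ {t} = ∅)

/-- The number of the pair `o`. -/
noncomputable def LS.num (S : LS α k) (o : S.Q × (Fin k → Dir)) : ℕ := sInf {m | S.off m = o}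

open Classical in
/-- The program. -/
noncomputable def LS.prog (S : LS α k) : Lab S.Q k S.M → (Fin k → Sym α) →
    Option (Frm S.Q k S.M) → Ins (Lab S.Q k S.M) (Frm S.Q k S.M) k
  | Lab.main q, x, _ =>
      if q = S.start ∧ ∀ i, x i = Sym.left then Ins.go Stay Lab.acc
      else Ins.go Stay (Lab.next q)
  | Lab.acc, _, _ => Ins.halt
  | Lab.rej, _, _ => Ins.halt
  | Lab.next q, x, _ =>
      if q = S.q0 then Ins.push (Frm.B q) (Lab.scan S.q0 0)
      else Ins.push (Frm.A q (S.succ q x)) (Lab.fnd S.q0 0)
  | Lab.ret q, _, none => Ins.go Stay (Lab.main q)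
  | Lab.ret q, _, some (Frm.A _ _) => Ins.go Stay (Lab.fnd q 0)
  | Lab.ret q, _, some (Frm.C _ _ _ _) => Ins.go Stay (Lab.fnd q 0)
  | Lab.ret q, _, some (Frm.B _) => Ins.go Stay (Lab.scan q 0)
  | Lab.retE, _, none => Ins.go Stay Lab.rej
  | Lab.retE, _, some _ => Ins.halt
  | Lab.fnd q n, x, _ =>
      if h : n.val < VM k then
        if Okx x (opv (vec k n)) then Ins.go (opv (vec k n)) (Lab.tst q ⟨n.val, h⟩)
        else Ins.go Stay (Lab.fnd q ⟨n.val + 1, Nat.succ_lt_succ h⟩)
      else Ins.go Stay (Lab.next q)
  | Lab.tst q n, _, _ => Ins.test (Lab.hit q n) (Lab.mis q n)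
  | Lab.hit q n, _, _ => Ins.go (vec k n) (Lab.pro q n)
  | Lab.mis q n, _, _ => Ins.go (vec k n) (Lab.fnd q n.succ)
  | Lab.pro q n, _, some (Frm.A c T) =>
      if S.full c T (q, vec k n) then
        if h : S.num (c, opv (vec k n)) < S.M then
          Ins.rel (Frm.B c) (Lab.scan q ⟨S.num (c, opv (vec k n)) + 1, Nat.succ_lt_succ h⟩)
        else Ins.halt
      else Ins.rel (Frm.A c (S.cut c T (q, vec k n))) (Lab.next q)
  | Lab.pro q n, _, some (Frm.C c T s m) =>
      if S.full c T (q, vec k n) then
        if q = s ∧ vec k n = opv (S.off m).2 then Ins.go Stay (Lab.new1 m)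
        else Ins.pop (Lab.old s m)
      else
        if q = s ∧ vec k n = opv (S.off m).2 then Ins.pop (Lab.old s m)
        else Ins.rel (Frm.C c (S.cut c T (q, vec k n)) s m) (Lab.next q)
  | Lab.pro _ _, _, _ => Ins.halt
  | Lab.scan q m, x, some (Frm.B c) =>
      if h : m.val < S.M then
        if Okx x (S.off m).2 then Ins.go (S.off m).2 (Lab.cnd q ⟨m.val, h⟩)
        else Ins.go Stay (Lab.scan q ⟨m.val + 1, Nat.succ_lt_succ h⟩)
      else if q = c then Ins.test Lab.fin (Lab.next q)
      else Ins.go Stay (Lab.next q)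
  | Lab.scan _ _, _, _ => Ins.halt
  | Lab.cnd q m, x, _ =>
      Ins.push (Frm.C (S.off m).1 (S.succ (S.off m).1 x) q m) (Lab.fnd S.q0 0)
  | Lab.new1 m, _, _ => Ins.drop (Lab.new2 m)
  | Lab.new2 m, _, _ => Ins.drop (Lab.new3 m)
  | Lab.new3 m, _, _ => Ins.go (S.off m).2 (Lab.ret (S.off m).1)
  | Lab.old q m, _, _ => Ins.go (opv (S.off m).2) (Lab.scan q m.succ)
  | Lab.fin, _, _ => Ins.drop Lab.retE

end Pool.Agent.AFH
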