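import Pool.Agent.AFH.Fnt

/-!
# Project AFH (MP_5e85fc_lc): statements of the modules

THEOREM: every language of a two-way alternating finite automaton with `k` heads is accepted by a
deterministic two-way pushdown automaton with `k + 1` heads.

Module `X` proves `theorem t_X : S_X` in the namespace `Pool.Agent.AFH`, in the file
`Pool/Agent/AFH/P_X.lean`, importing this file; hypotheses (statements of other modules) are
explicit arguments if the doc-string says so. `N = w.length + 1` is the right endmarker.
-/

set_option autoImplicit false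

namespace Pool.Agent.AFH

open Pool.Agent.Heads

/-! ## 1. Compilation of frame machines -/

/-- PU (store a frame). In the state `pu γ l n` the digits `< n` are on the stack and the registers `< n` are `0`.
Proof: prove by induction on `k - n`: if `n ≤ k`, `q i = 0` for `i < n` and `q i = p i` for `i ≥ n`, then
`MR (mc (pu γ l n) 0 q (dig p n ++ s)) (mc (run l) 0 (fun _ => 0) (lab γ :: (dig p k ++ s)))`. Inner loop (state `puD γ l j`, `j = n`): by induction on `q j`, with
`a + q j = p j`, from `mc (puD γ l j) 0 q (replicate a one ++ hash :: (dig p n ++ s))`. A step is `Relation.ReflTransGen.head` with `FM.MS`; write a general lemma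
for steps with `mv2` (positions `Fin.cons e (Function.update p j …)`, proved by `Fin.cases` and `Function.update`) and for steps with `sty`. `tape w 0 = left`, `tape w (a + 1) ≠ left`. -/
def S_PU : Prop := ∀ {α : Type} {k : ℕ} (M : FM α k) (w : List α) (γ : M.Γ) (l : M.L)
  (p : Fin k → ℕ) (s : List (Sy M.Γ)), (∀ i, p i ≤ w.length + 1) →
  M.MR w (mc (Mic.pu γ l 0) 0 p s) (mc (Mic.run l) 0 (fun _ => 0) (Sy.lab γ :: (dig p k ++ s)))

/-- PO (load a frame). In the state `po l n` the digits `< n` of `q` are on the stack and the registers `≥ n` are those of `q`.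
Proof: by induction on `n`: if `r i = q i` for `i ≥ n` then `MR (mc (po l n) 0 r (dig q n ++ s)) (mc (run l) 0 q s)`. For `n = j + 1`: first the register `j` is set to zero
(induction on `r j`), then the digit is popped (state `poD l j`, induction on the number of the remaining `one`s, the register `j` grows up to `q j ≤ N`, so that `move N` adds one). -/
def S_PO : Prop := ∀ {α : Type} {k : ℕ} (M : FM α k) (w : List α) (l : M.L)
  (p q : Fin k → ℕ) (s : List (Sy M.Γ)), (∀ i, p i ≤ w.length + 1) → (∀ i, q i ≤ w.length + 1) →
  M.MR w (mc (Mic.po l (Fin.last k)) 0 p (dig q k ++ s)) (mc (Mic.run l) 0 q s)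

/-- DR (remove a frame). Induction on `n`: `MR (mc (dr l n) 0 p (dig q n ++ s)) (mc (run l) 0 p s)`, inner induction on the number of `one`s. -/
def S_DR : Prop := ∀ {α : Type} {k : ℕ} (M : FM α k) (w : List α) (l : M.L)
  (p q : Fin k → ℕ) (s : List (Sy M.Γ)), (∀ i, p i ≤ w.length + 1) →
  M.MR w (mc (Mic.dr l (Fin.last k)) 0 p (dig q k ++ s)) (mc (Mic.run l) 0 p s)

/-- RS (restore the digits `≥ n` of the frame from the registers). Induction on `k - n`. For `j = n < k`: push `hash`, then (state `rsD γ l j`) while the register `j` is not `0`: push `one`, register down, auxiliary head up;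
then (state `rsE γ l j`) the auxiliary head goes down and the register up, until the auxiliary head is `0` (`p j ≤ N`). -/
def S_RS : Prop := ∀ {α : Type} {k : ℕ} (M : FM α k) (w : List α) (γ : M.Γ) (l : M.L)
  (p q : Fin k → ℕ) (s : List (Sy M.Γ)) (n : Fin (k + 1)), (∀ i, p i ≤ w.length + 1) →
  (∀ i : Fin k, n.val ≤ i.val → p i = q i) →
  M.MR w (mc (Mic.rs γ l n) 0 p (dig q n ++ s))
    (mc (Mic.run l) 0 p (Sy.lab γ :: (dig q k ++ s)))

open Classical in
/-- TE (test, from RS). Induction on `n`: if `p i = q i` for all `i ≥ n` then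
`MR (mc (te γ lt lf n) 0 p (dig q n ++ s)) (mc (run (if p = q then lt else lf)) 0 p (lab γ :: (dig q k ++ s)))`. For `n = 0`: `p = q`, RS with `n = 0`. For `n = j + 1`: the loop in the state `te` removes `a` symbols
`one`, the auxiliary head is `a`, the register `j` is `p j - a`; it ends for `a = min (p j) (q j)`. If `p j = q j`: state `teE` restores the register, pops the `hash`, induction hypothesis. Otherwise
the state `teN` restores both (pushes `a` symbols `one`), then RS with `n = j + 1`; `p ≠ q`. -/
def S_TE : Prop := ∀ {α : Type} {k : ℕ} (M : FM α k) (w : List α) (γ : M.Γ) (lt lf : M.L)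
  (p q : Fin k → ℕ) (s : List (Sy M.Γ)), (∀ i, p i ≤ w.length + 1) → (∀ i, q i ≤ w.length + 1) →
  M.MR w (mc (Mic.te γ lt lf (Fin.last k)) 0 p (dig q k ++ s))
    (mc (Mic.run (if p = q then lt else lf)) 0 p (Sy.lab γ :: (dig q k ++ s)))

/-- SIM (one step of the frame machine; from PU, PO, DR, TE). By cases on the instruction. -/
def S_SIM : Prop := ∀ {α : Type} {k : ℕ} (M : FM α k) (w : List α) (c c' : FC M.L M.Γ k),
  (∀ i, c.reg i ≤ w.length + 1) → BdS (w.length + 1) c.stk → M.Stp w c c' →
  (∀ i, c'.reg i ≤ w.length + 1) ∧ BdS (w.length + 1) c'.stk ∧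
  M.MR w (mc (Mic.run c.lab) 0 c.reg (enc c.stk)) (mc (Mic.run c'.lab) 0 c'.reg (enc c'.stk))

/-- CMP (compilation; from SIM). `P` has the states `Mic M.L M.Γ k`, the stack symbols `Sy M.Γ` (finite: `finMic`, `finSy`), the start state `run M.start`, the accepting states `run l`, `l ∈ M.acc`, and
`δ q x g = {t | M.mic q x g = some t}`. The second part: the step relation is deterministic and both the accepting configurations and the last configuration of the run have no successor,
so a reachable accepting configuration would be equal to the last one (two maximal runs of a deterministic relation end in the same configuration). -/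
def S_CMP : Prop := ∀ {α : Type} {k : ℕ} (M : FM α k),
  (∀ l ∈ M.acc, ∀ x g, M.prog l x g = Ins.halt) → ∃ P : PDA α (k + 1), P.Det ∧
    (∀ w c, M.Run w M.init c → c.lab ∈ M.acc → w ∈ P.lang) ∧
    (∀ w c, M.Run w M.init c → c.lab ∉ M.acc → M.ins w c = Ins.halt → w ∉ P.lang)

/-! ## 2. Alternating automata and local systems -/

/-- NRM (normal form). States: `Option (Option M.Q)`; `q0 = none`; `some none` is the state `g` in which all heads go to the left end; `some (some q)`. `start = some (some M.start)`, universal:
`some (some q)` with `q ∈ M.univ` (and not accepting). Rules: `succ none x = ∅`; `succ g x` has the single element `(none, Stay)` if `x i = left` for all `i`, otherwise `(g, v)` with `v i = S` if `x i = left` and `v i = L` otherwise;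
`succ (some (some q)) x` has the single element `(g, Stay)` if `q ∈ M.accept` or (`q ∈ M.univ` and `M.δ q x = ∅`), otherwise the elements `(some (some q'), v')` with `(q', v) ∈ M.δ q x` and `v' i = v i` except that `v' i = S` if
(`v i = L` and `x i = left`) or (`v i = R` and `x i = right`). (If `q` is universal and accepting or without rules there is exactly one rule, so universal or existential does not matter.)
`(g, p)` is accepting for all `p ≤ N` (induction on the sum of the `p i`). By induction: `M.Wins w (q, p) → S.Acc w (some (some q), p)` for `p ≤ N`, and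
`S.Acc w c → ∀ q p, c = (some (some q), p) → M.Wins w (q, p)`. -/
def S_NRM : Prop := ∀ {α : Type} {k : ℕ} (M : AFA α k), ∃ S : LS α k,
  ∀ w, S.Acc w (S.start, fun _ => 0) ↔ w ∈ M.lang

/-- FAA: a finite automaton as an alternating automaton without universal states. -/
def S_FAA : Prop := ∀ {α : Type} {k : ℕ} (M : FA α k), ∃ M' : AFA α k, M'.lang = M.lang

/-! ## 3. The canonical list -/

/-- LPR: the lists grow. Induction on `j`; `List.prefix_append`. -/
def S_LPR : Prop := ∀ {α : Type} {k : ℕ} (S : LS α k) (w : List α) (i j : ℕ), i ≤ j →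
  S.lst w i <+: S.lst w j

/-- LND (from LPR): the members are bounded and accepting, there are no repetitions. (1) A member of `ext D s m` is a candidate at `s` (bounded, since `s` is) and justified by `insert s D`, whose elements are members by induction. (2) By induction on `j`: every member `c ≠ a0` of
`lst j` is justified by `{d | d ∈ (lst j).take j}`: the members of `ext` by `insert s D_j = D_(j+1)` (`s` is the member number `j`), `Just` is monotone in `D`, and `a0` is never justified (`q0_succ`). The members of `ext D_j s M` are not justified by `D_j`, so they do not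
belong to `lst j`. (3) `ext D s m` has no repetitions, because two numbers `m ≠ m'` with `Cand` give different nodes (`cand_inj` in `Bas.lean`). -/
def S_LND : Prop := ∀ {α : Type} {k : ℕ} (S : LS α k) (w : List α) (j : ℕ),
  (S.lst w j).Nodup ∧ ∀ c ∈ S.lst w j, S.Acc w c ∧ S.Bd w c

/-- LFI (from LPR, LND): the number `R` of the members. The length of `lst j` is at most the number of the bounded nodes (finite: `S.finQ`, positions `≤ N`), so `(lst j)[j]? = none` for some `j`; `R` is the first one. `R > 0`. Then `R ≤ length (lst R)` since `lst (R - 1)` is longer than `R - 1`. -/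
def S_LFI : Prop := ∀ {α : Type} {k : ℕ} (S : LS α k) (w : List α), ∃ R, 0 < R ∧
  (∀ j < R, j < (S.lst w j).length) ∧ (S.lst w R).length = R

/-- LCL (from LPR): closure. Let `D_j = {d | d ∈ (lst R).take j}`. Since the set `S.tr w c` is finite (or directly because `D_R` is everything) `Just c D_R`, and not `Just c D_0` (`D_0` is empty). The least `j` with `Just c D_j` is `j' + 1`, `j' < R`. Let `s` be the member number `j'`;
`D_(j'+1) = insert s D_j'`. There is a `t ∈ S.tr w c` with `tgt c t = s` (otherwise `Just c D_j'`), so `c` is a candidate at `s` (`cand_of_tgt` in `Bas.lean`) and it is new there, hence a member of `ext` and of `lst (j' + 1)`, which is a prefix of `lst R`. -/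
def S_LCL : Prop := ∀ {α : Type} {k : ℕ} (S : LS α k) (w : List α) (R : ℕ),
  (∀ j < R, j < (S.lst w j).length) → (S.lst w R).length = R → ∀ (c : S.Node) (D : Set S.Node),
  S.Bd w c → (∀ d ∈ D, d ∈ S.lst w R) → S.Just w c D → c ∈ S.lst w R

/-- LST (from LPR, LND, LFI, LCL): the canonical list exists. `v i = ((S.lst w R)[i]?).getD S.a0`, `pos j m = (S.lst w j).length + (S.ext w {d | d ∈ (S.lst w j).take j} (v j) m).length`. For `j < R`: `(S.lst w j)[j]? = some (v j)`, the set `{d | d ∈ (S.lst w j).take j}` is
`{d | ∃ a < j, v a = d}`, `S.lst w (j + 1) = S.lst w j ++ ext …`. `pos_new`: the node is the member number `pos j m` of `S.lst w (j + 1)`, a prefix of `S.lst w R`. `par`: the members of `lst R` are `a0` and the members of the `ext`s of the stages `< R`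
(induction on the stage: every member number `i > 0` of `lst j'`, `j' ≤ R`, has such `j < j'`, `m`); `j < i` by `pos_gt`. `acc`: LND, and induction on `S.Acc` with LCL. -/
def S_LST : Prop := ∀ {α : Type} {k : ℕ} (S : LS α k) (w : List α), Nonempty (S.Listing w)

/-! ## 4. The program -/

/-- REL: comparison of `y` with the node of the top frame. First part: `y = p + vec n`. Second part: `y` is not near `p`. Proof: loop over the numbers `n' = 0, 1, …` (induction on `VM k - n'`). At `n'`: if `Okx (opv (vec n'))` fails at `y` then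
`y ≠ p + vec n'`; otherwise the registers are moved by `opv (vec n')`, compared with `p` and moved back; they are equal to `p` if and only if `y = p + vec n'` and `Ok p (vec n')`. -/
def S_REL : Prop := ∀ {α : Type} {k : ℕ} (S : LS α k) (w : List α) (q : S.Q)
  (y p : Fin k → ℕ) (γ : Frm S.Q k S.M) (stk : List (Frm S.Q k S.M × (Fin k → ℕ))),
  (∀ i, y i ≤ w.length + 1) → (∀ i, p i ≤ w.length + 1) →
  (∀ n : Fin (VM k), Ok (w.length + 1) p (vec k n) → y = mvs (w.length + 1) p (vec k n) →
    S.fm.Run w ⟨Lab.fnd q 0, y, (γ, p) :: stk⟩ ⟨Lab.pro q n, y, (γ, p) :: stk⟩) ∧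
  ((∀ v : Fin k → Dir, Ok (w.length + 1) p v → y ≠ mvs (w.length + 1) p v) →
    S.fm.Run w ⟨Lab.fnd q 0, y, (γ, p) :: stk⟩ ⟨Lab.next q, y, (γ, p) :: stk⟩)

/-- The procedure `next` is correct for the node `v i` of the list. -/
def NextOK {α : Type} {k : ℕ} (S : LS α k) (w : List α) (l : S.Listing w) (i : ℕ) : Prop :=
  ∀ stk : List (Frm S.Q k S.M × (Fin k → ℕ)),
    (i + 1 < l.R → S.fm.Run w ⟨Lab.next (l.v i).1, (l.v i).2, stk⟩
      ⟨Lab.ret (l.v (i + 1)).1, (l.v (i + 1)).2, stk⟩) ∧
    (i + 1 = l.R → ∃ p, S.fm.Run w ⟨Lab.next (l.v i).1, (l.v i).2, stk⟩ ⟨Lab.retE, p, stk⟩)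

/-- FDA: the node `v j` where the node `v i` was justified is found (from REL). Proof: by induction on `j - a` for `a ≤ j`: at `y = v a`, with the top frame `(A x.1 T, x.2)`, `x = v i`, where `T` = all `t ∈ S.tr w x` for universal `x`, without those with
`tgt x t` among the `v b`, `b < a`. For `a < j` the node `x` is not justified by the `v b`, `b ≤ a` (`New`, monotonicity of `Just`), so `S.full` fails and `T` is cut; then `next` (hypothesis for `a`), `ret`, `fnd`. For `a = j` REL gives the number `n` of `t.2`,
`S.full` holds, and `S.num (x.1, opv (vec n)) = m` because `off m` is the only pair with `x = v j + off m`. If `y` is near `x` but not a target, the same with `T` unchanged. (If `y = tgt x t` then `t = (y.1, vec n)`: `mvs` is injective on the `v` with `Ok`.) -/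
def S_FDA : Prop := ∀ {α : Type} {k : ℕ} (S : LS α k) (w : List α) (l : S.Listing w) (i j : ℕ)
  (m : Fin S.M) (stk : List (Frm S.Q k S.M × (Fin k → ℕ))),
  0 < i → i < l.R → j < i → S.Cand w (l.v j) m (l.v i) →
  S.New w {d | ∃ a < j, l.v a = d} (l.v j) (l.v i) → (∀ a < i, NextOK S w l a) →
  S.fm.Run w ⟨Lab.fnd S.q0 0, fun _ => 0, (Frm.A (l.v i).1 (S.tr w (l.v i)), (l.v i).2) :: stk⟩
    ⟨Lab.scan (l.v j).1 m.succ, (l.v j).2, (Frm.B (l.v i).1, (l.v i).2) :: stk⟩

/-- FDC: the candidate `c` number `m` at the node `v j` is examined (from REL). Proof: like FDA, by induction on `j - a` for `a ≤ j`, at `y = v a`. If `c` is justified by the `v b`, `b ≤ a`, for some `a < j` then `c` is not new and the program goes to `old` when the first such `a` is reached (`y ≠ v j` because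
`l.inj`). For `a = j` we have `y = v j = c + opv (off m).2`, so REL gives the number `n` of `opv (off m).2`; `S.full` holds if and only if `c` is new. -/
def S_FDC : Prop := ∀ {α : Type} {k : ℕ} (S : LS α k) (w : List α) (l : S.Listing w) (j : ℕ)
  (m : Fin S.M) (c : S.Node) (stk : List (Frm S.Q k S.M × (Fin k → ℕ))),
  j < l.R → S.Cand w (l.v j) m c → (∀ a < j, NextOK S w l a) →
  (S.New w {d | ∃ a < j, l.v a = d} (l.v j) c → ∃ f,
    S.fm.Run w ⟨Lab.fnd S.q0 0, fun _ => 0, (Frm.C c.1 (S.tr w c) (l.v j).1 m, c.2) :: stk⟩
      ⟨Lab.new1 m, (l.v j).2, f :: stk⟩) ∧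
  (¬ S.New w {d | ∃ a < j, l.v a = d} (l.v j) c →
    S.fm.Run w ⟨Lab.fnd S.q0 0, fun _ => 0, (Frm.C c.1 (S.tr w c) (l.v j).1 m, c.2) :: stk⟩
      ⟨Lab.old (l.v j).1 m, c.2, stk⟩)

/-- SCN: the search for the node after `v i` (from FDC). Proof: induction on `(i - j, M - m)`. `m < M`: if there is no candidate number `m` (`Okx` fails) go on with `m + 1` (`pos_old`). Otherwise `cnd`, `FDC`; if the candidate is new it is `v (pos j m) = v (i + 1)`
(`pos_new`; `new1`, `new2`, `new3`, `ret`), otherwise `old` and `m + 1` (`pos_old`). `m = M`: if `j = i` the test succeeds (`v j = v i`), `fin`, `retE`; here `i + 1 = R`, because `pos (i + 1) 0 = pos i M = i + 1` (`pos_stage`) contradicts `pos_gt` if `i + 1 < R`.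
If `j < i` then `v j ≠ v i` (`inj`): the program goes to `next` at `v j` (if the states are equal the test fails), returns with `v (j + 1)` (top frame `B`) to `scan (j + 1) 0`. -/
def S_SCN : Prop := ∀ {α : Type} {k : ℕ} (S : LS α k) (w : List α) (l : S.Listing w) (i j : ℕ)
  (m : Fin (S.M + 1)) (stk : List (Frm S.Q k S.M × (Fin k → ℕ))),
  i < l.R → j ≤ i → l.pos j m = i + 1 → (∀ a < i, NextOK S w l a) →
  (i + 1 < l.R → S.fm.Run w
    ⟨Lab.scan (l.v j).1 m, (l.v j).2, (Frm.B (l.v i).1, (l.v i).2) :: stk⟩
    ⟨Lab.ret (l.v (i + 1)).1, (l.v (i + 1)).2, stk⟩) ∧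
  (i + 1 = l.R → ∃ p, S.fm.Run w
    ⟨Lab.scan (l.v j).1 m, (l.v j).2, (Frm.B (l.v i).1, (l.v i).2) :: stk⟩ ⟨Lab.retE, p, stk⟩)

/-- NXT: the procedure `next` is correct (from FDA, SCN). Strong induction on `i`. `i = 0`: `v 0 = a0`, `next q0` stores the frame and goes to `scan q0 0`. `i > 0`: `(v i).1 ≠ q0` because `v i` is justified (`par`, `q0_succ`); FDA with `j`, `m` from `par`, then SCN at `(j, m + 1)`
(`pos j (m + 1) = i + 1` by `pos_new`). -/
def S_NXT : Prop := ∀ {α : Type} {k : ℕ} (S : LS α k) (w : List α) (l : S.Listing w) (i : ℕ),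
  i < l.R → NextOK S w l i

/-- TOP: the whole program (from NXT). By induction the run reaches `main` at `v i` with empty stack as long as none of `v 0, …, v (i - 1)` is the start node; `x i = left` for all `i` means that all registers are `0`. -/
def S_TOP : Prop := ∀ {α : Type} {k : ℕ} (S : LS α k) (w : List α) (_ : S.Listing w),
  (S.Acc w (S.start, fun _ => 0) → ∃ p stk, S.fm.Run w S.fm.init ⟨Lab.acc, p, stk⟩) ∧
  (¬ S.Acc w (S.start, fun _ => 0) → ∃ p stk, S.fm.Run w S.fm.init ⟨Lab.rej, p, stk⟩)

/-- The main theorem. -/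
def S_MAIN : Prop := ∀ {α : Type} {k : ℕ} (M : AFA α k), ∃ P : PDA α (k + 1), P.Det ∧
  P.lang = M.lang

end Pool.Agent.AFH
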